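import Pool.Agent.Helper17.AQ.Fac

/-! AQ3: amplification, N -> 3 N^2 - 2 N^3 -/

set_option autoImplicit false

namespace Pool.Agent.Helper17.AQ

open Finset Pool.Agent.Results.MP_799357_lc.DetVsQuantum

private theorem amp_real (s e : ℝ) (b : Bool) (h0 : 0 ≤ s) (h1 : s ≤ 1) (h : |s - bv b| ≤ e) :
    0 ≤ 3 * s ^ 2 - 2 * s ^ 3 ∧ 3 * s ^ 2 - 2 * s ^ 3 ≤ 1 ∧
      |3 * s ^ 2 - 2 * s ^ 3 - bv b| ≤ 3 * e ^ 2 ∧
      (e ≤ 1 / 2 → |3 * s ^ 2 - 2 * s ^ 3 - bv b| ≤ 3 * e ^ 2 - 2 * e ^ 3) := by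
  have a1 : 0 ≤ 3 * s ^ 2 - 2 * s ^ 3 := by nlinarith [sq_nonneg s, mul_nonneg h0 (sq_nonneg s)]
  have a2 : 3 * s ^ 2 - 2 * s ^ 3 ≤ 1 := by
    nlinarith [mul_nonneg (sq_nonneg (1 - s)) (by linarith : (0 : ℝ) ≤ 1 + 2 * s)]
  have key : ∀ t : ℝ, 0 ≤ t → t ≤ 1 → t ≤ e → 3 * t ^ 2 - 2 * t ^ 3 ≤ 3 * e ^ 2 ∧
      (e ≤ 1 / 2 → 3 * t ^ 2 - 2 * t ^ 3 ≤ 3 * e ^ 2 - 2 * e ^ 3) := by
    intro t ht0 ht1 hte
    have e0 : 0 ≤ e := ht0.trans hte
    refine ⟨?_, ?_⟩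
    · have : t ^ 2 ≤ e ^ 2 := pow_le_pow_left₀ ht0 hte 2
      nlinarith [pow_nonneg ht0 3]
    · intro he
      have hd : 3 * e ^ 2 - 2 * e ^ 3 - (3 * t ^ 2 - 2 * t ^ 3) =
          (e - t) * (3 * (e + t) - 2 * (e ^ 2 + e * t + t ^ 2)) := by ring
      have hpos : 0 ≤ 3 * (e + t) - 2 * (e ^ 2 + e * t + t ^ 2) := by
        nlinarith [mul_nonneg e0 ht0]
      have := mul_nonneg (sub_nonneg.2 hte) hpos
      linarith
  refine ⟨a1, a2, ?_⟩
  cases b with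
  | false =>
    simp only [bv, Bool.false_eq_true, if_false, sub_zero] at h ⊢
    rw [abs_of_nonneg h0] at h
    rw [abs_of_nonneg a1]
    exact key s h0 h1 h
  | true =>
    simp only [bv, if_true] at h ⊢
    have h2 : |s - 1| = 1 - s := by rw [abs_sub_comm, abs_of_nonneg (by linarith)]
    rw [h2] at h
    have h3 : |3 * s ^ 2 - 2 * s ^ 3 - 1| = 3 * (1 - s) ^ 2 - 2 * (1 - s) ^ 3 := by
      rw [abs_sub_comm, abs_of_nonneg (by linarith)]
      ring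
    rw [h3]
    exact key (1 - s) (by linarith) (by linarith) h

private theorem amp_fac {X Y : Type} (M : X → Y → ℝ) (h : ℝ) (hh : 1 ≤ h) (hfac : Fac M h) :
    Fac (fun x y => 3 * M x y ^ 2 - 2 * M x y ^ 3) (9 * h ^ 3) := by
  have h2 : Fac (fun x y => M x y * M x y) (h * h) :=
    Fac.mul (by linarith) (by linarith) hfac hfac
  have h3 : Fac (fun x y => M x y * M x y * M x y) (h * h * h) :=
    Fac.mul (by nlinarith) (by linarith) h2 hfac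
  have h4 := Fac.add (Fac.smul 3 h2) (Fac.smul (-2) h3)
  have h5 : (fun x y => 3 * M x y ^ 2 - 2 * M x y ^ 3) =
      fun x y => 3 * (M x y * M x y) + -2 * (M x y * M x y * M x y) := by
    funext x y
    ring
  rw [h5]
  refine h4.mono ?_
  rw [abs_of_pos (by norm_num : (0 : ℝ) < 3), show |(-2 : ℝ)| = 2 by norm_num]
  have h6 : h * h ≤ h * h * h := by nlinarith [mul_nonneg (by linarith : 0 ≤ h) (by linarith : 0 ≤ h)]
  have h7 : 0 ≤ h * h * h := by positivity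
  nlinarith

theorem amplify {X Y : Type} (M : X → Y → ℝ) (F : X → Y → Bool) (g : ℝ) (hg : 1 ≤ g)
    (h01 : ∀ x y, 0 ≤ M x y ∧ M x y ≤ 1) (hF : ∀ x y, |M x y - bv (F x y)| ≤ 1 / 3)
    (hfac : Fac M g) (j : ℕ) :
    ∃ N : X → Y → ℝ, (∀ x y, 0 ≤ N x y ∧ N x y ≤ 1) ∧
      (∀ x y, |N x y - bv (F x y)| ≤ 1 / 3 * (7 / 9 : ℝ) ^ 2 ^ j) ∧
      Fac N ((3 * g) ^ 3 ^ (j + 1)) := by
  have main : ∀ j : ℕ, ∃ N : X → Y → ℝ, (∀ x y, 0 ≤ N x y ∧ N x y ≤ 1) ∧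
      (∀ x y, |N x y - bv (F x y)| ≤ 1 / 3 * (7 / 9 : ℝ) ^ 2 ^ j) ∧
      Fac N ((3 * g) ^ 3 ^ (j + 1) / 3) := by
    intro j
    induction j with
    | zero =>
      refine ⟨fun x y => 3 * M x y ^ 2 - 2 * M x y ^ 3, ?_, ?_, ?_⟩
      · intro x y
        have := amp_real (M x y) (1 / 3) (F x y) (h01 x y).1 (h01 x y).2 (hF x y)
        exact ⟨this.1, this.2.1⟩
      · intro x y
        have := (amp_real (M x y) (1 / 3) (F x y) (h01 x y).1 (h01 x y).2 (hF x y)).2.2.2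
          (by norm_num)
        refine this.trans ?_
        norm_num
      · refine (amp_fac M g hg hfac).mono ?_
        norm_num
        nlinarith
    | succ j ih =>
      obtain ⟨N, hN1, hN2, hN3⟩ := ih
      have hbig : 1 ≤ (3 * g) ^ 3 ^ (j + 1) / 3 := by
        have h1 : (3 : ℝ) ≤ (3 * g) ^ 3 ^ (j + 1) := by
          calc (3 : ℝ) ≤ 3 * g := by linarith
            _ = (3 * g) ^ 1 := (pow_one _).symm
            _ ≤ (3 * g) ^ 3 ^ (j + 1) :=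
              pow_le_pow_right₀ (by linarith) (Nat.one_le_pow _ _ (by norm_num))
        linarith
      refine ⟨fun x y => 3 * N x y ^ 2 - 2 * N x y ^ 3, ?_, ?_, ?_⟩
      · intro x y
        have := amp_real (N x y) _ (F x y) (hN1 x y).1 (hN1 x y).2 (hN2 x y)
        exact ⟨this.1, this.2.1⟩
      · intro x y
        have := (amp_real (N x y) _ (F x y) (hN1 x y).1 (hN1 x y).2 (hN2 x y)).2.2.1
        refine this.trans (le_of_eq ?_)
        rw [pow_succ 2 j, pow_mul]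
        ring
      · refine (amp_fac N _ hbig hN3).mono (le_of_eq ?_)
        rw [pow_succ 3 (j + 1), pow_mul]
        ring
  obtain ⟨N, hN1, hN2, hN3⟩ := main j
  refine ⟨N, hN1, hN2, hN3.mono ?_⟩
  have : 0 ≤ (3 * g) ^ 3 ^ (j + 1) := by positivity
  linarith

end Pool.Agent.Helper17.AQ
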