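import Pool.Agent.Results.MP_799357_lc.DetVsQuantum

/-!
# Deterministic and quantum communication of AND-functions: definitions of the proof

`AQ` project: `D(f ∘ AND) ≤ poly(Q*(f ∘ AND), log n)`.
-/

set_option autoImplicit false

namespace Pool.Agent.Helper17.AQ

open Finset

/-- `M` has a factorisation through a Hilbert space with vectors of squared norm at most `g`
(so its `γ₂` norm is at most `g`). -/
def Fac {X Y : Type} (M : X → Y → ℝ) (g : ℝ) : Prop :=
  ∃ (ι : Type) (_ : Fintype ι) (u : X → ι → ℂ) (v : Y → ι → ℂ),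
    (∀ x y, (M x y : ℂ) = ∑ i, u x i * v y i) ∧ (∀ x, ∑ i, ‖u x i‖ ^ 2 ≤ g) ∧
      (∀ y, ∑ i, ‖v y i‖ ^ 2 ≤ g)

/-- The real value of a bit. -/
def bv (b : Bool) : ℝ := if b then 1 else 0

/-- Characters of the cube. -/
def chi {I : Type} (S : Finset I) (z : I → Bool) : ℝ := ∏ i ∈ S, (if z i then (-1 : ℝ) else 1)

/-- The number of ones. -/
def wt {m : ℕ} (z : Fin m → Bool) : ℕ := (univ.filter fun i => z i = true).card

/-- The pattern of `x` seen through `V`, shifted by `w`. -/
def pat {m : ℕ} (x : Fin m × Bool → Bool) (V w : Fin m → Bool) : Fin m → Bool :=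
  fun i => xor (x (i, V i)) (w i)

/-- The universe of `4 m` points. -/
abbrev I4 (m : ℕ) : Type := Fin m × Bool × Bool

/-- The coefficient of the monomial `S` in the function `g (A ∪ ·)`. -/
def ce {α : Type} [DecidableEq α] (g : Finset α → Bool) (A S : Finset α) : ℤ :=
  ∑ Q ∈ S.powerset, (-1) ^ (S \ Q).card * (if g (A ∪ Q) then 1 else 0)

/-- The monomials of `g`. -/
def mons {α : Type} [DecidableEq α] [Fintype α] (g : Finset α → Bool) : Finset (Finset α) :=
  univ.filter fun S => ce g ∅ S ≠ 0

/-- There is a family of blocks sensitive at `A`, indexed by a finite set, such that every element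
belongs to less than `1/k` of the blocks. -/
def Spread {α : Type} [DecidableEq α] (g : Finset α → Bool) (A : Finset α) (k : ℕ) : Prop :=
  ∃ (Ω : Type) (_ : Fintype Ω) (_ : Nonempty Ω) (S : Ω → Finset α),
    (∀ o, Disjoint (S o) A ∧ g (A ∪ S o) ≠ g A) ∧
      ∀ i, k * (univ.filter fun o => i ∈ S o).card < Fintype.card Ω

/-- There are `t` disjoint blocks sensitive at some point. -/
def Blocks {α : Type} [DecidableEq α] (g : Finset α → Bool) (J : Type) : Prop :=
  ∃ (z : Finset α) (B : J → Finset α), (∀ i j, i ≠ j → Disjoint (B i) (B j)) ∧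
    ∀ j, Disjoint (B j) z ∧ g (z ∪ B j) ≠ g z

/-- The indicator function. -/
def ind {α : Type} [DecidableEq α] (S : Finset α) : α → Bool := fun i => decide (i ∈ S)

/-- A function of bit strings as a function of sets. -/
def ev {α : Type} [DecidableEq α] (f : (α → Bool) → Bool) (S : Finset α) : Bool := f (ind S)

end Pool.Agent.Helper17.AQ
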