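import Pool.Agent.Helper17.AQ.Defs

/-! AQ11: the protocol. State: A in x AND y, B disjoint from it; current monomials m(A,B) = nonempty S disjoint from A u B
with ce (ev f) A S <> 0. If there are none, f is constant on the sets between A and the complement of B. Otherwise some i is in at least
1/K of them (each S contains a nonempty Q with g(A u Q) <> g A; not Spread). Adding i to A does not increase the number
(ce g (A u i) S = ce g A S + ce g A (S u i)), adding i to B removes those with i in S. Phase: i_1, i_2, ... greedily, adding to A,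
until no monomials are left (at most n steps). Alice sends the first j with i_j not in x (clog 2 (n+1) bits), Bob the same for y;
the minimum j is the first i_j not in x AND y: new state (A u {i_1..i_(j-1)}, B u {i_j}), number of monomials <= (1 - 1/K) of before;
or all are in x AND y: output the constant. Induction on t: m (K-1)^t < K^t gives cost <= t 2 clog 2 (n+1).
General lemma: sending an element of Fin (N) costs clog 2 N (DetProtocol by induction / halving). -/

set_option autoImplicit false

namespace Pool.Agent.Helper17.AQ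

open Finset Pool.Agent.Results.MP_799357_lc.DetVsQuantum

/-- Alice sends a number below `2 ^ k`. -/
private theorem send_alice74 {X Y : Type} (c : ℕ) : ∀ (k : ℕ) (φ : X → ℕ), (∀ x, φ x < 2 ^ k) →
    ∀ P : ℕ → DetProtocol X Y, (∀ j, (P j).cost ≤ c) →
      ∃ Q : DetProtocol X Y, Q.cost ≤ k + c ∧ ∀ x y, Q.eval x y = (P (φ x)).eval x y := by
  intro k
  induction k with
  | zero =>
    intro φ hφ P hP
    refine ⟨P 0, by simpa using hP 0, fun x y => ?_⟩
    have h := hφ x
    have h0 : φ x = 0 := by simpa using h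
    rw [h0]
  | succ k ih =>
    intro φ hφ P hP
    have hφ' : ∀ x, φ x / 2 < 2 ^ k := fun x => by
      have := hφ x
      rw [pow_succ] at this
      omega
    obtain ⟨Q0, hc0, hQ0⟩ := ih (fun x => φ x / 2) hφ' (fun j => P (2 * j)) fun j => hP _
    obtain ⟨Q1, hc1, hQ1⟩ := ih (fun x => φ x / 2) hφ' (fun j => P (2 * j + 1)) fun j => hP _
    refine ⟨.alice (fun x => decide (φ x % 2 = 1)) Q0 Q1, ?_, fun x y => ?_⟩
    · simp only [DetProtocol.cost]
      have := max_le hc0 hc1
      omega
    · simp only [DetProtocol.eval, decide_eq_true_eq]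
      split_ifs with h
      · rw [hQ1]
        congr 2
        show 2 * (φ x / 2) + 1 = φ x
        omega
      · rw [hQ0]
        congr 2
        show 2 * (φ x / 2) = φ x
        omega

/-- Bob sends a number below `2 ^ k`. -/
private theorem send_bob74 {X Y : Type} (c : ℕ) : ∀ (k : ℕ) (φ : Y → ℕ), (∀ y, φ y < 2 ^ k) →
    ∀ P : ℕ → DetProtocol X Y, (∀ j, (P j).cost ≤ c) →
      ∃ Q : DetProtocol X Y, Q.cost ≤ k + c ∧ ∀ x y, Q.eval x y = (P (φ y)).eval x y := by
  intro k
  induction k with
  | zero =>
    intro φ hφ P hP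
    refine ⟨P 0, by simpa using hP 0, fun x y => ?_⟩
    have h := hφ y
    have h0 : φ y = 0 := by simpa using h
    rw [h0]
  | succ k ih =>
    intro φ hφ P hP
    have hφ' : ∀ y, φ y / 2 < 2 ^ k := fun y => by
      have := hφ y
      rw [pow_succ] at this
      omega
    obtain ⟨Q0, hc0, hQ0⟩ := ih (fun y => φ y / 2) hφ' (fun j => P (2 * j)) fun j => hP _
    obtain ⟨Q1, hc1, hQ1⟩ := ih (fun y => φ y / 2) hφ' (fun j => P (2 * j + 1)) fun j => hP _
    refine ⟨.bob (fun y => decide (φ y % 2 = 1)) Q0 Q1, ?_, fun x y => ?_⟩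
    · simp only [DetProtocol.cost]
      have := max_le hc0 hc1
      omega
    · simp only [DetProtocol.eval, decide_eq_true_eq]
      split_ifs with h
      · rw [hQ1]
        congr 2
        show 2 * (φ y / 2) + 1 = φ y
        omega
      · rw [hQ0]
        congr 2
        show 2 * (φ y / 2) = φ y
        omega

section

variable {n : ℕ}

private theorem sum_sign74 {S : Finset (Fin n)} (hS : S.Nonempty) :
    ∑ Q ∈ S.powerset, (-1 : ℤ) ^ (S \ Q).card = 0 := by
  have h1 : ∑ Q ∈ S.powerset, (-1 : ℤ) ^ (S \ Q).card =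
      ∑ Q ∈ S.powerset, (-1 : ℤ) ^ S.card * (-1) ^ Q.card := by
    refine Finset.sum_congr rfl fun Q hQ => ?_
    have h2 : (S \ Q).card + Q.card = S.card :=
      Finset.card_sdiff_add_card_eq_card (Finset.mem_powerset.1 hQ)
    rw [← h2, pow_add, mul_assoc, ← pow_add, ← two_mul, pow_mul]
    simp
  rw [h1, ← Finset.mul_sum, Finset.sum_powerset_neg_one_pow_card_of_nonempty hS, mul_zero]

private theorem ce_eq74 (g : Finset (Fin n) → Bool) (A : Finset (Fin n)) {S : Finset (Fin n)}
    (hS : S.Nonempty) : ce g A S = ∑ Q ∈ S.powerset, (-1) ^ (S \ Q).card *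
      ((if g (A ∪ Q) then 1 else 0) - (if g A then 1 else 0)) := by
  have h1 : ∑ Q ∈ S.powerset, (-1 : ℤ) ^ (S \ Q).card *
      ((if g (A ∪ Q) then 1 else 0) - (if g A then 1 else 0)) =
      ce g A S - (∑ Q ∈ S.powerset, (-1 : ℤ) ^ (S \ Q).card) * (if g A then 1 else 0) := by
    rw [Finset.sum_mul, ce, ← Finset.sum_sub_distrib]
    exact Finset.sum_congr rfl fun Q _ => by ring
  rw [h1, sum_sign74 hS, zero_mul, sub_zero]

private theorem exists_sens74 (g : Finset (Fin n) → Bool) (A : Finset (Fin n))
    {S : Finset (Fin n)} (hS : S.Nonempty) (h : ce g A S ≠ 0) : ∃ Q, Q ⊆ S ∧ g (A ∪ Q) ≠ g A := by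
  by_contra h1
  push Not at h1
  apply h
  rw [ce_eq74 g A hS]
  refine Finset.sum_eq_zero fun Q hQ => ?_
  rw [h1 Q (Finset.mem_powerset.1 hQ), sub_self, mul_zero]

/-- the current monomials -/
private def mm74 (g : Finset (Fin n) → Bool) (A B : Finset (Fin n)) : Finset (Finset (Fin n)) :=
  univ.filter fun S => S.Nonempty ∧ Disjoint S (A ∪ B) ∧ ce g A S ≠ 0

private theorem mem_mm74 {g : Finset (Fin n) → Bool} {A B S : Finset (Fin n)} :
    S ∈ mm74 g A B ↔ S.Nonempty ∧ Disjoint S (A ∪ B) ∧ ce g A S ≠ 0 := by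
  rw [mm74, Finset.mem_filter]
  simp

private theorem const_aux74 (g : Finset (Fin n) → Bool) (A B : Finset (Fin n))
    (h : mm74 g A B = ∅) : ∀ (N : ℕ) (Q : Finset (Fin n)), Q.card ≤ N → Disjoint Q (A ∪ B) →
      g (A ∪ Q) = g A := by
  intro N
  induction N with
  | zero =>
    intro Q hQ _
    have h1 : Q = ∅ := by
      rw [← Finset.card_eq_zero]
      omega
    rw [h1, Finset.union_empty]
  | succ N ih =>
    intro Q hQ hd
    by_cases hne : Q.Nonempty
    · have h1 : ce g A Q = 0 := by
        by_contra h2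
        have h3 : Q ∈ mm74 g A B := mem_mm74.2 ⟨hne, hd, h2⟩
        rw [h] at h3
        exact absurd h3 (Finset.notMem_empty _)
      rw [ce_eq74 g A hne] at h1
      rw [Finset.sum_eq_single Q] at h1
      · rw [Finset.sdiff_self, Finset.card_empty, pow_zero, one_mul] at h1
        by_contra h4
        cases h5 : g (A ∪ Q) <;> cases h6 : g A <;> simp_all
      · intro R hR hne'
        have hR' := Finset.mem_powerset.1 hR
        have h2 : R.card < Q.card := Finset.card_lt_card (Finset.ssubset_iff_subset_ne.2 ⟨hR', hne'⟩)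
        rw [ih R (by omega) (Finset.disjoint_of_subset_left hR' hd), sub_self, mul_zero]
      · intro h2
        exact absurd (Finset.mem_powerset_self Q) h2
    · rw [Finset.not_nonempty_iff_eq_empty.1 hne, Finset.union_empty]

private theorem const74 (g : Finset (Fin n) → Bool) (A B : Finset (Fin n))
    (h : mm74 g A B = ∅) (Z : Finset (Fin n)) (hA : A ⊆ Z) (hB : Disjoint Z B) : g Z = g A := by
  have h1 : A ∪ (Z \ A) = Z := Finset.union_sdiff_of_subset hA
  have h2 := const_aux74 g A B h _ (Z \ A) le_rfl (by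
    rw [Finset.disjoint_union_right]
    exact ⟨Finset.sdiff_disjoint, Finset.disjoint_of_subset_left Finset.sdiff_subset hB⟩)
  rwa [h1] at h2

private theorem ce_insert74 (g : Finset (Fin n) → Bool) (A S : Finset (Fin n)) (i : Fin n)
    (hi : i ∉ S) : ce g (insert i A) S = ce g A S + ce g A (insert i S) := by
  have h1 : ce g A (insert i S) = -ce g A S + ce g (insert i A) S := by
    rw [ce, Finset.sum_powerset_insert hi, ce, ce, ← Finset.sum_neg_distrib]
    congr 1
    · refine Finset.sum_congr rfl fun Q hQ => ?_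
      have hQ' := Finset.mem_powerset.1 hQ
      have h2 : insert i S \ Q = insert i (S \ Q) :=
        Finset.insert_sdiff_of_notMem _ fun h => hi (hQ' h)
      rw [h2, Finset.card_insert_of_notMem fun h => hi (Finset.sdiff_subset h), pow_succ]
      ring
    · refine Finset.sum_congr rfl fun Q hQ => ?_
      have h2 : insert i S \ insert i Q = S \ Q := by
        rw [Finset.insert_sdiff_insert, Finset.sdiff_insert_of_notMem hi]
      have h3 : A ∪ insert i Q = insert i A ∪ Q := by
        rw [Finset.union_insert, Finset.insert_union]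
      rw [h2, h3]
  rw [h1]
  ring

private theorem mm_insert_le74 (g : Finset (Fin n) → Bool) (A B : Finset (Fin n)) (i : Fin n)
    (hi : i ∉ A ∪ B) : (mm74 g (insert i A) B).card ≤ (mm74 g A B).card := by
  have key : ∀ S ∈ mm74 g (insert i A) B, i ∉ S ∧ S.Nonempty ∧ Disjoint S (A ∪ B) ∧
      ce g (insert i A) S ≠ 0 := by
    intro S hS
    obtain ⟨h1, h2, h3⟩ := mem_mm74.1 hS
    rw [Finset.insert_union, Finset.disjoint_insert_right] at h2
    exact ⟨h2.1, h1, h2.2, h3⟩
  refine Finset.card_le_card_of_injOn (fun S => if ce g A S ≠ 0 then S else insert i S) ?_ ?_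
  · intro S hS
    obtain ⟨h1, h2, h3, h4⟩ := key S hS
    show (if ce g A S ≠ 0 then S else insert i S) ∈ mm74 g A B
    split_ifs with h
    · exact mem_mm74.2 ⟨h2, h3, h⟩
    · refine mem_mm74.2 ⟨Finset.insert_nonempty _ _, ?_, ?_⟩
      · rw [Finset.disjoint_insert_left]
        exact ⟨hi, h3⟩
      · intro h5
        apply h4
        rw [ce_insert74 g A S i h1, h5, add_zero]
        exact not_not.1 h
  · have h6 : ∀ S ∈ mm74 g (insert i A) B,
        (if ce g A S ≠ 0 then S else insert i S).erase i = S := by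
      intro S hS
      obtain ⟨h1, -⟩ := key S hS
      split_ifs
      · exact Finset.erase_eq_of_notMem h1
      · exact Finset.erase_insert h1
    intro S hS T hT hST
    rw [← h6 S hS, ← h6 T hT]
    exact congrArg (fun s => Finset.erase s i) hST

private theorem exists_elt74 (g : Finset (Fin n) → Bool) (K : ℕ) (A B : Finset (Fin n))
    (hK : ¬ Spread g A K) (hne : mm74 g A B ≠ ∅) : ∃ i, i ∉ A ∪ B ∧
      K * (mm74 g A (insert i B)).card ≤ (K - 1) * (mm74 g A B).card := by
  classical
  have hS : ∀ o : {S // S ∈ mm74 g A B}, ∃ Q, Q ⊆ o.1 ∧ g (A ∪ Q) ≠ g A := fun o => by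
    obtain ⟨h1, _, h3⟩ := mem_mm74.1 o.2
    exact exists_sens74 g A h1 h3
  choose Q hQ1 hQ2 using hS
  have hK' : ¬ ∀ i, K * (univ.filter fun o => i ∈ Q o).card <
      Fintype.card {S // S ∈ mm74 g A B} := by
    intro h
    apply hK
    obtain ⟨S, hS⟩ := Finset.nonempty_iff_ne_empty.2 hne
    refine ⟨{S // S ∈ mm74 g A B}, inferInstance, ⟨⟨S, hS⟩⟩, Q, fun o => ⟨?_, hQ2 o⟩, fun i => h i⟩
    obtain ⟨_, h2, _⟩ := mem_mm74.1 o.2
    rw [Finset.disjoint_union_right] at h2
    exact Finset.disjoint_of_subset_left (hQ1 o) h2.1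
  push Not at hK'
  obtain ⟨i, hi⟩ := hK'
  rw [Fintype.card_coe] at hi
  have h1 : (univ.filter fun o => i ∈ Q o).card ≤ ((mm74 g A B).filter fun S => i ∈ S).card := by
    refine Finset.card_le_card_of_injOn (fun o => o.1) ?_ ?_
    · intro o ho
      have ho' := (Finset.mem_filter.1 ho).2
      exact Finset.mem_filter.2 ⟨o.2, hQ1 o ho'⟩
    · intro o _ o' _ h
      exact Subtype.ext h
  have h2 : ((mm74 g A B).filter fun S => i ∈ S).card +
      ((mm74 g A B).filter fun S => ¬ i ∈ S).card = (mm74 g A B).card :=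
    Finset.card_filter_add_card_filter_not _
  have h3 : mm74 g A (insert i B) = (mm74 g A B).filter fun S => ¬ i ∈ S := by
    ext S
    rw [Finset.mem_filter, mem_mm74, mem_mm74, Finset.union_insert, Finset.disjoint_insert_right]
    tauto
  have h4 : (mm74 g A B).card ≤ K * ((mm74 g A B).filter fun S => i ∈ S).card :=
    hi.trans (Nat.mul_le_mul_left _ h1)
  have h5 : 0 < (mm74 g A B).card := Finset.card_pos.2 (Finset.nonempty_iff_ne_empty.2 hne)
  refine ⟨i, ?_, ?_⟩
  · have h6 : 0 < ((mm74 g A B).filter fun S => i ∈ S).card := by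
      by_contra h7
      have h8 : ((mm74 g A B).filter fun S => i ∈ S).card = 0 := by omega
      rw [h8, mul_zero] at h4
      omega
    obtain ⟨S, hS⟩ := Finset.card_pos.1 h6
    obtain ⟨hS1, hS2⟩ := Finset.mem_filter.1 hS
    exact Finset.disjoint_left.1 (mem_mm74.1 hS1).2.1 hS2
  · rw [h3]
    set a := ((mm74 g A B).filter fun S => i ∈ S).card
    set b := ((mm74 g A B).filter fun S => ¬ i ∈ S).card
    rw [← h2] at h4 ⊢
    have h7 : 0 < K := by
      by_contra h8
      have h9 : K = 0 := by omega
      rw [h9, zero_mul] at h4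
      omega
    obtain ⟨L, rfl⟩ : ∃ L, K = L + 1 := ⟨K - 1, by omega⟩
    rw [Nat.add_sub_cancel]
    nlinarith

/-- the elements of a phase -/
private def Phase74 (g : Finset (Fin n) → Bool) (K m0 : ℕ) (B : Finset (Fin n)) :
    Finset (Fin n) → List (Fin n) → Prop
  | A, [] => mm74 g A B = ∅
  | A, i :: l => K * (mm74 g A (insert i B)).card ≤ (K - 1) * m0 ∧ Phase74 g K m0 B (insert i A) l

private theorem exists_phase74 (g : Finset (Fin n) → Bool) (K m0 : ℕ) (B : Finset (Fin n))
    (hK : ∀ A : Finset (Fin n), ¬ Spread g A K) : ∀ (N : ℕ) (A : Finset (Fin n)),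
      (A ∪ B)ᶜ.card ≤ N → (mm74 g A B).card ≤ m0 →
        ∃ l : List (Fin n), l.length ≤ N ∧ Phase74 g K m0 B A l := by
  intro N
  induction N with
  | zero =>
    intro A hA _
    refine ⟨[], le_rfl, ?_⟩
    show mm74 g A B = ∅
    rw [Finset.eq_empty_iff_forall_notMem]
    intro S hS
    obtain ⟨⟨j, hj⟩, h2, _⟩ := mem_mm74.1 hS
    have h3 : j ∈ (A ∪ B)ᶜ := Finset.mem_compl.2 (Finset.disjoint_left.1 h2 hj)
    have h4 := Finset.card_pos.2 ⟨j, h3⟩
    omega
  | succ N ih =>
    intro A hA hm
    by_cases hne : mm74 g A B = ∅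
    · exact ⟨[], Nat.zero_le _, hne⟩
    · obtain ⟨i, hi, hic⟩ := exists_elt74 g K A B (hK A) hne
      obtain ⟨l, hl, hP⟩ := ih (insert i A) (by
        have h1 : (insert i A ∪ B)ᶜ ⊂ (A ∪ B)ᶜ := by
          rw [Finset.insert_union]
          refine (Finset.ssubset_iff_of_subset ?_).2 ⟨i, Finset.mem_compl.2 hi, ?_⟩
          · exact Finset.compl_subset_compl.2 (Finset.subset_insert _ _)
          · rw [Finset.mem_compl, not_not]
            exact Finset.mem_insert_self _ _
        have h2 := Finset.card_lt_card h1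
        omega) ((mm_insert_le74 g A B i hi).trans hm)
      exact ⟨i :: l, by simpa using hl, hic.trans (Nat.mul_le_mul_left _ hm), hP⟩

/-- the common ones -/
private def zz74 (x y : Fin n → Bool) : Finset (Fin n) := univ.filter fun i => (x i && y i) = true

/-- the position of the first element of the list which is not in the set -/
private def idx74 : List (Fin n) → (Fin n → Bool) → ℕ
  | [], _ => 0
  | i :: l, x => if x i = true then idx74 l x + 1 else 0

private theorem idx_le74 (l : List (Fin n)) (x : Fin n → Bool) : idx74 l x ≤ l.length := by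
  induction l with
  | nil => exact le_rfl
  | cons i l ih =>
    rw [idx74]
    split_ifs
    · simpa using ih
    · exact Nat.zero_le _

private theorem phase_family74 (g : Finset (Fin n) → Bool) (K m0 c : ℕ) (B : Finset (Fin n))
    (H : ∀ A' B' : Finset (Fin n), K * (mm74 g A' B').card ≤ (K - 1) * m0 →
      ∃ P : DetProtocol (Fin n → Bool) (Fin n → Bool), P.cost ≤ c ∧ ∀ x y, A' ⊆ zz74 x y →
        Disjoint (zz74 x y) B' → P.eval x y = g (zz74 x y)) :
    ∀ (l : List (Fin n)) (A : Finset (Fin n)), Phase74 g K m0 B A l →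
      ∃ P : ℕ → DetProtocol (Fin n → Bool) (Fin n → Bool), (∀ j, (P j).cost ≤ c) ∧
        ∀ x y, A ⊆ zz74 x y → Disjoint (zz74 x y) B →
          (P (min (idx74 l x) (idx74 l y))).eval x y = g (zz74 x y) := by
  intro l
  induction l with
  | nil =>
    intro A hA
    refine ⟨fun _ => .output (g A), fun _ => Nat.zero_le _, fun x y h1 h2 => ?_⟩
    exact (const74 g A B hA _ h1 h2).symm
  | cons i l ih =>
    rintro A ⟨hA1, hA2⟩
    obtain ⟨P0, hc0, hP0⟩ := H A (insert i B) hA1
    obtain ⟨P, hc, hP⟩ := ih (insert i A) hA2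
    refine ⟨fun j => Nat.casesOn j P0 P, fun j => ?_, fun x y h1 h2 => ?_⟩
    · cases j with
      | zero => exact hc0
      | succ j => exact hc j
    · by_cases hx : x i = true
      · by_cases hy : y i = true
        · have h3 : min (idx74 (i :: l) x) (idx74 (i :: l) y) =
              min (idx74 l x) (idx74 l y) + 1 := by
            rw [idx74, idx74, if_pos hx, if_pos hy]
            omega
          rw [h3]
          refine hP x y ?_ h2
          rw [Finset.insert_subset_iff]
          refine ⟨?_, h1⟩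
          rw [zz74, Finset.mem_filter]
          simp [hx, hy]
        · have h3 : min (idx74 (i :: l) x) (idx74 (i :: l) y) = 0 := by
            rw [idx74, idx74, if_pos hx, if_neg hy]
            omega
          rw [h3]
          refine hP0 x y h1 ?_
          rw [Finset.disjoint_insert_right]
          refine ⟨?_, h2⟩
          rw [zz74, Finset.mem_filter]
          simp [hy]
      · have h3 : min (idx74 (i :: l) x) (idx74 (i :: l) y) = 0 := by
          rw [idx74, if_neg hx]
          omega
        rw [h3]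
        refine hP0 x y h1 ?_
        rw [Finset.disjoint_insert_right]
        refine ⟨?_, h2⟩
        rw [zz74, Finset.mem_filter]
        simp [hx]

private theorem protocol74 (g : Finset (Fin n) → Bool) (K : ℕ) (hK1 : 1 ≤ K)
    (hK : ∀ A : Finset (Fin n), ¬ Spread g A K) : ∀ (t : ℕ) (A B : Finset (Fin n)),
      (mm74 g A B).card * (K - 1) ^ t < K ^ t →
        ∃ P : DetProtocol (Fin n → Bool) (Fin n → Bool), P.cost ≤ t * (2 * Nat.clog 2 (n + 1)) ∧
          ∀ x y, A ⊆ zz74 x y → Disjoint (zz74 x y) B → P.eval x y = g (zz74 x y) := by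
  intro t
  induction t with
  | zero =>
    intro A B h
    rw [pow_zero, pow_zero, mul_one, Nat.lt_one_iff, Finset.card_eq_zero] at h
    exact ⟨.output (g A), Nat.zero_le _, fun x y h1 h2 => (const74 g A B h _ h1 h2).symm⟩
  | succ t ih =>
    intro A B h
    set k := Nat.clog 2 (n + 1) with hk
    have hk' : n + 1 ≤ 2 ^ k := Nat.le_pow_clog (by norm_num) _
    obtain ⟨l, hl, hP⟩ := exists_phase74 g K (mm74 g A B).card B hK n A
      ((Finset.card_le_univ _).trans (by simp)) le_rfl
    obtain ⟨P, hc, hP'⟩ := phase_family74 g K (mm74 g A B).card (t * (2 * k)) B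
      (fun A' B' h' => ih A' B' (by
        have h1 : K * ((mm74 g A' B').card * (K - 1) ^ t) < K * K ^ t := by
          calc K * ((mm74 g A' B').card * (K - 1) ^ t)
              = (K * (mm74 g A' B').card) * (K - 1) ^ t := by ring
            _ ≤ ((K - 1) * (mm74 g A B).card) * (K - 1) ^ t := Nat.mul_le_mul_right _ h'
            _ = (mm74 g A B).card * (K - 1) ^ (t + 1) := by ring
            _ < K ^ (t + 1) := h
            _ = K * K ^ t := by ring
        exact Nat.lt_of_mul_lt_mul_left h1)) l A hP
    have hidx : ∀ x : Fin n → Bool, idx74 l x < 2 ^ k := fun x => by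
      have := idx_le74 l x
      omega
    have hB : ∀ j : ℕ, ∃ Q : DetProtocol (Fin n → Bool) (Fin n → Bool),
        Q.cost ≤ k + t * (2 * k) ∧ ∀ x y, Q.eval x y = (P (min j (idx74 l y))).eval x y :=
      fun j => send_bob74 _ k (idx74 l) hidx (fun j' => P (min j j')) fun j' => hc _
    choose Q hQc hQ using hB
    obtain ⟨R, hRc, hR⟩ := send_alice74 _ k (idx74 l) hidx Q hQc
    refine ⟨R, hRc.trans (le_of_eq (by ring)), fun x y h1 h2 => ?_⟩
    rw [hR, hQ]
    exact hP' x y h1 h2

end

theorem det_bound {n : ℕ} (f : (Fin n → Bool) → Bool) (K : ℕ) (hK1 : 1 ≤ K)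
    (hK : ∀ A : Finset (Fin n), ¬ Spread (ev f) A K) (t : ℕ)
    (ht : (mons (ev f)).card * (K - 1) ^ t < K ^ t) :
    D (andComp f) ≤ t * (2 * Nat.clog 2 (n + 1)) := by
  have h1 : (mm74 (ev f) ∅ ∅).card ≤ (mons (ev f)).card := by
    apply Finset.card_le_card
    intro S hS
    rw [mons, Finset.mem_filter]
    exact ⟨Finset.mem_univ _, (mem_mm74.1 hS).2.2⟩
  obtain ⟨P, hc, hP⟩ := protocol74 (ev f) K hK1 hK t ∅ ∅
    ((Nat.mul_le_mul_right _ h1).trans_lt ht)
  refine le_trans (Nat.sInf_le ⟨P, fun x y => ?_, rfl⟩) hc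
  rw [hP x y (Finset.empty_subset _) (Finset.disjoint_empty_right _), ev, andComp]
  congr 1
  funext i
  rw [ind, zz74]
  simp

end Pool.Agent.Helper17.AQ
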