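import Pool.Agent.Helper17.AQ.Defs

/-! AQ4: the dual polynomial (explicit). R = {0, 1} and c i^2 (1 <= i <= D), all <= m (c >= 28, as gam <= 1). phi j = 1 / prod_{i in R, i <> j} (j - i)
(j in R), 0 otherwise: sum_j phi j p(j) = 0 for polynomials p of degree <= D = |R| - 2 (divided differences; Mathlib Lagrange).
psi z = s phi (wt z) / choose m (wt z) / norm, s = (-1)^D. For S: chi S = sum_{S' in S} (-2)^|S'| z_S', and the sum of z_S' over
wt z = j, divided by choose m j, is choose j |S'| / choose m |S'|, a polynomial in j of degree |S'| (Nat.choose_mul).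
Sizes: w0 = |phi 0| = 1 / prod c i^2, w1 = |phi 1| = 1 / prod (c i^2 - 1), w0 <= w1 <= 14/13 w0, opposite signs,
w_k = |phi (c k^2)| = w0 prod_{i <> k} i^2 / |k^2 - i^2| / (c k^2 - 1) <= 2 w0 / (c k^2 - 1) <= 4 w0 / (c k^2), as
prod_{i <> k} |k^2 - i^2| = (D-k)! (D+k)! / (2 k^2) >= (D!)^2 / (2 k^2); sum_k w_k <= 8 w0 / c <= (2/7) gam w0.
So s sum phi be >= w1 (e + gam) - w0 e - (2/7) gam w0 >= (2/3) gam w0 and the l1 norm is <= (8/3) w0: ratio >= gam / 4.
(e >= 0 because be z >= 0 for z = 0; be is averaged over wt z = j first. m >= 1: there are z with wt z = 1.) -/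

set_option autoImplicit false

namespace Pool.Agent.Helper17.AQ

open Finset Pool.Agent.Results.MP_799357_lc.DetVsQuantum Polynomial

/-! ### products -/

private theorem prodA (k n : ℕ) (h : n < k) :
    (∏ i ∈ Icc 1 n, ((k : ℝ) ^ 2 - (i : ℝ) ^ 2)) * k * ((k - n - 1).factorial : ℝ) = ((k + n).factorial : ℝ) := by
  induction n with
  | zero =>
    obtain ⟨k', rfl⟩ : ∃ k', k = k' + 1 := ⟨k - 1, by omega⟩
    simp [Nat.factorial_succ]
  | succ n ih =>
    have h1 := ih (by omega)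
    rw [prod_Icc_succ_top (by omega)]
    obtain ⟨t, ht⟩ : ∃ t, k - n - 1 = t + 1 := ⟨k - n - 2, by omega⟩
    have h2 : k - (n + 1) - 1 = t := by omega
    have h3 : (k : ℝ) = n + 1 + (t + 1) := by
      have : k = n + 1 + (t + 1) := by omega
      exact_mod_cast this
    rw [ht, Nat.factorial_succ] at h1
    rw [h2, show k + (n + 1) = (k + n) + 1 by ring, Nat.factorial_succ]
    push_cast at h1 ⊢
    rw [← h1]
    have h4 : (k : ℝ) ^ 2 - ((n : ℝ) + 1) ^ 2 = ((t : ℝ) + 1) * (k + n + 1) := by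
      rw [h3]; ring
    rw [h4]
    ring

private theorem prodB (k D : ℕ) (hk : 1 ≤ k) (hD : k ≤ D) :
    (∏ i ∈ (Icc 1 D).erase k, |(k : ℝ) ^ 2 - (i : ℝ) ^ 2|) * (2 * (k : ℝ) ^ 2) =
      ((D - k).factorial : ℝ) * ((D + k).factorial : ℝ) := by
  induction D, hD using Nat.le_induction with
  | base =>
    have h1 : (Icc 1 k).erase k = Icc 1 (k - 1) := by
      ext i
      simp only [mem_erase, mem_Icc]
      omega
    have h2 := prodA k (k - 1) (by omega)
    have h3 : k - (k - 1) - 1 = 0 := by omega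
    rw [h3, Nat.factorial_zero, Nat.cast_one, mul_one] at h2
    have h4 : ∏ i ∈ Icc 1 (k - 1), |(k : ℝ) ^ 2 - (i : ℝ) ^ 2| = ∏ i ∈ Icc 1 (k - 1), ((k : ℝ) ^ 2 - (i : ℝ) ^ 2) := by
      refine prod_congr rfl fun i hi => abs_of_nonneg ?_
      rw [mem_Icc] at hi
      have : (i : ℝ) ≤ k := by exact_mod_cast (by omega : i ≤ k)
      have h0 : (0 : ℝ) ≤ i := Nat.cast_nonneg i
      nlinarith
    rw [h1, h4, Nat.sub_self, Nat.factorial_zero, Nat.cast_one, one_mul]
    have h5 : k + k = (k + (k - 1)) + 1 := by omega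
    rw [h5, Nat.factorial_succ]
    push_cast
    rw [← h2]
    have h6 : ((k - 1 : ℕ) : ℝ) = k - 1 := by
      rw [Nat.cast_sub hk, Nat.cast_one]
    rw [h6]
    ring
  | succ D hD ih =>
    have h1 : (Icc 1 (D + 1)).erase k = insert (D + 1) ((Icc 1 D).erase k) := by
      ext i
      simp only [mem_erase, mem_Icc, mem_insert]
      omega
    have h2 : D + 1 ∉ (Icc 1 D).erase k := by
      simp only [mem_erase, mem_Icc]
      omega
    rw [h1, prod_insert h2]
    have h3 : D + 1 - k = (D - k) + 1 := by omega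
    have h4 : D + 1 + k = (D + k) + 1 := by omega
    rw [h3, h4, Nat.factorial_succ, Nat.factorial_succ]
    have h5 : ((D - k : ℕ) : ℝ) = D - k := by rw [Nat.cast_sub hD]
    have h6 : |(k : ℝ) ^ 2 - ((D + 1 : ℕ) : ℝ) ^ 2| = ((D : ℝ) + 1 - k) * (D + 1 + k) := by
      have hkD : (k : ℝ) ≤ D := by exact_mod_cast hD
      have h0 : (0 : ℝ) ≤ k := Nat.cast_nonneg k
      push_cast
      rw [abs_of_nonpos (by nlinarith)]
      ring
    rw [h6]
    push_cast
    rw [h5]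
    linear_combination ((D : ℝ) + 1 - k) * (D + 1 + k) * ih

private theorem facC (D k : ℕ) (h : k ≤ D) : (D.factorial : ℝ) ^ 2 ≤ ((D - k).factorial : ℝ) * ((D + k).factorial : ℝ) := by
  induction k with
  | zero => simp [sq]
  | succ k ih =>
    have h1 := ih (by omega)
    obtain ⟨t, ht⟩ : ∃ t, D - k = t + 1 := ⟨D - k - 1, by omega⟩
    have h2 : D - (k + 1) = t := by omega
    rw [ht, Nat.factorial_succ] at h1
    rw [h2, show D + (k + 1) = (D + k) + 1 by ring, Nat.factorial_succ]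
    push_cast at h1 ⊢
    have h3 : (t : ℝ) + 1 ≤ D + k + 1 := by
      have : t + 1 ≤ D + k + 1 := by omega
      exact_mod_cast this
    have h4 : (0 : ℝ) ≤ (t.factorial : ℝ) * ((D + k).factorial : ℝ) := by positivity
    nlinarith

private theorem prodE (k D : ℕ) (hk : 1 ≤ k) (hD : k ≤ D) :
    ∏ i ∈ (Icc 1 D).erase k, (i : ℝ) ^ 2 ≤ 2 * ∏ i ∈ (Icc 1 D).erase k, |(k : ℝ) ^ 2 - (i : ℝ) ^ 2| := by
  have h1 := prodB k D hk hD
  have h2 : (∏ i ∈ (Icc 1 D).erase k, (i : ℝ) ^ 2) * (k : ℝ) ^ 2 = (D.factorial : ℝ) ^ 2 := by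
    rw [prod_erase_mul (Icc 1 D) (fun i : ℕ => (i : ℝ) ^ 2) (mem_Icc.2 ⟨hk, hD⟩), prod_pow]
    congr 1
    have h8 : Icc 1 D = Ico 1 (D + 1) := by ext i; simp only [mem_Icc, mem_Ico]; omega
    rw [← Nat.cast_prod, h8, prod_Ico_id_eq_factorial]
  have h3 := facC D k hD
  have hk0 : (0 : ℝ) < (k : ℝ) ^ 2 := by positivity
  rw [← h2, ← h1] at h3
  nlinarith

private theorem sumF (D : ℕ) : ∑ i ∈ Icc 1 D, 1 / (i : ℝ) ^ 2 ≤ 2 - 1 / (D : ℝ) := by
  induction D with
  | zero => simp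
  | succ D ih =>
    rw [sum_Icc_succ_top (by omega)]
    rcases Nat.eq_zero_or_pos D with rfl | hD
    · norm_num
    · have hD0 : (0 : ℝ) < D := by exact_mod_cast hD
      have h1 : 1 / ((D + 1 : ℕ) : ℝ) ^ 2 ≤ 1 / (D : ℝ) - 1 / ((D + 1 : ℕ) : ℝ) := by
        push_cast
        rw [div_sub_div _ _ hD0.ne' (by positivity), div_le_div_iff₀ (by positivity) (by positivity)]
        nlinarith
      linarith

private theorem sumF' (D : ℕ) : ∑ i ∈ Icc 1 D, 1 / (i : ℝ) ^ 2 ≤ 2 := by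
  have h1 := sumF D
  have h2 : (0 : ℝ) ≤ 1 / (D : ℝ) := by positivity
  linarith

private theorem prodG {ι : Type} (s : Finset ι) (x : ι → ℝ) (h0 : ∀ i ∈ s, 0 ≤ x i) (h1 : ∀ i ∈ s, x i ≤ 1) :
    1 - ∑ i ∈ s, x i ≤ ∏ i ∈ s, (1 - x i) ∧ ∏ i ∈ s, (1 - x i) ≤ 1 ∧ 0 ≤ ∏ i ∈ s, (1 - x i) := by
  classical
  induction s using Finset.induction_on with
  | empty => simp
  | insert a s ha ih =>
    obtain ⟨h2, h3, h4⟩ := ih (fun i hi => h0 i (mem_insert_of_mem hi)) (fun i hi => h1 i (mem_insert_of_mem hi))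
    have h5 := h0 a (mem_insert_self a s)
    have h6 := h1 a (mem_insert_self a s)
    rw [sum_insert ha, prod_insert ha]
    refine ⟨?_, ?_, ?_⟩
    · nlinarith
    · nlinarith
    · exact mul_nonneg (by linarith) h4

/-! ### the levels of the cube -/

private def lv (m j : ℕ) : Finset (Fin m → Bool) := univ.filter fun z => wt z = j

private theorem wt_le {m : ℕ} (z : Fin m → Bool) : wt z ≤ m := by
  unfold wt
  exact (card_filter_le _ _).trans (by simp)

private theorem sumLv {m : ℕ} (g : (Fin m → Bool) → ℝ) :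
    ∑ z, g z = ∑ j ∈ range (m + 1), ∑ z ∈ lv m j, g z := by
  have h := sum_fiberwise_of_maps_to (s := (univ : Finset (Fin m → Bool))) (t := range (m + 1)) (g := wt)
    (fun z _ => mem_range.2 (Nat.lt_succ_of_le (wt_le z))) g
  rw [← h]
  rfl

private theorem cnt {m : ℕ} (S : Finset (Fin m)) (j : ℕ) :
    (((lv m j).filter fun z => ∀ i ∈ S, z i = true).card : ℝ) * (m.choose S.card : ℝ) =
      (m.choose j : ℝ) * (j.choose S.card : ℝ) := by
  rcases le_or_gt S.card j with hs | hs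
  · have h1 : ((lv m j).filter fun z => ∀ i ∈ S, z i = true).card = (powersetCard (j - S.card) (univ \ S)).card := by
      refine card_nbij' (fun z => (univ.filter fun i => z i = true) \ S) (fun T i => decide (i ∈ S ∨ i ∈ T)) ?_ ?_ ?_ ?_
      · intro z hz
        rw [mem_coe, mem_filter] at hz
        obtain ⟨hz1, hz2⟩ := hz
        have hz3 : wt z = j := (mem_filter.1 hz1).2
        rw [mem_coe, mem_powersetCard]
        refine ⟨sdiff_subset_sdiff (subset_univ _) le_rfl, ?_⟩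
        rw [card_sdiff_of_subset]
        · rw [← hz3]; rfl
        · intro i hi
          exact mem_filter.2 ⟨mem_univ i, hz2 i hi⟩
      · intro T hT
        rw [mem_coe, mem_powersetCard] at hT
        obtain ⟨hT1, hT2⟩ := hT
        rw [mem_coe, mem_filter]
        refine ⟨mem_filter.2 ⟨mem_univ _, ?_⟩, fun i hi => by simp [hi]⟩
        have h2 : (univ.filter fun i => decide (i ∈ S ∨ i ∈ T) = true) = S ∪ T := by
          ext i
          simp
        unfold wt
        rw [h2, card_union_of_disjoint, hT2]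
        · omega
        · rw [disjoint_left]
          intro i hi hi2
          have := hT1 hi2
          rw [mem_sdiff] at this
          exact this.2 hi
      · intro z hz
        rw [mem_coe, mem_filter] at hz
        funext i
        simp only [mem_sdiff, mem_filter, mem_univ, true_and]
        by_cases h : i ∈ S
        · simp [h, hz.2 i h]
        · simp [h]
      · intro T hT
        rw [mem_coe, mem_powersetCard] at hT
        ext i
        simp only [mem_sdiff, mem_filter, mem_univ, true_and, decide_eq_true_eq]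
        constructor
        · rintro ⟨h | h, h2⟩
          · exact absurd h h2
          · exact h
        · intro h
          refine ⟨Or.inr h, ?_⟩
          have := hT.1 h
          rw [mem_sdiff] at this
          exact this.2
    rw [h1, card_powersetCard, card_sdiff_of_subset (subset_univ _), card_univ, Fintype.card_fin]
    have h3 := Nat.choose_mul (n := m) (k := j) (s := S.card) hs
    have h4 : ((m.choose j * j.choose S.card : ℕ) : ℝ) = ((m.choose S.card * (m - S.card).choose (j - S.card) : ℕ) : ℝ) := by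
      rw [h3]
    push_cast at h4
    linarith
  · have h1 : (lv m j).filter (fun z => ∀ i ∈ S, z i = true) = ∅ := by
      rw [filter_eq_empty_iff]
      intro z hz h
      have hz3 : wt z = j := (mem_filter.1 hz).2
      have h2 : S.card ≤ wt z := card_le_card fun i hi => mem_filter.2 ⟨mem_univ i, h i hi⟩
      omega
    rw [h1, card_empty, Nat.choose_eq_zero_of_lt hs]
    simp

private theorem card_lv (m j : ℕ) : ((lv m j).card : ℝ) = (m.choose j : ℝ) := by
  have h := cnt (m := m) ∅ j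
  simpa using h

private noncomputable def PP {m : ℕ} (S : Finset (Fin m)) : ℝ[X] :=
  ∑ t ∈ S.powerset, C ((-2 : ℝ) ^ t.card / ((m.choose t.card : ℝ) * (t.card.factorial : ℝ))) * descPochhammer ℝ t.card

private theorem PP_deg {m : ℕ} (S : Finset (Fin m)) : (PP S).natDegree ≤ S.card := by
  unfold PP
  refine natDegree_sum_le_of_forall_le _ _ fun t ht => ?_
  refine (natDegree_C_mul_le _ _).trans ?_
  rw [descPochhammer_natDegree]
  exact card_le_card (mem_powerset.1 ht)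

private theorem chi_eq {m : ℕ} (S : Finset (Fin m)) (z : Fin m → Bool) :
    chi S z = ∑ t ∈ S.powerset, (-2 : ℝ) ^ t.card * (if ∀ i ∈ t, z i = true then 1 else 0) := by
  have h1 : chi S z = ∏ i ∈ S, (1 + (-2 : ℝ) * bv (z i)) := by
    unfold chi bv
    refine prod_congr rfl fun i _ => ?_
    cases z i <;> norm_num
  rw [h1, prod_one_add]
  refine sum_congr rfl fun t _ => ?_
  rw [prod_mul_distrib, prod_const]
  congr 1
  by_cases h : ∀ i ∈ t, z i = true
  · rw [if_pos h]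
    exact prod_eq_one fun i hi => by simp [bv, h i hi]
  · rw [if_neg h]
    push Not at h
    obtain ⟨i, hi, hz⟩ := h
    exact prod_eq_zero hi (by simp [bv, hz])

private theorem levChi {m : ℕ} (S : Finset (Fin m)) (j : ℕ) :
    ∑ z ∈ lv m j, chi S z = (m.choose j : ℝ) * (PP S).eval (j : ℝ) := by
  have h1 : ∑ z ∈ lv m j, chi S z =
      ∑ t ∈ S.powerset, (-2 : ℝ) ^ t.card * (((lv m j).filter fun z => ∀ i ∈ t, z i = true).card : ℝ) := by
    simp only [chi_eq]
    rw [sum_comm]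
    refine sum_congr rfl fun t _ => ?_
    rw [← mul_sum, sum_boole]
  rw [h1]
  unfold PP
  rw [eval_finsetSum, mul_sum]
  refine sum_congr rfl fun t ht => ?_
  have h2 := cnt t j
  have h3 : t.card ≤ m := by
    have := card_le_univ t
    simpa using this
  have h4 : (0 : ℝ) < (m.choose t.card : ℝ) := by exact_mod_cast Nat.choose_pos h3
  have h5 : (0 : ℝ) < (t.card.factorial : ℝ) := by exact_mod_cast Nat.factorial_pos _
  rw [eval_mul, eval_C, descPochhammer_eval_eq_descFactorial, Nat.descFactorial_eq_factorial_mul_choose]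
  push_cast
  field_simp
  linear_combination h2

/-! ### the nodes -/

private def RR (c D : ℕ) : Finset ℕ := insert 0 (insert 1 ((Icc 1 D).image fun i => c * i ^ 2))

private noncomputable def ph (c D j : ℕ) : ℝ :=
  if j ∈ RR c D then 1 / ∏ i ∈ (RR c D).erase j, ((j : ℝ) - (i : ℝ)) else 0

private theorem ge2 {c D i : ℕ} (hc : 2 ≤ c) (hi : i ∈ Icc 1 D) : 2 ≤ c * i ^ 2 := by
  rw [mem_Icc] at hi
  have : 1 ≤ i ^ 2 := Nat.one_le_pow _ _ hi.1
  nlinarith

private theorem injI {c : ℕ} (hc : 2 ≤ c) : Function.Injective (fun i : ℕ => c * i ^ 2) := by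
  intro a b h
  have h1 : a ^ 2 = b ^ 2 := Nat.eq_of_mul_eq_mul_left (by omega) h
  exact Nat.pow_left_injective (by norm_num) h1

private theorem not1 {c D : ℕ} (hc : 2 ≤ c) : 1 ∉ (Icc 1 D).image fun i => c * i ^ 2 := by
  intro h
  obtain ⟨i, hi, h1⟩ := mem_image.1 h
  have := ge2 hc hi
  omega

private theorem not0 {c D : ℕ} (hc : 2 ≤ c) : 0 ∉ insert 1 ((Icc 1 D).image fun i => c * i ^ 2) := by
  intro h
  rcases mem_insert.1 h with h | h
  · omega
  · obtain ⟨i, hi, h1⟩ := mem_image.1 h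
    have := ge2 hc hi
    omega

private theorem sumR {c D : ℕ} (hc : 2 ≤ c) (F : ℕ → ℝ) :
    ∑ j ∈ RR c D, F j = F 0 + (F 1 + ∑ k ∈ Icc 1 D, F (c * k ^ 2)) := by
  unfold RR
  rw [sum_insert (not0 hc), sum_insert (not1 hc), sum_image fun a _ b _ h => injI hc h]

private theorem cardR {c D : ℕ} (hc : 2 ≤ c) : (RR c D).card = D + 2 := by
  unfold RR
  rw [card_insert_of_notMem (not0 hc), card_insert_of_notMem (not1 hc), card_image_of_injective _ (injI hc)]
  simp

private theorem mem0 (c D : ℕ) : 0 ∈ RR c D := mem_insert_self _ _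
private theorem mem1 (c D : ℕ) : 1 ∈ RR c D := mem_insert_of_mem (mem_insert_self _ _)
private theorem memk {c D k : ℕ} (hk : k ∈ Icc 1 D) : c * k ^ 2 ∈ RR c D :=
  mem_insert_of_mem (mem_insert_of_mem (mem_image_of_mem _ hk))

private theorem ph0 {c D : ℕ} (hc : 2 ≤ c) :
    (-1 : ℝ) ^ D * ph c D 0 = -(1 / ∏ k ∈ Icc 1 D, ((c : ℝ) * (k : ℝ) ^ 2)) := by
  have h1 : (RR c D).erase 0 = insert 1 ((Icc 1 D).image fun i => c * i ^ 2) := by
    unfold RR
    exact erase_insert (not0 hc)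
  unfold ph
  rw [if_pos (mem0 c D), h1, prod_insert (not1 hc), prod_image fun a _ b _ h => injI hc h]
  have h2 : ∏ k ∈ Icc 1 D, (((0 : ℕ) : ℝ) - ((c * k ^ 2 : ℕ) : ℝ)) = (-1) ^ D * ∏ k ∈ Icc 1 D, ((c : ℝ) * (k : ℝ) ^ 2) := by
    have h3 : ∀ k ∈ Icc 1 D, (((0 : ℕ) : ℝ) - ((c * k ^ 2 : ℕ) : ℝ)) = (-1) * ((c : ℝ) * (k : ℝ) ^ 2) := by
      intro k _
      push_cast
      ring
    rw [prod_congr rfl h3, prod_mul_distrib, prod_const]
    simp
  rw [h2]
  have h4 : ((-1 : ℝ) ^ D) * (-1) ^ D = 1 := by rw [← mul_pow]; norm_num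
  have h5 : (-1 : ℝ) ^ D ≠ 0 := by positivity
  have h6 : ∏ k ∈ Icc 1 D, ((c : ℝ) * (k : ℝ) ^ 2) ≠ 0 := by
    rw [prod_ne_zero_iff]
    intro k hk
    rw [mem_Icc] at hk
    have h7 : (0 : ℝ) < k := by exact_mod_cast hk.1
    have h8 : (0 : ℝ) < c := by exact_mod_cast (by omega : 0 < c)
    positivity
  push_cast
  field_simp
  norm_num

private theorem ph1 {c D : ℕ} (hc : 2 ≤ c) :
    (-1 : ℝ) ^ D * ph c D 1 = 1 / ∏ k ∈ Icc 1 D, ((c : ℝ) * (k : ℝ) ^ 2 - 1) := by
  have h1 : (RR c D).erase 1 = insert 0 ((Icc 1 D).image fun i => c * i ^ 2) := by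
    unfold RR
    rw [insert_comm, erase_insert]
    intro h
    rcases mem_insert.1 h with h | h
    · omega
    · exact not1 hc h
  have h0 : 0 ∉ (Icc 1 D).image fun i => c * i ^ 2 := fun h => not0 hc (mem_insert_of_mem h)
  unfold ph
  rw [if_pos (mem1 c D), h1, prod_insert h0, prod_image fun a _ b _ h => injI hc h]
  have h2 : ∏ k ∈ Icc 1 D, (((1 : ℕ) : ℝ) - ((c * k ^ 2 : ℕ) : ℝ)) = (-1) ^ D * ∏ k ∈ Icc 1 D, ((c : ℝ) * (k : ℝ) ^ 2 - 1) := by
    have h3 : ∀ k ∈ Icc 1 D, (((1 : ℕ) : ℝ) - ((c * k ^ 2 : ℕ) : ℝ)) = (-1) * ((c : ℝ) * (k : ℝ) ^ 2 - 1) := by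
      intro k _
      push_cast
      ring
    rw [prod_congr rfl h3, prod_mul_distrib, prod_const]
    simp
  rw [h2]
  have h5 : (-1 : ℝ) ^ D ≠ 0 := by positivity
  have h6 : ∏ k ∈ Icc 1 D, ((c : ℝ) * (k : ℝ) ^ 2 - 1) ≠ 0 := by
    rw [prod_ne_zero_iff]
    intro k hk
    have h7 : (2 : ℝ) ≤ (c : ℝ) * (k : ℝ) ^ 2 := by exact_mod_cast ge2 hc hk
    linarith
  push_cast
  field_simp
  norm_num

private theorem phk {c D k : ℕ} (hc : 2 ≤ c) (hk : k ∈ Icc 1 D) :
    |ph c D (c * k ^ 2)| = 1 / (((c : ℝ) * (k : ℝ) ^ 2) * (((c : ℝ) * (k : ℝ) ^ 2 - 1) *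
      ∏ i ∈ (Icc 1 D).erase k, ((c : ℝ) * |(k : ℝ) ^ 2 - (i : ℝ) ^ 2|))) := by
  have h1 : (RR c D).erase (c * k ^ 2) = insert 0 (insert 1 (((Icc 1 D).erase k).image fun i => c * i ^ 2)) := by
    have h2 := ge2 hc hk
    unfold RR
    ext j
    simp only [mem_erase, mem_insert, mem_image, ne_eq]
    constructor
    · rintro ⟨h3, h4 | h4 | ⟨i, hi, rfl⟩⟩
      · exact Or.inl h4
      · exact Or.inr (Or.inl h4)
      · refine Or.inr (Or.inr ⟨i, ⟨?_, hi⟩, rfl⟩)
        rintro rfl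
        exact h3 rfl
    · rintro (h4 | h4 | ⟨i, ⟨hi1, hi2⟩, rfl⟩)
      · exact ⟨by omega, Or.inl h4⟩
      · exact ⟨by omega, Or.inr (Or.inl h4)⟩
      · exact ⟨fun h => hi1 (injI hc h), Or.inr (Or.inr ⟨i, hi2, rfl⟩)⟩
  have hn1 : 1 ∉ ((Icc 1 D).erase k).image fun i => c * i ^ 2 := by
    intro h
    obtain ⟨i, hi, h1⟩ := mem_image.1 h
    have := ge2 hc (mem_of_mem_erase hi)
    omega
  have hn0 : 0 ∉ insert 1 (((Icc 1 D).erase k).image fun i => c * i ^ 2) := by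
    intro h
    rcases mem_insert.1 h with h | h
    · omega
    · obtain ⟨i, hi, h1⟩ := mem_image.1 h
      have := ge2 hc (mem_of_mem_erase hi)
      omega
  unfold ph
  rw [if_pos (memk hk), h1, prod_insert hn0, prod_insert hn1, prod_image fun a _ b _ h => injI hc h, abs_div, abs_one,
    abs_mul, abs_mul, abs_prod]
  have h7 : (2 : ℝ) ≤ (c : ℝ) * (k : ℝ) ^ 2 := by exact_mod_cast ge2 hc hk
  have h8 : (0 : ℝ) < c := by exact_mod_cast (by omega : 0 < c)
  congr 1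
  push_cast
  rw [sub_zero, abs_of_pos (by linarith : (0 : ℝ) < (c : ℝ) * (k : ℝ) ^ 2),
    abs_of_pos (by linarith : (0 : ℝ) < (c : ℝ) * (k : ℝ) ^ 2 - 1)]
  congr 2
  refine prod_congr rfl fun i _ => ?_
  rw [← mul_sub, abs_mul, abs_of_pos h8]

private theorem phk_le {c D k : ℕ} (hc : 2 ≤ c) (hk : k ∈ Icc 1 D) :
    |ph c D (c * k ^ 2)| ≤ 4 / (c : ℝ) * (1 / (k : ℝ) ^ 2) * (1 / ∏ k ∈ Icc 1 D, ((c : ℝ) * (k : ℝ) ^ 2)) := by
  rw [phk hc hk]
  have h8 : (0 : ℝ) < c := by exact_mod_cast (by omega : 0 < c)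
  have hk' := mem_Icc.1 hk
  have hk0 : (0 : ℝ) < k := by exact_mod_cast hk'.1
  have h7 : (2 : ℝ) ≤ (c : ℝ) * (k : ℝ) ^ 2 := by exact_mod_cast ge2 hc hk
  set E := ∏ i ∈ (Icc 1 D).erase k, ((c : ℝ) * |(k : ℝ) ^ 2 - (i : ℝ) ^ 2|) with hE
  set W := ∏ k ∈ Icc 1 D, ((c : ℝ) * (k : ℝ) ^ 2) with hW
  have hW0 : 0 < W := by
    rw [hW]
    refine prod_pos fun i hi => ?_
    have h9 : (0 : ℝ) < i := by exact_mod_cast (mem_Icc.1 hi).1
    positivity
  have h1 : W ≤ 2 * ((c : ℝ) * (k : ℝ) ^ 2) * E := by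
    have h2 : W = (∏ i ∈ (Icc 1 D).erase k, ((c : ℝ) * (i : ℝ) ^ 2)) * ((c : ℝ) * (k : ℝ) ^ 2) := by
      rw [hW, prod_erase_mul (Icc 1 D) (fun i : ℕ => (c : ℝ) * (i : ℝ) ^ 2) hk]
    have h3 := prodE k D hk'.1 hk'.2
    rw [h2, hE, prod_mul_distrib, prod_mul_distrib, prod_const]
    have h4 : (0 : ℝ) ≤ (c : ℝ) ^ ((Icc 1 D).erase k).card * ((c : ℝ) * (k : ℝ) ^ 2) := by positivity
    have h5 := mul_le_mul_of_nonneg_left h3 h4
    nlinarith
  have hE0 : 0 < E := by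
    by_contra hneg
    push Not at hneg
    nlinarith
  have h10 : 4 / (c : ℝ) * (1 / (k : ℝ) ^ 2) * (1 / W) = 4 / (((c : ℝ) * (k : ℝ) ^ 2) * W) := by
    field_simp
  rw [h10, div_le_div_iff₀ (by
    have : (0 : ℝ) < (c : ℝ) * (k : ℝ) ^ 2 - 1 := by linarith
    positivity) (by positivity)]
  have h11 : W ≤ 4 * (((c : ℝ) * (k : ℝ) ^ 2 - 1) * E) := by nlinarith
  have h12 : (0 : ℝ) < (c : ℝ) * (k : ℝ) ^ 2 := by positivity
  nlinarith

/-- Divided differences. -/
private theorem vanish {c D : ℕ} (hc : 2 ≤ c) (P : ℝ[X]) (hP : P.natDegree ≤ D) :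
    ∑ j ∈ RR c D, ph c D j * P.eval (j : ℝ) = 0 := by
  have hinj : Set.InjOn (fun j : ℕ => (j : ℝ)) (RR c D) := fun a _ b _ h => Nat.cast_injective h
  have h1 : P.degree < ((RR c D).card : WithBot ℕ) := by
    rw [cardR hc]
    refine (degree_le_natDegree).trans_lt ?_
    exact_mod_cast (by omega : P.natDegree < D + 2)
  have h2 := Lagrange.coeff_eq_sum hinj h1
  rw [cardR hc, coeff_eq_zero_of_natDegree_lt (by omega)] at h2
  rw [h2]
  refine sum_congr rfl fun j hj => ?_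
  unfold ph
  rw [if_pos hj]
  ring

private theorem keyS {m c D : ℕ} (hR : RR c D ⊆ range (m + 1)) (g : ℕ → ℝ) (hg : ∀ j, j ∉ RR c D → g j = 0)
    (b : (Fin m → Bool) → ℝ) :
    ∑ z, g (wt z) / (m.choose (wt z) : ℝ) * b z =
      ∑ j ∈ RR c D, g j * ((∑ z ∈ lv m j, b z) / (m.choose j : ℝ)) := by
  rw [sumLv]
  have h1 : ∀ j ∈ range (m + 1), ∑ z ∈ lv m j, g (wt z) / (m.choose (wt z) : ℝ) * b z =
      g j * ((∑ z ∈ lv m j, b z) / (m.choose j : ℝ)) := by
    intro j _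
    have h2 : ∀ z ∈ lv m j, g (wt z) / (m.choose (wt z) : ℝ) * b z = g j / (m.choose j : ℝ) * b z := by
      intro z hz
      rw [(mem_filter.1 hz).2]
    rw [sum_congr rfl h2, ← mul_sum]
    ring
  rw [sum_congr rfl h1]
  refine (sum_subset hR fun j _ hj => ?_).symm
  rw [hg j hj, zero_mul]

theorem dual_poly (m D c : ℕ) (gam : ℝ) (hg : 0 < gam) (hg1 : gam ≤ 1)
    (hc : 28 ≤ (c : ℝ) * gam) (hcD : c * D ^ 2 ≤ m) (hm : 1 ≤ m) :
    ∃ psi : (Fin m → Bool) → ℝ, ∑ z, |psi z| ≤ 1 ∧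
      (∀ S : Finset (Fin m), S.card ≤ D → ∑ z, psi z * chi S z = 0) ∧
      ∀ (e : ℝ) (be : (Fin m → Bool) → ℝ), (∀ z, 0 ≤ be z ∧ be z ≤ 1) →
        (∀ z, wt z = 0 → be z ≤ e) → (∀ z, wt z = 1 → e + gam ≤ be z) →
        gam / 4 ≤ ∑ z, psi z * be z := by
  classical
  have hc0 : (28 : ℝ) ≤ c := by
    have h0 : (0 : ℝ) ≤ c := Nat.cast_nonneg c
    nlinarith
  have hc2 : 2 ≤ c := by
    have : 28 ≤ c := by exact_mod_cast hc0
    omega
  have hR : RR c D ⊆ range (m + 1) := by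
    intro j hj
    rw [mem_range]
    unfold RR at hj
    rcases mem_insert.1 hj with h | h
    · omega
    · rcases mem_insert.1 h with h | h
      · omega
      · obtain ⟨i, hi, rfl⟩ := mem_image.1 h
        have h1 : i ≤ D := (mem_Icc.1 hi).2
        have h2 : i ^ 2 ≤ D ^ 2 := Nat.pow_le_pow_left h1 2
        have h3 : c * i ^ 2 ≤ c * D ^ 2 := Nat.mul_le_mul_left c h2
        show c * i ^ 2 < m + 1
        omega
  have hoff : ∀ j, j ∉ RR c D → ph c D j = 0 := fun j hj => if_neg hj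
  have hch : ∀ j ∈ RR c D, (0 : ℝ) < (m.choose j : ℝ) := by
    intro j hj
    have := mem_range.1 (hR hj)
    exact_mod_cast Nat.choose_pos (by omega : j ≤ m)
  set W := ∏ k ∈ Icc 1 D, ((c : ℝ) * (k : ℝ) ^ 2) with hW
  set W1 := ∏ k ∈ Icc 1 D, ((c : ℝ) * (k : ℝ) ^ 2 - 1) with hW1
  have hW0 : 0 < W := by
    rw [hW]
    refine prod_pos fun i hi => ?_
    have h9 : (0 : ℝ) < i := by exact_mod_cast (mem_Icc.1 hi).1
    positivity
  have hWW : 13 / 14 * W ≤ W1 ∧ W1 ≤ W := by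
    have h1 : W1 = W * ∏ k ∈ Icc 1 D, (1 - 1 / ((c : ℝ) * (k : ℝ) ^ 2)) := by
      rw [hW, hW1, ← prod_mul_distrib]
      refine prod_congr rfl fun k hk => ?_
      have h9 : (0 : ℝ) < k := by exact_mod_cast (mem_Icc.1 hk).1
      field_simp
    obtain ⟨h2, h3, -⟩ := prodG (Icc 1 D) (fun k => 1 / ((c : ℝ) * (k : ℝ) ^ 2)) (fun k _ => by positivity) (by
      intro k hk
      have h7 : (2 : ℝ) ≤ (c : ℝ) * (k : ℝ) ^ 2 := by exact_mod_cast ge2 hc2 hk
      rw [div_le_one (by linarith)]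
      linarith)
    have h4 : ∑ k ∈ Icc 1 D, 1 / ((c : ℝ) * (k : ℝ) ^ 2) ≤ 1 / 14 := by
      have h5 : ∑ k ∈ Icc 1 D, 1 / ((c : ℝ) * (k : ℝ) ^ 2) = 1 / (c : ℝ) * ∑ k ∈ Icc 1 D, 1 / (k : ℝ) ^ 2 := by
        rw [mul_sum]
        refine sum_congr rfl fun k _ => ?_
        rw [one_div_mul_one_div]
      rw [h5]
      have h6 := sumF' D
      have h7 : 1 / (c : ℝ) ≤ 1 / 28 := one_div_le_one_div_of_le (by norm_num) hc0
      have h8 : (0 : ℝ) ≤ 1 / (c : ℝ) := by positivity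
      nlinarith
    rw [h1]
    constructor <;> nlinarith
  have hW10 : 0 < W1 := by linarith [hWW.1]
  set T := ∑ k ∈ Icc 1 D, |ph c D (c * k ^ 2)| with hT
  have hT0 : 0 ≤ T := sum_nonneg fun _ _ => abs_nonneg _
  have hT1 : T ≤ 2 / 7 * gam * (1 / W) := by
    have h1 : T ≤ ∑ k ∈ Icc 1 D, 4 / (c : ℝ) * (1 / (k : ℝ) ^ 2) * (1 / W) := sum_le_sum fun k hk => phk_le hc2 hk
    have h2 : ∑ k ∈ Icc 1 D, 4 / (c : ℝ) * (1 / (k : ℝ) ^ 2) * (1 / W) =
        4 / (c : ℝ) * (∑ k ∈ Icc 1 D, 1 / (k : ℝ) ^ 2) * (1 / W) := by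
      rw [mul_sum, sum_mul]
    rw [h2] at h1
    refine h1.trans (mul_le_mul_of_nonneg_right ?_ (by positivity))
    have h3 := sumF' D
    have h4 : 4 / (c : ℝ) ≤ gam / 7 := by
      rw [div_le_div_iff₀ (by linarith) (by norm_num)]
      linarith
    have h5 : (0 : ℝ) ≤ 4 / (c : ℝ) := by positivity
    nlinarith
  have hp0 := ph0 (D := D) hc2
  have hp1 := ph1 (D := D) hc2
  rw [← hW] at hp0
  rw [← hW1] at hp1
  have hs : |(-1 : ℝ) ^ D| = 1 := by rw [abs_pow, abs_neg, abs_one, one_pow]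
  have ha0 : |ph c D 0| = 1 / W := by
    have : |(-1 : ℝ) ^ D * ph c D 0| = 1 / W := by rw [hp0, abs_neg, abs_of_pos (by positivity)]
    rwa [abs_mul, hs, one_mul] at this
  have ha1 : |ph c D 1| = 1 / W1 := by
    have : |(-1 : ℝ) ^ D * ph c D 1| = 1 / W1 := by rw [hp1, abs_of_pos (by positivity)]
    rwa [abs_mul, hs, one_mul] at this
  set N := ∑ j ∈ RR c D, |ph c D j| with hN
  have hN1 : N = 1 / W + (1 / W1 + T) := by
    rw [hN, sumR hc2, ha0, ha1]
  have hN0 : 0 < N := by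
    rw [hN1]
    positivity
  have hW1W : 1 / W ≤ 1 / W1 := one_div_le_one_div_of_le hW10 hWW.2
  have hW1W' : 1 / W1 ≤ 14 / 13 * (1 / W) := by
    have h1 : 1 / W1 ≤ 1 / (13 / 14 * W) := one_div_le_one_div_of_le (by positivity) hWW.1
    have h2 : 1 / (13 / 14 * W) = 14 / 13 * (1 / W) := by
      field_simp
    linarith
  refine ⟨fun z => (-1 : ℝ) ^ D * ph c D (wt z) / N / (m.choose (wt z) : ℝ) , ?_, ?_, ?_⟩
  · have h1 : ∀ z : Fin m → Bool, |(-1 : ℝ) ^ D * ph c D (wt z) / N / (m.choose (wt z) : ℝ)| =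
        (fun j => |ph c D j| / N) (wt z) / (m.choose (wt z) : ℝ) * 1 := by
      intro z
      rw [abs_div, abs_div, abs_mul, hs, one_mul, abs_of_pos hN0, mul_one]
      congr 1
      exact abs_of_nonneg (Nat.cast_nonneg _)
    rw [sum_congr rfl fun z _ => h1 z, keyS hR (fun j => |ph c D j| / N) (fun j hj => by simp [hoff j hj])]
    have h2 : ∀ j ∈ RR c D, (fun j => |ph c D j| / N) j * ((∑ z ∈ lv m j, (1 : ℝ)) / (m.choose j : ℝ)) = |ph c D j| / N := by
      intro j hj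
      rw [sum_const, nsmul_eq_mul, mul_one, card_lv, div_self (hch j hj).ne', mul_one]
    rw [sum_congr rfl h2, ← sum_div, ← hN, div_self hN0.ne']
  · intro S hS
    have h1 := keyS hR (fun j => (-1 : ℝ) ^ D * ph c D j / N) (fun j hj => by simp [hoff j hj]) (chi S)
    refine h1.trans ?_
    have h2 : ∀ j ∈ RR c D, (fun j => (-1 : ℝ) ^ D * ph c D j / N) j * ((∑ z ∈ lv m j, chi S z) / (m.choose j : ℝ)) =
        (-1 : ℝ) ^ D / N * (ph c D j * (PP S).eval (j : ℝ)) := by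
      intro j hj
      rw [levChi]
      have := hch j hj
      field_simp
    rw [sum_congr rfl h2, ← mul_sum, vanish hc2 _ ((PP_deg S).trans hS), mul_zero]
  · intro e be hbe hbe0 hbe1
    have h1 := keyS hR (fun j => (-1 : ℝ) ^ D * ph c D j / N) (fun j hj => by simp [hoff j hj]) be
    have h1' : ∑ z, (-1 : ℝ) ^ D * ph c D (wt z) / N / (m.choose (wt z) : ℝ) * be z =
        ∑ j ∈ RR c D, (-1 : ℝ) ^ D * ph c D j / N * ((∑ z ∈ lv m j, be z) / (m.choose j : ℝ)) := h1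
    rw [h1']
    set B : ℕ → ℝ := fun j => (∑ z ∈ lv m j, be z) / (m.choose j : ℝ) with hB
    have hB1 : ∀ j ∈ RR c D, 0 ≤ B j ∧ B j ≤ 1 := by
      intro j hj
      have h3 := hch j hj
      constructor
      · exact div_nonneg (sum_nonneg fun z _ => (hbe z).1) h3.le
      · rw [hB]
        simp only
        rw [div_le_one h3, ← card_lv]
        have := sum_le_card_nsmul (lv m j) be 1 fun z _ => (hbe z).2
        simpa using this
    have hB0 : B 0 ≤ e := by
      have h3 := hch 0 (mem0 c D)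
      rw [hB]
      simp only
      rw [div_le_iff₀ h3, ← card_lv]
      have := sum_le_card_nsmul (lv m 0) be e fun z hz => hbe0 z (mem_filter.1 hz).2
      rw [nsmul_eq_mul] at this
      linarith
    have hBB : e + gam ≤ B 1 := by
      have h3 := hch 1 (mem1 c D)
      rw [hB]
      simp only
      rw [le_div_iff₀ h3, ← card_lv]
      have := card_nsmul_le_sum (lv m 1) be (e + gam) fun z hz => hbe1 z (mem_filter.1 hz).2
      rw [nsmul_eq_mul] at this
      linarith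
    have he : 0 ≤ e := (hB1 0 (mem0 c D)).1.trans hB0
    have h4 : ∑ j ∈ RR c D, (-1 : ℝ) ^ D * ph c D j / N * B j =
        (1 / N) * (-(1 / W) * B 0 + (1 / W1 * B 1 + ∑ k ∈ Icc 1 D, (-1 : ℝ) ^ D * ph c D (c * k ^ 2) * B (c * k ^ 2))) := by
      rw [sumR hc2, hp0, hp1, mul_add, mul_add, mul_sum]
      congr 1
      · ring
      · congr 1
        · ring
        · refine sum_congr rfl fun k _ => ?_
          ring
    have h5 : -T ≤ ∑ k ∈ Icc 1 D, (-1 : ℝ) ^ D * ph c D (c * k ^ 2) * B (c * k ^ 2) := by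
      rw [hT, ← sum_neg_distrib]
      refine sum_le_sum fun k hk => ?_
      obtain ⟨h6, h7⟩ := hB1 _ (memk hk)
      have h8 : |(-1 : ℝ) ^ D * ph c D (c * k ^ 2) * B (c * k ^ 2)| ≤ |ph c D (c * k ^ 2)| := by
        rw [abs_mul, abs_mul, hs, one_mul, abs_of_nonneg h6]
        exact mul_le_of_le_one_right (abs_nonneg _) h7
      exact (abs_le.1 h8).1.trans' (by linarith)
    have h4' : ∑ j ∈ RR c D, (-1 : ℝ) ^ D * ph c D j / N * ((∑ z ∈ lv m j, be z) / (m.choose j : ℝ)) =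
        ∑ j ∈ RR c D, (-1 : ℝ) ^ D * ph c D j / N * B j := rfl
    rw [h4', h4, one_div, inv_mul_eq_div, le_div_iff₀ hN0, hN1]
    have hWi : 0 < 1 / W := by positivity
    have hW1i : 0 < 1 / W1 := by positivity
    have h9 : (1 / W) * e ≤ (1 / W1) * e := mul_le_mul_of_nonneg_right hW1W he
    have h10 : (1 / W) * gam ≤ (1 / W1) * gam := mul_le_mul_of_nonneg_right hW1W hg.le
    have h11 : (1 / W) * B 0 ≤ (1 / W) * e := mul_le_mul_of_nonneg_left hB0 hWi.le
    have h12 : (1 / W1) * (e + gam) ≤ (1 / W1) * B 1 := mul_le_mul_of_nonneg_left hBB hW1i.le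
    have h13 : 5 / 7 * gam * (1 / W) ≤ -(1 / W) * B 0 + (1 / W1 * B 1 +
        ∑ k ∈ Icc 1 D, (-1 : ℝ) ^ D * ph c D (c * k ^ 2) * B (c * k ^ 2)) := by
      linarith
    have h14 : 1 / W + (1 / W1 + T) ≤ (1 + 14 / 13 + 2 / 7) * (1 / W) := by
      have : 2 / 7 * gam * (1 / W) ≤ 2 / 7 * (1 / W) := by nlinarith
      linarith
    have h15 : gam / 4 * (1 / W + (1 / W1 + T)) ≤ gam / 4 * ((1 + 14 / 13 + 2 / 7) * (1 / W)) :=
      mul_le_mul_of_nonneg_left h14 (by positivity)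
    have h16 : gam / 4 * ((1 + 14 / 13 + 2 / 7) * (1 / W)) ≤ 5 / 7 * gam * (1 / W) := by
      have : 0 < gam * (1 / W) := by positivity
      nlinarith
    linarith

end Pool.Agent.Helper17.AQ
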