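import Pool.Agent.Helper17.AQ.Defs

/-! AQ1: closure properties of Fac -/

set_option autoImplicit false

namespace Pool.Agent.Helper17.AQ

open Finset Pool.Agent.Results.MP_799357_lc.DetVsQuantum

theorem Fac.mono {X Y : Type} {M : X → Y → ℝ} {g h : ℝ} (hM : Fac M g) (hgh : g ≤ h) :
    Fac M h := by
  obtain ⟨ι, hι, u, v, h1, h2, h3⟩ := hM
  exact ⟨ι, hι, u, v, h1, fun x => (h2 x).trans hgh, fun y => (h3 y).trans hgh⟩

theorem Fac.add {X Y : Type} {M N : X → Y → ℝ} {g h : ℝ} (hM : Fac M g) (hN : Fac N h) :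
    Fac (fun x y => M x y + N x y) (g + h) := by
  obtain ⟨ι, hι, u, v, h1, h2, h3⟩ := hM
  obtain ⟨κ, hκ, u', v', h1', h2', h3'⟩ := hN
  refine ⟨ι ⊕ κ, inferInstance, fun x => Sum.elim (u x) (u' x), fun y => Sum.elim (v y) (v' y),
    ?_, ?_, ?_⟩
  · intro x y
    rw [Fintype.sum_sum_type]
    push_cast
    rw [h1, h1']
    simp
  · intro x
    rw [Fintype.sum_sum_type]
    simpa using add_le_add (h2 x) (h2' x)
  · intro y
    rw [Fintype.sum_sum_type]
    simpa using add_le_add (h3 y) (h3' y)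

theorem Fac.mul {X Y : Type} {M N : X → Y → ℝ} {g h : ℝ} (hg : 0 ≤ g) (hh : 0 ≤ h)
    (hM : Fac M g) (hN : Fac N h) : Fac (fun x y => M x y * N x y) (g * h) := by
  obtain ⟨ι, hι, u, v, h1, h2, h3⟩ := hM
  obtain ⟨κ, hκ, u', v', h1', h2', h3'⟩ := hN
  refine ⟨ι × κ, inferInstance, fun x p => u x p.1 * u' x p.2, fun y p => v y p.1 * v' y p.2,
    ?_, ?_, ?_⟩
  · intro x y
    push_cast
    rw [h1, h1', Finset.sum_mul_sum, Fintype.sum_prod_type]
    refine Finset.sum_congr rfl fun i _ => Finset.sum_congr rfl fun j _ => ?_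
    ring
  · intro x
    have e : ∑ p : ι × κ, ‖u x p.1 * u' x p.2‖ ^ 2 =
        (∑ i, ‖u x i‖ ^ 2) * ∑ j, ‖u' x j‖ ^ 2 := by
      rw [Finset.sum_mul_sum, Fintype.sum_prod_type]
      refine Finset.sum_congr rfl fun i _ => Finset.sum_congr rfl fun j _ => ?_
      rw [norm_mul, mul_pow]
    rw [e]
    exact mul_le_mul (h2 x) (h2' x) (Finset.sum_nonneg fun i _ => by positivity) hg
  · intro y
    have e : ∑ p : ι × κ, ‖v y p.1 * v' y p.2‖ ^ 2 =
        (∑ i, ‖v y i‖ ^ 2) * ∑ j, ‖v' y j‖ ^ 2 := by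
      rw [Finset.sum_mul_sum, Fintype.sum_prod_type]
      refine Finset.sum_congr rfl fun i _ => Finset.sum_congr rfl fun j _ => ?_
      rw [norm_mul, mul_pow]
    rw [e]
    exact mul_le_mul (h3 y) (h3' y) (Finset.sum_nonneg fun i _ => by positivity) hg

/-- scaling by two numbers -/
theorem Fac.scale {X Y : Type} {M : X → Y → ℝ} {g : ℝ} (a : X → ℝ) (b : Y → ℝ) (c : ℝ)
    (ha : ∀ x, a x ^ 2 ≤ c) (hb : ∀ y, b y ^ 2 ≤ c) (hg : 0 ≤ g)
    (hM : Fac M g) : Fac (fun x y => a x * b y * M x y) (c * g) := by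
  obtain ⟨ι, hι, u, v, h1, h2, h3⟩ := hM
  refine ⟨ι, hι, fun x i => (a x : ℂ) * u x i, fun y i => (b y : ℂ) * v y i, ?_, ?_, ?_⟩
  · intro x y
    push_cast
    rw [h1, Finset.mul_sum]
    refine Finset.sum_congr rfl fun i _ => ?_
    ring
  · intro x
    have e : ∑ i, ‖(a x : ℂ) * u x i‖ ^ 2 = a x ^ 2 * ∑ i, ‖u x i‖ ^ 2 := by
      rw [Finset.mul_sum]
      refine Finset.sum_congr rfl fun i _ => ?_
      rw [norm_mul, mul_pow, Complex.norm_real, Real.norm_eq_abs, sq_abs]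
    rw [e]
    exact mul_le_mul (ha x) (h2 x) (Finset.sum_nonneg fun i _ => by positivity)
      ((sq_nonneg _).trans (ha x))
  · intro y
    have e : ∑ i, ‖(b y : ℂ) * v y i‖ ^ 2 = b y ^ 2 * ∑ i, ‖v y i‖ ^ 2 := by
      rw [Finset.mul_sum]
      refine Finset.sum_congr rfl fun i _ => ?_
      rw [norm_mul, mul_pow, Complex.norm_real, Real.norm_eq_abs, sq_abs]
    rw [e]
    exact mul_le_mul (hb y) (h3 y) (Finset.sum_nonneg fun i _ => by positivity)
      ((sq_nonneg _).trans (hb y))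

theorem Fac.nonneg {X Y : Type} [hX : Nonempty X] {M : X → Y → ℝ} {g : ℝ}
    (hM : Fac M g) : 0 ≤ g := by
  obtain ⟨ι, hι, u, v, h1, h2, h3⟩ := hM
  obtain ⟨x⟩ := hX
  exact (Finset.sum_nonneg fun i _ => by positivity).trans (h2 x)

theorem Fac.smul {X Y : Type} {M : X → Y → ℝ} {g : ℝ} (c : ℝ) (hM : Fac M g) :
    Fac (fun x y => c * M x y) (|c| * g) := by
  obtain ⟨ι, hι, u, v, h1, h2, h3⟩ := hM
  have hs : Real.sqrt |c| ^ 2 = |c| := Real.sq_sqrt (abs_nonneg c)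
  obtain ⟨s, hs1, hs2⟩ : ∃ s : ℝ, s * Real.sqrt |c| = c ∧ s ^ 2 = |c| := by
    rcases le_total 0 c with h | h
    · refine ⟨Real.sqrt |c|, ?_, hs⟩
      rw [← sq, hs, abs_of_nonneg h]
    · refine ⟨-Real.sqrt |c|, ?_, ?_⟩
      · rw [neg_mul, ← sq, hs, abs_of_nonpos h, neg_neg]
      · rw [neg_sq, hs]
  refine ⟨ι, hι, fun x i => (s : ℂ) * u x i, fun y i => (Real.sqrt |c| : ℂ) * v y i, ?_, ?_, ?_⟩
  · intro x y
    push_cast
    rw [h1, Finset.mul_sum]
    refine Finset.sum_congr rfl fun i _ => ?_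
    have : (c : ℂ) = (s : ℂ) * (Real.sqrt |c| : ℂ) := by
      rw [← Complex.ofReal_mul, hs1]
    rw [this]
    ring
  · intro x
    have e : ∑ i, ‖(s : ℂ) * u x i‖ ^ 2 = |c| * ∑ i, ‖u x i‖ ^ 2 := by
      rw [Finset.mul_sum]
      refine Finset.sum_congr rfl fun i _ => ?_
      rw [norm_mul, mul_pow, Complex.norm_real, Real.norm_eq_abs, sq_abs, hs2]
    rw [e]
    exact mul_le_mul_of_nonneg_left (h2 x) (abs_nonneg c)
  · intro y
    have e : ∑ i, ‖(Real.sqrt |c| : ℂ) * v y i‖ ^ 2 = |c| * ∑ i, ‖v y i‖ ^ 2 := by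
      rw [Finset.mul_sum]
      refine Finset.sum_congr rfl fun i _ => ?_
      rw [norm_mul, mul_pow, Complex.norm_real, Real.norm_eq_abs, sq_abs, hs]
    rw [e]
    exact mul_le_mul_of_nonneg_left (h3 y) (abs_nonneg c)

/-- affine change depending on the row -/
theorem Fac.row {X Y : Type} {M : X → Y → ℝ} {g : ℝ} (r s : X → ℝ) (hr : ∀ x, |r x| ≤ 1)
    (hs : ∀ x, |s x| ≤ 1) (hM : Fac M g) : Fac (fun x y => r x + s x * M x y) (1 + g) := by
  refine Fac.add (M := fun x _ => r x) (N := fun x y => s x * M x y) ?_ ?_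
  · refine ⟨Unit, inferInstance, fun x _ => (r x : ℂ), fun _ _ => 1, ?_, ?_, ?_⟩
    · intro x y
      simp
    · intro x
      simp only [Finset.univ_unique, Finset.sum_singleton, Complex.norm_real, Real.norm_eq_abs]
      have := hr x
      exact pow_le_one₀ (abs_nonneg _) this
    · intro y
      simp
  · obtain ⟨ι, hι, u, v, h1, h2, h3⟩ := hM
    refine ⟨ι, hι, fun x i => (s x : ℂ) * u x i, v, ?_, ?_, h3⟩
    · intro x y
      push_cast
      rw [h1, Finset.mul_sum]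
      refine Finset.sum_congr rfl fun i _ => ?_
      ring
    · intro x
      refine le_trans ?_ (h2 x)
      refine Finset.sum_le_sum fun i _ => ?_
      rw [norm_mul, mul_pow, Complex.norm_real, Real.norm_eq_abs]
      have h4 : |s x| ^ 2 ≤ 1 := pow_le_one₀ (abs_nonneg _) (hs x)
      have h5 : (0 : ℝ) ≤ ‖u x i‖ ^ 2 := by positivity
      nlinarith

theorem Fac.comp {X Y X' Y' : Type} {M : X → Y → ℝ} {g : ℝ} (a : X' → X) (b : Y' → Y)
    (hM : Fac M g) : Fac (fun x y => M (a x) (b y)) g := by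
  obtain ⟨ι, hι, u, v, h1, h2, h3⟩ := hM
  exact ⟨ι, hι, fun x => u (a x), fun y => v (b y), fun x y => h1 _ _, fun x => h2 _,
    fun y => h3 _⟩

theorem Fac.avg {X Y J : Type} [Fintype J] [Nonempty J] {M : J → X → Y → ℝ} {g : ℝ}
    (hM : ∀ j, Fac (M j) g) : Fac (fun x y => (∑ j, M j x y) / Fintype.card J) g := by
  choose ι hι u v h1 h2 h3 using hM
  have hc : (0 : ℝ) < Fintype.card J := by exact_mod_cast Fintype.card_pos
  set N : ℝ := (Fintype.card J : ℝ) with hN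
  set s : ℝ := Real.sqrt (1 / N) with hsdef
  have hs : s ^ 2 = 1 / N := Real.sq_sqrt (by positivity)
  have hs0 : 0 ≤ s := Real.sqrt_nonneg _
  refine ⟨Σ j, ι j, inferInstance, fun x p => (s : ℂ) * u p.1 x p.2,
    fun y p => (s : ℂ) * v p.1 y p.2, ?_, ?_, ?_⟩
  · intro x y
    rw [Fintype.sum_sigma]
    have e : ∀ j, ∑ i, (s : ℂ) * u j x i * ((s : ℂ) * v j y i) = (1 / N : ℝ) * (M j x y : ℂ) := by
      intro j
      rw [h1, Finset.mul_sum]
      refine Finset.sum_congr rfl fun i _ => ?_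
      rw [← hs]
      push_cast
      ring
    simp only [e]
    rw [← Finset.mul_sum]
    push_cast
    rw [div_eq_mul_one_div, mul_comm]
  · intro x
    rw [Fintype.sum_sigma]
    have e : ∀ j, ∑ i, ‖(s : ℂ) * u j x i‖ ^ 2 ≤ 1 / N * g := by
      intro j
      have : ∑ i, ‖(s : ℂ) * u j x i‖ ^ 2 = 1 / N * ∑ i, ‖u j x i‖ ^ 2 := by
        rw [Finset.mul_sum]
        refine Finset.sum_congr rfl fun i _ => ?_
        rw [norm_mul, mul_pow, Complex.norm_real, Real.norm_eq_abs, sq_abs, hs]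
      rw [this]
      exact mul_le_mul_of_nonneg_left (h2 j x) (by positivity)
    refine (Finset.sum_le_sum fun j _ => e j).trans (le_of_eq ?_)
    rw [Finset.sum_const, Finset.card_univ, nsmul_eq_mul, ← hN]
    field_simp
  · intro y
    rw [Fintype.sum_sigma]
    have e : ∀ j, ∑ i, ‖(s : ℂ) * v j y i‖ ^ 2 ≤ 1 / N * g := by
      intro j
      have : ∑ i, ‖(s : ℂ) * v j y i‖ ^ 2 = 1 / N * ∑ i, ‖v j y i‖ ^ 2 := by
        rw [Finset.mul_sum]
        refine Finset.sum_congr rfl fun i _ => ?_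
        rw [norm_mul, mul_pow, Complex.norm_real, Real.norm_eq_abs, sq_abs, hs]
      rw [this]
      exact mul_le_mul_of_nonneg_left (h3 j y) (by positivity)
    refine (Finset.sum_le_sum fun j _ => e j).trans (le_of_eq ?_)
    rw [Finset.sum_const, Finset.card_univ, nsmul_eq_mul, ← hN]
    field_simp

end Pool.Agent.Helper17.AQ
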