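import Pool.Agent.Helper17.AQ.Defs

/-! AQ8: Huang 2019 for functions of full degree. On the cube of subsets of P (any finite linear order, or index by
Fin P.card through an equivalence): operator (A v)(x) = sum_i s_i(x) v(x + e_i), s_i(x) = (-1)^(number of elements j < i in x);
A^2 = t, t = |P|. v = ((A + r) v - (A - r) v) / (2 r), r = sqrt t, so one of the ranges of A + r, A - r has dimension >= 2^(t-1), and on it
A v = r v resp. - r v. ce g w P <> 0 says that g (w u Q) (-1)^|Q| has nonzero sum: one of the two classes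
H = {Q : parity of |Q| xor g (w u Q) = const} has > 2^(t-1) elements; so a nonzero v in the range is supported on H;
at a maximum of |v|: r <= number of neighbours in H = number of sensitive coordinates. (P empty: trivial.) -/

set_option autoImplicit false

namespace Pool.Agent.Helper17.AQ

open Finset Pool.Agent.Results.MP_799357_lc.DetVsQuantum

namespace Huang76

variable {β : Type} [DecidableEq β]

/-- toggle the element `i` -/
def tg (i : β) (Q : Finset β) : Finset β := if i ∈ Q then Q.erase i else insert i Q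

theorem mem_tg {i j : β} {Q : Finset β} : j ∈ tg i Q ↔ (if j = i then i ∉ Q else j ∈ Q) := by
  unfold tg
  by_cases hi : i ∈ Q
  · rw [if_pos hi, mem_erase]
    by_cases hj : j = i
    · simp [hj, hi]
    · simp [hj]
  · rw [if_neg hi, mem_insert]
    by_cases hj : j = i
    · simp [hj, hi]
    · simp [hj]

theorem tg_tg (i : β) (Q : Finset β) : tg i (tg i Q) = Q := by
  ext j
  rw [mem_tg]
  by_cases hj : j = i
  · subst hj
    simp [mem_tg]
  · simp [mem_tg, hj]

theorem tg_comm (i k : β) (Q : Finset β) : tg i (tg k Q) = tg k (tg i Q) := by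
  ext j
  rw [mem_tg, mem_tg, mem_tg, mem_tg]
  by_cases h1 : j = i
  · subst h1
    by_cases h2 : j = k
    · subst h2
      simp [mem_tg]
    · simp [h2, mem_tg]
  · by_cases h2 : j = k
    · subst h2
      simp [h1, mem_tg]
    · simp [h1, h2, mem_tg]

theorem sign_tg (i : β) (Q : Finset β) : ((-1 : ℝ)) ^ (tg i Q).card = -((-1) ^ Q.card) := by
  unfold tg
  by_cases hi : i ∈ Q
  · rw [if_pos hi]
    have h1 := card_erase_add_one hi
    rw [← h1, pow_succ]
    ring
  · rw [if_neg hi, card_insert_of_notMem hi, pow_succ]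
    ring

theorem sign_tgZ (i : β) (Q : Finset β) : ((-1 : ℤ)) ^ (tg i Q).card = -((-1) ^ Q.card) := by
  have h := sign_tg i Q
  exact_mod_cast h

section Op

variable {t : ℕ}

/-- the sign of the edge -/
def sg (i : Fin t) (Q : Finset (Fin t)) : ℝ := (-1) ^ (Q.filter (· < i)).card

theorem sg_sq (i : Fin t) (Q : Finset (Fin t)) : sg i Q * sg i Q = 1 := by
  unfold sg
  rw [← mul_pow]
  norm_num

theorem abs_sg (i : Fin t) (Q : Finset (Fin t)) : |sg i Q| = 1 := by
  unfold sg
  rw [abs_pow]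
  norm_num

theorem sg_tg_ge {i j : Fin t} (h : ¬ j < i) (Q : Finset (Fin t)) : sg i (tg j Q) = sg i Q := by
  unfold sg
  congr 2
  ext k
  rw [mem_filter, mem_filter, mem_tg]
  by_cases hk : k = j
  · subst hk
    simp [h]
  · simp [hk]

theorem sg_tg_lt {i j : Fin t} (h : j < i) (Q : Finset (Fin t)) : sg i (tg j Q) = -sg i Q := by
  unfold sg
  rw [← sign_tg j]
  congr 2
  ext k
  rw [mem_filter, mem_tg, mem_tg, mem_filter, mem_filter]
  by_cases hk : k = j
  · subst hk
    simp [h]
  · simp [hk]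

/-- the operator of Huang -/
def A : (Finset (Fin t) → ℝ) →ₗ[ℝ] (Finset (Fin t) → ℝ) where
  toFun v x := ∑ i, sg i x * v (tg i x)
  map_add' v v' := by
    funext x
    simp only [Pi.add_apply, mul_add, sum_add_distrib]
  map_smul' c v := by
    funext x
    simp only [Pi.smul_apply, smul_eq_mul, RingHom.id_apply, mul_sum]
    exact sum_congr rfl fun i _ => by ring

theorem A_apply (v : Finset (Fin t) → ℝ) (x : Finset (Fin t)) : A v x = ∑ i, sg i x * v (tg i x) := rfl

theorem A_A (v : Finset (Fin t) → ℝ) : A (A v) = (t : ℝ) • v := by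
  funext x
  rw [A_apply, Pi.smul_apply, smul_eq_mul]
  simp only [A_apply, mul_sum]
  -- split the diagonal
  set F : Fin t → Fin t → ℝ := fun i j =>
    if i = j then 0 else sg i x * (sg j (tg i x) * v (tg j (tg i x))) with hF
  have h1 : ∀ i, ∑ j, sg i x * (sg j (tg i x) * v (tg j (tg i x))) = v x + ∑ j, F i j := by
    intro i
    rw [← Finset.add_sum_erase _ _ (mem_univ i), ← Finset.add_sum_erase univ (F i) (mem_univ i)]
    have h2 : sg i x * (sg i (tg i x) * v (tg i (tg i x))) = v x := by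
      rw [sg_tg_ge (lt_irrefl i), tg_tg, ← mul_assoc, sg_sq, one_mul]
    have h3 : F i i = 0 := by simp [hF]
    rw [h2, h3, zero_add]
    congr 1
    refine sum_congr rfl fun j hj => ?_
    rw [hF]
    simp [Ne.symm (ne_of_mem_erase hj)]
  rw [sum_congr rfl fun i _ => h1 i, sum_add_distrib, sum_const, card_univ, Fintype.card_fin,
    nsmul_eq_mul]
  have h4 : ∀ i j, F i j = -F j i := by
    intro i j
    rw [hF]
    simp only
    by_cases hij : i = j
    · subst hij
      simp
    · rw [if_neg hij, if_neg (Ne.symm hij), tg_comm j i x]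
      rcases lt_or_gt_of_ne hij with h | h
      · rw [sg_tg_lt h, sg_tg_ge (not_lt.2 h.le)]
        ring
      · rw [sg_tg_ge (not_lt.2 h.le), sg_tg_lt h]
        ring
  have h5 : ∑ i, ∑ j, F i j = 0 := by
    have h6 : ∑ i, ∑ j, F i j = -∑ i, ∑ j, F i j := by
      conv_lhs => rw [sum_comm]
      rw [← sum_neg_distrib]
      refine sum_congr rfl fun i _ => ?_
      rw [← sum_neg_distrib]
      exact sum_congr rfl fun j _ => h4 j i
    linarith
  rw [h5, add_zero]

/-- the shifted operator -/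
def Ac (c : ℝ) : (Finset (Fin t) → ℝ) →ₗ[ℝ] (Finset (Fin t) → ℝ) := A + c • LinearMap.id

theorem Ac_apply (c : ℝ) (v : Finset (Fin t) → ℝ) : Ac c v = A v + c • v := rfl

/-- a vector supported on a large set with `A v = c v` -/
theorem exists_vec (ht : 0 < t) (H : Finset (Finset (Fin t))) (hH : 2 ^ (t - 1) < H.card) :
    ∃ (c : ℝ) (v : Finset (Fin t) → ℝ), |c| = Real.sqrt t ∧ v ≠ 0 ∧ A v = c • v ∧
      ∀ x, x ∉ H → v x = 0 := by
  set r := Real.sqrt t with hr
  have ht' : (0 : ℝ) < t := by exact_mod_cast ht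
  have hr0 : 0 < r := Real.sqrt_pos.2 ht'
  have hrr : r * r = t := Real.mul_self_sqrt ht'.le
  set R1 := LinearMap.range (Ac (t := t) r) with hR1
  set R2 := LinearMap.range (Ac (t := t) (-r)) with hR2
  have hcard : Fintype.card (Finset (Fin t)) = 2 * 2 ^ (t - 1) := by
    rw [Fintype.card_finset, Fintype.card_fin, ← pow_succ']
    congr 1
    omega
  have htop : R1 ⊔ R2 = ⊤ := by
    rw [eq_top_iff]
    intro v _
    have h1 : v = Ac r ((2 * r)⁻¹ • v) + Ac (-r) (-((2 * r)⁻¹ • v)) := by
      have h2 : ∀ w : Finset (Fin t) → ℝ, Ac r w + Ac (-r) (-w) = (2 * r) • w := by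
        intro w
        rw [Ac_apply, Ac_apply, map_neg, smul_neg, neg_smul, neg_neg, mul_smul, two_smul]
        abel
      rw [h2, smul_smul, mul_inv_cancel₀ (by positivity), one_smul]
    rw [h1]
    exact Submodule.add_mem_sup ⟨_, rfl⟩ ⟨_, rfl⟩
  have hdim : 2 * 2 ^ (t - 1) ≤ Module.finrank ℝ R1 + Module.finrank ℝ R2 := by
    have h1 := Submodule.finrank_sup_add_finrank_inf_eq R1 R2
    rw [htop, finrank_top, Module.finrank_fintype_fun_eq_card, hcard] at h1
    omega
  -- one of the two ranges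
  obtain ⟨c, hc, R, hR, hdR⟩ : ∃ c : ℝ, |c| = r ∧ ∃ R : Submodule ℝ (Finset (Fin t) → ℝ),
      (∀ v ∈ R, A v = c • v) ∧ 2 ^ (t - 1) ≤ Module.finrank ℝ R := by
    have hA1 : ∀ v ∈ R1, A v = r • v := by
      rintro _ ⟨w, rfl⟩
      rw [Ac_apply, map_add, map_smul, A_A, smul_add, smul_smul, hrr]
      abel
    have hA2 : ∀ v ∈ R2, A v = (-r) • v := by
      rintro _ ⟨w, rfl⟩
      rw [Ac_apply, map_add, map_smul, A_A, smul_add, smul_smul, neg_mul_neg, hrr]
      abel
    rcases le_total (2 ^ (t - 1)) (Module.finrank ℝ R1) with h | h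
    · exact ⟨r, abs_of_pos hr0, R1, hA1, h⟩
    · exact ⟨-r, by rw [abs_neg, abs_of_pos hr0], R2, hA2, by omega⟩
  -- the support
  let f : R →ₗ[ℝ] ({x // x ∉ H} → ℝ) :=
    { toFun := fun v x => v.1 x.1
      map_add' := fun _ _ => rfl
      map_smul' := fun _ _ => rfl }
  have hlt : Module.finrank ℝ ({x // x ∉ H} → ℝ) < Module.finrank ℝ R := by
    rw [Module.finrank_fintype_fun_eq_card]
    have h1 : Fintype.card {x // x ∉ H} = Fintype.card (Finset (Fin t)) - H.card := by
      rw [Fintype.card_subtype_compl, Fintype.card_coe]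
    rw [h1, hcard]
    have h2 : 0 < 2 ^ (t - 1) := by positivity
    omega
  have hker := LinearMap.ker_ne_bot_of_finrank_lt (f := f) hlt
  obtain ⟨v, hv1, hv2⟩ := Submodule.exists_mem_ne_zero_of_ne_bot hker
  refine ⟨c, v.1, hc, fun h => hv2 (Subtype.ext h), hR v.1 v.2, fun x hx => ?_⟩
  have h1 := congrFun (LinearMap.mem_ker.1 hv1) ⟨x, hx⟩
  exact h1

/-- a point of a large set with many neighbours -/
theorem exists_pt (ht : 0 < t) (H : Finset (Finset (Fin t))) (hH : 2 ^ (t - 1) < H.card) :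
    ∃ x ∈ H, (t : ℝ) ≤ ((univ.filter fun i => tg i x ∈ H).card : ℝ) ^ 2 := by
  obtain ⟨c, v, hc, hv0, hv, hs⟩ := exists_vec ht H hH
  obtain ⟨x, hx⟩ := Finite.exists_max fun x => |v x|
  have hx0 : 0 < |v x| := by
    obtain ⟨y, hy⟩ := Function.ne_iff.1 hv0
    exact lt_of_lt_of_le (abs_pos.2 hy) (hx y)
  have hxH : x ∈ H := by
    by_contra h
    rw [hs x h, abs_zero] at hx0
    exact lt_irrefl _ hx0
  refine ⟨x, hxH, ?_⟩
  have h1 : c * v x = ∑ i, sg i x * v (tg i x) := by
    have h2 := congrFun hv x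
    rw [A_apply, Pi.smul_apply, smul_eq_mul] at h2
    exact h2.symm
  have h2 : |c| * |v x| ≤ ((univ.filter fun i => tg i x ∈ H).card : ℝ) * |v x| := by
    rw [← abs_mul, h1]
    refine (abs_sum_le_sum_abs _ _).trans ?_
    have h3 : ∀ i ∈ (univ : Finset (Fin t)), |sg i x * v (tg i x)| ≤
        if tg i x ∈ H then |v x| else 0 := by
      intro i _
      rw [abs_mul, abs_sg, one_mul]
      split_ifs with h
      · exact hx _
      · rw [hs _ h, abs_zero]
    refine (sum_le_sum h3).trans (le_of_eq ?_)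
    rw [← sum_filter, sum_const, nsmul_eq_mul]
  have h3 : Real.sqrt t ≤ ((univ.filter fun i => tg i x ∈ H).card : ℝ) := by
    rw [← hc]
    exact le_of_mul_le_mul_right h2 hx0
  have h4 : (t : ℝ) = Real.sqrt t ^ 2 := (Real.sq_sqrt (Nat.cast_nonneg t)).symm
  rw [h4]
  exact pow_le_pow_left₀ (Real.sqrt_nonneg _) h3 2

/-- the theorem on the cube -/
theorem core (ht : 0 < t) (g : Finset (Fin t) → Bool)
    (h : ∑ Q : Finset (Fin t), (-1 : ℤ) ^ Q.card * (if g Q then 1 else 0) ≠ 0) :
    ∃ Q, (t : ℝ) ≤ ((univ.filter fun i => g (tg i Q) ≠ g Q).card : ℝ) ^ 2 := by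
  set F : Finset (Fin t) → ℤ := fun Q => (-1) ^ Q.card * (if g Q then -1 else 1) with hF
  have hF1 : ∀ Q, F Q = 1 ∨ F Q = -1 := by
    intro Q
    rw [hF]
    simp only
    rcases neg_one_pow_eq_or ℤ Q.card with h1 | h1 <;> rw [h1] <;> split_ifs <;> simp
  -- the sum of the signs vanishes
  have hS : ∑ Q : Finset (Fin t), (-1 : ℤ) ^ Q.card = 0 := by
    let i0 : Fin t := ⟨0, ht⟩
    have h1 : ∑ Q : Finset (Fin t), (-1 : ℤ) ^ Q.card = ∑ Q : Finset (Fin t), -(-1 : ℤ) ^ Q.card := by
      refine Fintype.sum_equiv ⟨tg i0, tg i0, tg_tg i0, tg_tg i0⟩ _ _ fun Q => ?_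
      show (-1 : ℤ) ^ Q.card = -(-1 : ℤ) ^ (tg i0 Q).card
      rw [sign_tgZ, neg_neg]
    rw [sum_neg_distrib] at h1
    omega
  have hFs : ∑ Q, F Q ≠ 0 := by
    intro h1
    apply h
    have h2 : ∑ Q, F Q = ∑ Q : Finset (Fin t), (-1 : ℤ) ^ Q.card -
        2 * ∑ Q : Finset (Fin t), (-1 : ℤ) ^ Q.card * (if g Q then 1 else 0) := by
      rw [mul_sum, ← sum_sub_distrib]
      refine sum_congr rfl fun Q _ => ?_
      rw [hF]
      simp only
      split_ifs <;> ring
    rw [h1, hS] at h2
    omega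
  have hcard : (univ : Finset (Finset (Fin t))).card = 2 * 2 ^ (t - 1) := by
    rw [card_univ, Fintype.card_finset, Fintype.card_fin, ← pow_succ']
    congr 1
    omega
  have hsum : ∑ Q, F Q = ((univ.filter fun Q => F Q = 1).card : ℤ) -
      ((univ.filter fun Q => ¬ F Q = 1).card : ℤ) := by
    rw [← Finset.sum_filter_add_sum_filter_not univ (fun Q => F Q = 1)]
    have h1 : ∑ Q ∈ univ.filter (fun Q => F Q = 1), F Q = ((univ.filter fun Q => F Q = 1).card : ℤ) := by
      rw [sum_congr rfl fun Q hQ => (mem_filter.1 hQ).2, sum_const, nsmul_eq_mul, mul_one]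
    have h2 : ∑ Q ∈ univ.filter (fun Q => ¬ F Q = 1), F Q =
        -((univ.filter fun Q => ¬ F Q = 1).card : ℤ) := by
      rw [sum_congr rfl fun Q hQ => (hF1 Q).resolve_left (mem_filter.1 hQ).2, sum_const,
        nsmul_eq_mul, mul_neg, mul_one]
    rw [h1, h2]
    ring
  have htot := Finset.card_filter_add_card_filter_not (s := (univ : Finset (Finset (Fin t))))
    (fun Q => F Q = 1)
  rw [hcard] at htot
  -- neighbours in the class are the sensitive coordinates
  have hFt : ∀ i Q, F (tg i Q) = F Q ↔ g (tg i Q) ≠ g Q := by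
    intro i Q
    rw [hF]
    simp only
    rw [sign_tgZ]
    rcases neg_one_pow_eq_or ℤ Q.card with h1 | h1 <;> rw [h1] <;>
      cases g (tg i Q) <;> cases g Q <;> simp
  have hcl : ∀ e : ℤ, ∀ Q, F Q = e →
      (univ.filter fun i => F (tg i Q) = e) = (univ.filter fun i => g (tg i Q) ≠ g Q) := by
    intro e Q hQ
    ext i
    rw [mem_filter, mem_filter, ← hFt, hQ]
  rcases lt_or_ge (2 ^ (t - 1)) (univ.filter fun Q => F Q = 1).card with h1 | h1
  · obtain ⟨Q, hQ, h2⟩ := exists_pt ht _ h1
    refine ⟨Q, ?_⟩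
    rw [← hcl 1 Q (mem_filter.1 hQ).2]
    simpa using h2
  · have h3 : 2 ^ (t - 1) < (univ.filter fun Q => ¬ F Q = 1).card := by
      rw [hsum] at hFs
      omega
    obtain ⟨Q, hQ, h2⟩ := exists_pt ht _ h3
    refine ⟨Q, ?_⟩
    have h4 : F Q = -1 := (hF1 Q).resolve_left (mem_filter.1 hQ).2
    have h5 : (univ.filter fun i => tg i Q ∈ univ.filter fun Q => ¬ F Q = 1) =
        univ.filter fun i => F (tg i Q) = -1 := by
      ext i
      rw [mem_filter, mem_filter, mem_filter]
      constructor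
      · rintro ⟨h6, _, h7⟩
        exact ⟨h6, (hF1 _).resolve_left h7⟩
      · rintro ⟨h6, h7⟩
        exact ⟨h6, mem_univ _, by rw [h7]; norm_num⟩
    rw [← hcl (-1) Q h4, ← h5]
    exact h2

end Op

end Huang76

open Huang76 in
theorem full_degree_sens {α : Type} [DecidableEq α] (g : Finset α → Bool) (w P : Finset α)
    (h : ce g w P ≠ 0) : ∃ Q ⊆ P,
      (P.card : ℝ) ≤ ((Q.filter fun i => g (w ∪ Q.erase i) ≠ g (w ∪ Q)).card +
        ((P \ Q).filter fun i => g (w ∪ insert i Q) ≠ g (w ∪ Q)).card : ℝ) ^ 2 := by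
  classical
  rcases Nat.eq_zero_or_pos P.card with hP | hP
  · refine ⟨∅, empty_subset _, ?_⟩
    rw [hP]
    push_cast
    positivity
  set t := P.card with ht
  let e : Fin t ≃ {x // x ∈ P} := (P.equivFin).symm
  let m : Fin t ↪ α := e.toEmbedding.trans (Function.Embedding.subtype _)
  have hm : ∀ i, m i ∈ P := fun i => (e i).2
  have hms : ∀ a ∈ P, ∃ i, m i = a := fun a ha => ⟨e.symm ⟨a, ha⟩, by
    show (e (e.symm ⟨a, ha⟩)).1 = a
    rw [e.apply_symm_apply]⟩
  -- the sum
  have hsum : ce g w P = (-1) ^ t * ∑ Q : Finset (Fin t), (-1 : ℤ) ^ Q.card *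
      (if g (w ∪ Q.map m) then 1 else 0) := by
    unfold ce
    rw [mul_sum]
    symm
    refine Finset.sum_bij (fun Q _ => Q.map m) ?_ ?_ ?_ ?_
    · intro Q _
      rw [mem_powerset]
      intro a ha
      obtain ⟨i, _, rfl⟩ := mem_map.1 ha
      exact hm i
    · intro Q _ Q' _ h
      exact map_injective m h
    · intro Q hQ
      rw [mem_powerset] at hQ
      refine ⟨univ.filter fun i => m i ∈ Q, mem_univ _, ?_⟩
      ext a
      rw [mem_map]
      constructor
      · rintro ⟨i, hi, rfl⟩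
        exact (mem_filter.1 hi).2
      · intro ha
        obtain ⟨i, rfl⟩ := hms a (hQ ha)
        exact ⟨i, mem_filter.2 ⟨mem_univ _, ha⟩, rfl⟩
    · intro Q _
      have h1 : (P \ Q.map m).card = t - Q.card := by
        rw [card_sdiff_of_subset, card_map]
        intro a ha
        obtain ⟨i, _, rfl⟩ := mem_map.1 ha
        exact hm i
      have h2 : Q.card ≤ t := by
        have := card_le_univ Q
        rwa [Fintype.card_fin] at this
      have h3 : (-1 : ℤ) ^ t * (-1) ^ Q.card = (-1) ^ (t - Q.card) := by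
        have h4 : (-1 : ℤ) ^ t = (-1) ^ (t - Q.card) * (-1) ^ Q.card := by
          rw [← pow_add, Nat.sub_add_cancel h2]
        rw [h4, mul_assoc, ← mul_pow]
        norm_num
      rw [h1, ← mul_assoc, h3]
  obtain ⟨Q, hQ⟩ := core hP (fun Q => g (w ∪ Q.map m)) (by
    intro h1
    apply h
    rw [hsum, h1, mul_zero])
  refine ⟨Q.map m, ?_, ?_⟩
  · intro a ha
    obtain ⟨i, _, rfl⟩ := mem_map.1 ha
    exact hm i
  · have h1 : (univ.filter fun i => g (w ∪ (tg i Q).map m) ≠ g (w ∪ Q.map m)).card =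
        ((Q.map m).filter fun i => g (w ∪ (Q.map m).erase i) ≠ g (w ∪ Q.map m)).card +
        ((P \ Q.map m).filter fun i => g (w ∪ insert i (Q.map m)) ≠ g (w ∪ Q.map m)).card := by
      rw [← card_union_of_disjoint]
      · rw [← card_map m]
        congr 1
        ext a
        rw [mem_map, mem_union, mem_filter, mem_filter, mem_sdiff]
        constructor
        · rintro ⟨i, hi, rfl⟩
          have hi' := (mem_filter.1 hi).2
          by_cases hiQ : i ∈ Q
          · left
            refine ⟨mem_map_of_mem _ hiQ, ?_⟩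
            rw [← map_erase]
            unfold tg at hi'
            rwa [if_pos hiQ] at hi'
          · right
            refine ⟨⟨hm i, fun h2 => hiQ ((mem_map' m).1 h2)⟩, ?_⟩
            rw [← map_insert]
            unfold tg at hi'
            rwa [if_neg hiQ] at hi'
        · rintro (⟨h2, h3⟩ | ⟨⟨h2, h3⟩, h4⟩)
          · obtain ⟨i, hi, rfl⟩ := mem_map.1 h2
            refine ⟨i, mem_filter.2 ⟨mem_univ _, ?_⟩, rfl⟩
            unfold tg
            rw [if_pos hi, map_erase]
            exact h3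
          · obtain ⟨i, rfl⟩ := hms a h2
            have hi : i ∉ Q := fun h5 => h3 (mem_map_of_mem _ h5)
            refine ⟨i, mem_filter.2 ⟨mem_univ _, ?_⟩, rfl⟩
            unfold tg
            rw [if_neg hi, map_insert]
            exact h4
      · rw [disjoint_left]
        intro a ha hb
        exact (mem_sdiff.1 (mem_filter.1 hb).1).2 (mem_filter.1 ha).1
    have h2 : ((univ.filter fun i => g (w ∪ (tg i Q).map m) ≠ g (w ∪ Q.map m)).card : ℝ) =
        (((Q.map m).filter fun i => g (w ∪ (Q.map m).erase i) ≠ g (w ∪ Q.map m)).card : ℝ) +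
        (((P \ Q.map m).filter fun i => g (w ∪ insert i (Q.map m)) ≠ g (w ∪ Q.map m)).card : ℝ) := by
      exact_mod_cast h1
    rw [← h2]
    exact hQ

end Pool.Agent.Helper17.AQ
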