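import Pool.Agent.Helper17.AQ.Defs

/-! AQ5: the pattern matrix inequality. psi^(S) = 2^-m sum_z psi z chi S z; |psi^(S)| <= 2^-m, = 0 for |S| <= D.
psi z = sum_S psi^(S) chi S z, chi S (pat x V w) = chi (V_S) x * chi S w, V_S = {(i, V i) : i in S}. So for fixed V:
sum_w |sum_x psi(pat) h x|^2 = 2^m sum_S |psi^(S)|^2 |h^(V_S)|^2 (orthogonality in w), h^(U) = sum_x chi U x h x.
Each U is V_S for at most 2^(m-|S|) pairs (S, V) (U determines S, and V on S): sum_{|S| >= D+1, V} |h^(V_S)|^2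
<= 2^(m-D-1) sum_U |h^(U)|^2 = 2^(m-D-1) 4^m sum_x |h x|^2 (Parseval). Total 2^m 4^-m 2^(m-D-1) 4^m = 4^m / 2^(D+1). -/

set_option autoImplicit false

namespace Pool.Agent.Helper17.AQ

open Finset Pool.Agent.Results.MP_799357_lc.DetVsQuantum

private lemma chi_orth63 {I : Type} [Fintype I] [DecidableEq I] (x y : I → Bool) :
    ∑ U : Finset I, chi U x * chi U y = if x = y then (2 : ℝ) ^ Fintype.card I else 0 := by
  have e : ∑ U : Finset I, chi U x * chi U y =
      ∏ i : I, (1 + (if x i then (-1 : ℝ) else 1) * (if y i then (-1 : ℝ) else 1)) := by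
    rw [Finset.prod_one_add, Finset.powerset_univ]
    refine Finset.sum_congr rfl fun U _ => ?_
    unfold chi
    rw [← Finset.prod_mul_distrib]
  rw [e]
  split_ifs with hxy
  · subst hxy
    rw [Finset.prod_congr rfl (g := fun _ => (2 : ℝ)) (fun i _ => by cases x i <;> norm_num)]
    rw [Finset.prod_const, Finset.card_univ]
  · obtain ⟨i, hi⟩ := Function.ne_iff.1 hxy
    refine Finset.prod_eq_zero (Finset.mem_univ i) ?_
    revert hi
    cases x i <;> cases y i <;> simp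

private lemma parseval63 {I : Type} [Fintype I] [DecidableEq I] (h : (I → Bool) → ℂ) :
    ∑ U : Finset I, ‖∑ x, (chi U x : ℂ) * h x‖ ^ 2 = (2 : ℝ) ^ Fintype.card I * ∑ x, ‖h x‖ ^ 2 := by
  have key : ((∑ U : Finset I, ‖∑ x, (chi U x : ℂ) * h x‖ ^ 2 : ℝ) : ℂ) =
      (((2 : ℝ) ^ Fintype.card I * ∑ x, ‖h x‖ ^ 2 : ℝ) : ℂ) := by
    push_cast
    have e1 : ∀ U : Finset I, ((‖∑ x, (chi U x : ℂ) * h x‖ : ℝ) : ℂ) ^ 2 =
        ∑ x, ∑ y, ((chi U x * chi U y : ℝ) : ℂ) * (h x * (starRingEnd ℂ) (h y)) := by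
      intro U
      rw [← Complex.mul_conj', map_sum, Finset.sum_mul_sum]
      refine Finset.sum_congr rfl fun x _ => Finset.sum_congr rfl fun y _ => ?_
      rw [map_mul, Complex.conj_ofReal]
      push_cast
      ring
    rw [Finset.sum_congr rfl fun U _ => e1 U, Finset.sum_comm, Finset.mul_sum]
    refine Finset.sum_congr rfl fun x _ => ?_
    rw [Finset.sum_comm, Finset.sum_eq_single x]
    · rw [← Finset.sum_mul, ← Complex.ofReal_sum, chi_orth63, if_pos rfl, Complex.mul_conj']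
      push_cast
      rfl
    · intro y _ hy
      rw [← Finset.sum_mul, ← Complex.ofReal_sum, chi_orth63, if_neg (Ne.symm hy)]
      simp
    · intro hx
      exact absurd (Finset.mem_univ x) hx
  exact_mod_cast key

private def vs63 {m : ℕ} (V : Fin m → Bool) (S : Finset (Fin m)) : Finset (Fin m × Bool) := S.image fun i => (i, V i)

private lemma chi_vs63 {m : ℕ} (V : Fin m → Bool) (S : Finset (Fin m)) (x : Fin m × Bool → Bool) (w : Fin m → Bool) :
    chi S w = chi (vs63 V S) x * chi S (pat x V w) := by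
  unfold chi vs63 pat
  rw [Finset.prod_image (fun i _ j _ hij => (Prod.ext_iff.1 hij).1), ← Finset.prod_mul_distrib]
  refine Finset.prod_congr rfl fun i _ => ?_
  cases x (i, V i) <;> cases w i <;> simp

private lemma pat_pat63 {m : ℕ} (x : Fin m × Bool → Bool) (V w : Fin m → Bool) : pat x V (pat x V w) = w := by
  funext i
  unfold pat
  cases x (i, V i) <;> cases w i <;> simp

private lemma sum_pat63 {m : ℕ} (x : Fin m × Bool → Bool) (V : Fin m → Bool) (G : (Fin m → Bool) → ℂ) :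
    ∑ w, G (pat x V w) = ∑ w, G w :=
  Equiv.sum_comp (Function.Involutive.toPerm (pat x V) (pat_pat63 x V)) G

private lemma fhat63 {m : ℕ} (psi : (Fin m → Bool) → ℝ) (h : (Fin m × Bool → Bool) → ℂ) (V : Fin m → Bool)
    (S : Finset (Fin m)) :
    ∑ w : Fin m → Bool, (chi S w : ℂ) * ∑ x : Fin m × Bool → Bool, (psi (pat x V w) : ℂ) * h x =
      ((∑ z, psi z * chi S z : ℝ) : ℂ) * ∑ x, (chi (vs63 V S) x : ℂ) * h x := by
  simp_rw [Finset.mul_sum]
  rw [Finset.sum_comm]
  refine Finset.sum_congr rfl fun x _ => ?_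
  have e : ∀ w : Fin m → Bool, (chi S w : ℂ) * ((psi (pat x V w) : ℂ) * h x) =
      (fun z => (((psi z * chi S z : ℝ) : ℂ)) * ((chi (vs63 V S) x : ℂ) * h x)) (pat x V w) := by
    intro w
    rw [chi_vs63 V S x w]
    push_cast
    ring
  rw [Finset.sum_congr rfl fun w _ => e w,
    sum_pat63 x V (fun z => (((psi z * chi S z : ℝ) : ℂ)) * ((chi (vs63 V S) x : ℂ) * h x)), ← Finset.sum_mul,
    ← Complex.ofReal_sum]

private lemma psihat63 {m : ℕ} (psi : (Fin m → Bool) → ℝ) (h1 : ∑ z, |psi z| ≤ 1) (S : Finset (Fin m)) :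
    |∑ z, psi z * chi S z| ≤ 1 := by
  refine (Finset.abs_sum_le_sum_abs _ _).trans (le_trans (le_of_eq ?_) h1)
  refine Finset.sum_congr rfl fun z _ => ?_
  have : |chi S z| = 1 := by
    unfold chi
    rw [Finset.abs_prod]
    refine Finset.prod_eq_one fun i _ => ?_
    split_ifs <;> simp
  rw [abs_mul, this, mul_one]

private lemma row63 {m : ℕ} (D : ℕ) (psi : (Fin m → Bool) → ℝ) (h1 : ∑ z, |psi z| ≤ 1)
    (hD : ∀ S : Finset (Fin m), S.card ≤ D → ∑ z, psi z * chi S z = 0)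
    (h : (Fin m × Bool → Bool) → ℂ) (V : Fin m → Bool) :
    2 ^ m * ∑ w : Fin m → Bool, ‖∑ x : Fin m × Bool → Bool, (psi (pat x V w) : ℂ) * h x‖ ^ 2 ≤
      ∑ S ∈ univ.filter (fun S : Finset (Fin m) => D + 1 ≤ S.card), ‖∑ x, (chi (vs63 V S) x : ℂ) * h x‖ ^ 2 := by
  have e := parseval63 (fun w : Fin m → Bool => ∑ x : Fin m × Bool → Bool, (psi (pat x V w) : ℂ) * h x)
  rw [Fintype.card_fin] at e
  rw [← e, Finset.sum_filter]
  refine Finset.sum_le_sum fun S _ => ?_
  rw [fhat63]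
  split_ifs with hS
  · rw [norm_mul, mul_pow, Complex.norm_real, Real.norm_eq_abs]
    have h2 : |∑ z, psi z * chi S z| ^ 2 ≤ 1 := pow_le_one₀ (abs_nonneg _) (psihat63 psi h1 S)
    exact mul_le_of_le_one_left (by positivity) h2
  · rw [hD S (by omega)]
    simp

private lemma fiber63 {m : ℕ} (D : ℕ) (U : Finset (Fin m × Bool)) :
    (((univ.filter (fun S : Finset (Fin m) => D + 1 ≤ S.card)) ×ˢ (univ : Finset (Fin m → Bool))).filter
      (fun p => vs63 p.2 p.1 = U)).card * 2 ^ (D + 1) ≤ 2 ^ m := by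
  classical
  set X := (((univ.filter (fun S : Finset (Fin m) => D + 1 ≤ S.card)) ×ˢ (univ : Finset (Fin m → Bool))).filter
      (fun p => vs63 p.2 p.1 = U)) with hX
  rcases X.eq_empty_or_nonempty with h0 | ⟨⟨S0, V0⟩, h0⟩
  · rw [h0]
    simp
  rw [hX, Finset.mem_filter, Finset.mem_product, Finset.mem_filter] at h0
  obtain ⟨⟨⟨_, hS0⟩, _⟩, hU⟩ := h0
  simp only at hS0 hU
  have hfst : ∀ (V : Fin m → Bool) (S : Finset (Fin m)), (vs63 V S).image Prod.fst = S := by
    intro V S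
    unfold vs63
    rw [Finset.image_image]
    simp [Function.comp_def]
  have hsub : X ⊆ ({S0} : Finset (Finset (Fin m))) ×ˢ
      (Fintype.piFinset fun i : Fin m => if i ∈ S0 then ({V0 i} : Finset Bool) else univ) := by
    rintro ⟨S, V⟩ hp
    rw [hX, Finset.mem_filter] at hp
    have hSV : vs63 V S = vs63 V0 S0 := hp.2.trans hU.symm
    have hS : S = S0 := by rw [← hfst V S, hSV, hfst]
    rw [Finset.mem_product, Finset.mem_singleton, Fintype.mem_piFinset]
    refine ⟨hS, fun i => ?_⟩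
    split_ifs with hi
    · rw [Finset.mem_singleton]
      have h1 : (i, V i) ∈ vs63 V0 S0 := by
        rw [← hSV, hS]
        exact Finset.mem_image.2 ⟨i, hi, rfl⟩
      obtain ⟨j, _, hj⟩ := Finset.mem_image.1 h1
      rw [Prod.ext_iff] at hj
      obtain ⟨h2, h3⟩ := hj
      simp only at h2 h3
      subst h2
      exact h3.symm
    · exact Finset.mem_univ _
  have hcard := Finset.card_le_card hsub
  rw [Finset.card_product, Finset.card_singleton, one_mul, Fintype.card_piFinset] at hcard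
  have hprod : ∏ i : Fin m, (if i ∈ S0 then ({V0 i} : Finset Bool) else univ).card = 2 ^ (m - S0.card) := by
    have e1 : ∀ i : Fin m, (if i ∈ S0 then ({V0 i} : Finset Bool) else univ).card = if i ∈ S0 then 1 else 2 := by
      intro i
      split_ifs <;> simp
    rw [Finset.prod_congr rfl fun i _ => e1 i, Finset.prod_ite]
    simp only [Finset.prod_const_one, one_mul, Finset.prod_const]
    congr 1
    have e2 : univ.filter (fun i : Fin m => i ∉ S0) = S0ᶜ := by
      ext i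
      simp
    rw [e2, Finset.card_compl, Fintype.card_fin]
  rw [hprod] at hcard
  have hSm : S0.card ≤ m := by
    have := Finset.card_le_univ S0
    rwa [Fintype.card_fin] at this
  calc X.card * 2 ^ (D + 1) ≤ 2 ^ (m - S0.card) * 2 ^ (D + 1) := Nat.mul_le_mul_right _ hcard
    _ ≤ 2 ^ (m - S0.card) * 2 ^ S0.card := Nat.mul_le_mul_left _ (Nat.pow_le_pow_right (by norm_num) hS0)
    _ = 2 ^ m := by rw [← pow_add]; congr 1; omega

private lemma count63 {m : ℕ} (D : ℕ) (G : Finset (Fin m × Bool) → ℝ) (hG : ∀ U, 0 ≤ G U) :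
    (∑ V : Fin m → Bool, ∑ S ∈ univ.filter (fun S : Finset (Fin m) => D + 1 ≤ S.card), G (vs63 V S)) * 2 ^ (D + 1) ≤
      2 ^ m * ∑ U, G U := by
  classical
  rw [Finset.sum_comm, ← Finset.sum_product' (f := fun S V => G (vs63 V S))]
  rw [← Finset.sum_fiberwise_of_maps_to (g := fun p : Finset (Fin m) × (Fin m → Bool) => vs63 p.2 p.1)
    (t := (univ : Finset (Finset (Fin m × Bool)))) (fun _ _ => Finset.mem_univ _), Finset.sum_mul, Finset.mul_sum]
  refine Finset.sum_le_sum fun U _ => ?_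
  rw [Finset.sum_congr rfl (g := fun _ => G U) (fun p hp => by rw [(Finset.mem_filter.1 hp).2]), Finset.sum_const,
    nsmul_eq_mul]
  have h := fiber63 D U
  have h' : ((((univ.filter (fun S : Finset (Fin m) => D + 1 ≤ S.card)) ×ˢ (univ : Finset (Fin m → Bool))).filter
      (fun p => vs63 p.2 p.1 = U)).card : ℝ) * 2 ^ (D + 1) ≤ 2 ^ m := by
    exact_mod_cast h
  nlinarith [hG U]

theorem pattern (m D : ℕ) (psi : (Fin m → Bool) → ℝ) (h1 : ∑ z, |psi z| ≤ 1)
    (hD : ∀ S : Finset (Fin m), S.card ≤ D → ∑ z, psi z * chi S z = 0)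
    (h : (Fin m × Bool → Bool) → ℂ) :
    ∑ V : Fin m → Bool, ∑ w : Fin m → Bool,
      ‖∑ x : Fin m × Bool → Bool, (psi (pat x V w) : ℂ) * h x‖ ^ 2 ≤
        (4 : ℝ) ^ m / 2 ^ (D + 1) * ∑ x, ‖h x‖ ^ 2 := by
  have hrow : 2 ^ m * ∑ V : Fin m → Bool, ∑ w : Fin m → Bool,
      ‖∑ x : Fin m × Bool → Bool, (psi (pat x V w) : ℂ) * h x‖ ^ 2 ≤
      ∑ V : Fin m → Bool, ∑ S ∈ univ.filter (fun S : Finset (Fin m) => D + 1 ≤ S.card),
        ‖∑ x, (chi (vs63 V S) x : ℂ) * h x‖ ^ 2 := by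
    rw [Finset.mul_sum]
    exact Finset.sum_le_sum fun V _ => row63 D psi h1 hD h V
  have hcount := count63 D (fun U : Finset (Fin m × Bool) => ‖∑ x, (chi U x : ℂ) * h x‖ ^ 2) (fun U => by positivity)
  rw [parseval63, Fintype.card_prod, Fintype.card_fin, Fintype.card_bool] at hcount
  have h4 : (2 : ℝ) ^ (m * 2) = 4 ^ m := by
    rw [mul_comm, pow_mul]
    norm_num
  rw [h4] at hcount
  have h2m : (0 : ℝ) < 2 ^ m := by positivity
  have h2D : (0 : ℝ) < 2 ^ (D + 1) := by positivity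
  rw [div_mul_eq_mul_div, le_div_iff₀ h2D]
  have h5 := mul_le_mul_of_nonneg_right hrow h2D.le
  have h6 := h5.trans hcount
  rw [mul_assoc] at h6
  exact le_of_mul_le_mul_left h6 h2m

end Pool.Agent.Helper17.AQ
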