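import Pool.Agent.Helper17.AQ.Dual
import Pool.Agent.Helper17.AQ.Pattern

/-! AQ6 -/

set_option autoImplicit false

namespace Pool.Agent.Helper17.AQ

open Finset Pool.Agent.Results.MP_799357_lc.DetVsQuantum

/-- the set of a row -/
def aS {m : ℕ} (x : Fin m × Bool → Bool) : Finset (I4 m) :=
  univ.filter fun p => xor (x (p.1, p.2.1)) p.2.2 = true

/-- the set of a column -/
def bS {m : ℕ} (V w : Fin m → Bool) : Finset (I4 m) := univ.image fun i => (i, V i, w i)

theorem card_aS {m : ℕ} (x : Fin m × Bool → Bool) : (aS x).card = 2 * m := by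
  have h : aS x = (univ : Finset (Fin m × Bool)).image fun q => ((q.1, q.2, !(x q)) : I4 m) := by
    ext ⟨i, v, s⟩
    simp only [aS, mem_filter, mem_univ, true_and, mem_image, Prod.mk.injEq, Prod.exists]
    constructor
    · intro h
      refine ⟨i, v, rfl, rfl, ?_⟩
      revert h
      cases x (i, v) <;> cases s <;> simp
    · rintro ⟨i', v', rfl, rfl, rfl⟩
      cases x (i', v') <;> simp
  rw [h, card_image_of_injective]
  · simp [mul_comm]
  · rintro ⟨i, v⟩ ⟨i', v'⟩ h
    simp only [Prod.mk.injEq] at h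
    exact Prod.ext h.1 h.2.1

theorem card_bS {m : ℕ} (V w : Fin m → Bool) : (bS V w).card = m := by
  rw [bS, card_image_of_injective]
  · simp
  · intro i j h
    exact (Prod.ext_iff.1 h).1

theorem card_inter {m : ℕ} (x : Fin m × Bool → Bool) (V w : Fin m → Bool) :
    (aS x ∩ bS V w).card = wt (pat x V w) := by
  have h : aS x ∩ bS V w = (univ.filter fun i => pat x V w i = true).image
      fun i => ((i, V i, w i) : I4 m) := by
    ext ⟨i, v, s⟩
    simp only [aS, bS, pat, mem_inter, mem_filter, mem_univ, true_and, mem_image, Prod.mk.injEq]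
    constructor
    · rintro ⟨h1, j, rfl, rfl, rfl⟩
      exact ⟨j, h1, rfl, rfl, rfl⟩
    · rintro ⟨j, h1, rfl, rfl, rfl⟩
      exact ⟨h1, j, rfl, rfl, rfl⟩
  rw [h, card_image_of_injective]
  · rfl
  · intro i j h
    exact (Prod.ext_iff.1 h).1

/-- the shift which gives the pattern `z` -/
def sft {m : ℕ} (x : Fin m × Bool → Bool) (V z : Fin m → Bool) : Fin m → Bool :=
  fun i => xor (x (i, V i)) (z i)

theorem pat_sft {m : ℕ} (x : Fin m × Bool → Bool) (V z : Fin m → Bool) :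
    pat x V (sft x V z) = z := by
  funext i
  simp [pat, sft]

theorem sum_pat {m : ℕ} (x : Fin m × Bool → Bool) (V : Fin m → Bool)
    (G : (Fin m → Bool) → (Fin m → Bool) → ℝ) :
    ∑ w, G (pat x V w) w = ∑ z, G z (sft x V z) := by
  refine Finset.sum_bij' (fun w _ => pat x V w) (fun z _ => sft x V z)
    (fun _ _ => mem_univ _) (fun _ _ => mem_univ _) ?_ ?_ ?_
  · intro w _
    funext i
    simp [pat, sft]
  · intro z _
    exact pat_sft x V z
  · intro w _
    congr 1
    funext i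
    simp [pat, sft]

theorem lower (m D c : ℕ) (gam e g : ℝ) (hg : 0 < gam) (hg1 : gam ≤ 1)
    (hc : 28 ≤ (c : ℝ) * gam) (hcD : c * D ^ 2 ≤ m) (hm : 1 ≤ m)
    (M : Finset (I4 m) → Finset (I4 m) → ℝ) (h01 : ∀ a b, 0 ≤ M a b ∧ M a b ≤ 1)
    (h0 : ∀ a b : Finset (I4 m), a.card = 2 * m → b.card = m → (a ∩ b).card = 0 → M a b ≤ e)
    (h1 : ∀ a b : Finset (I4 m), a.card = 2 * m → b.card = m → (a ∩ b).card = 1 →
      e + gam ≤ M a b)
    (hF : Fac M g) : gam / 4 * (2 : ℝ) ^ (((D : ℝ) + 1) / 2) ≤ g := by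
  obtain ⟨psi, hp1, hp2, hp3⟩ := dual_poly m D c gam hg hg1 hc hcD hm
  have hg0 : 0 ≤ g := hF.elim fun ι h => by
    obtain ⟨hι, u, v, -, h2, -⟩ := h
    exact (Finset.sum_nonneg fun i _ => by positivity).trans (h2 ∅)
  obtain ⟨ι, hι, u, v, e1, e2, e3⟩ := hF
  -- the averaged function
  set be : (Fin m → Bool) → ℝ := fun z =>
    (∑ x : Fin m × Bool → Bool, ∑ V : Fin m → Bool, M (aS x) (bS V (sft x V z))) / 8 ^ m with hbe
  have hcard : (∑ x : Fin m × Bool → Bool, ∑ V : Fin m → Bool, (1 : ℝ)) = 8 ^ m := by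
    simp only [Finset.sum_const, Finset.card_univ, Fintype.card_pi, Fintype.card_bool,
      Finset.prod_const, Fintype.card_prod, Fintype.card_fin, nsmul_eq_mul, mul_one]
    push_cast
    rw [mul_comm m 2, pow_mul]
    norm_num
    rw [← mul_pow]
    norm_num
  have h8 : (0 : ℝ) < 8 ^ m := by positivity
  have hlow : gam / 4 ≤ ∑ z, psi z * be z := by
    refine hp3 e be ?_ ?_ ?_
    · intro z
      constructor
      · refine div_nonneg (Finset.sum_nonneg fun x _ => Finset.sum_nonneg fun V _ => ?_) h8.le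
        exact (h01 _ _).1
      · rw [hbe]
        simp only
        rw [div_le_one h8, ← hcard]
        exact Finset.sum_le_sum fun x _ => Finset.sum_le_sum fun V _ => (h01 _ _).2
    · intro z hz
      rw [hbe]
      simp only
      rw [div_le_iff₀ h8, ← hcard, Finset.mul_sum]
      refine Finset.sum_le_sum fun x _ => ?_
      rw [Finset.mul_sum]
      refine Finset.sum_le_sum fun V _ => ?_
      rw [mul_one]
      refine h0 _ _ (card_aS x) (card_bS _ _) ?_
      rw [card_inter, pat_sft, hz]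
    · intro z hz
      rw [hbe]
      simp only
      rw [le_div_iff₀ h8, ← hcard, Finset.mul_sum]
      refine Finset.sum_le_sum fun x _ => ?_
      rw [Finset.mul_sum]
      refine Finset.sum_le_sum fun V _ => ?_
      rw [mul_one]
      refine h1 _ _ (card_aS x) (card_bS _ _) ?_
      rw [card_inter, pat_sft, hz]
  have hsum : ∑ V : Fin m → Bool, ∑ w : Fin m → Bool, ∑ x : Fin m × Bool → Bool,
      psi (pat x V w) * M (aS x) (bS V w) = 8 ^ m * ∑ z, psi z * be z := by
    have s1 : ∑ V : Fin m → Bool, ∑ w : Fin m → Bool, ∑ x : Fin m × Bool → Bool,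
        psi (pat x V w) * M (aS x) (bS V w) =
        ∑ V : Fin m → Bool, ∑ x : Fin m × Bool → Bool, ∑ z : Fin m → Bool,
          psi z * M (aS x) (bS V (sft x V z)) := by
      refine Finset.sum_congr rfl fun V _ => ?_
      rw [Finset.sum_comm]
      refine Finset.sum_congr rfl fun x _ => ?_
      exact sum_pat x V fun z w => psi z * M (aS x) (bS V w)
    rw [s1, Finset.mul_sum, Finset.sum_comm]
    have s2 : ∀ x : Fin m × Bool → Bool, ∑ V : Fin m → Bool, ∑ z : Fin m → Bool,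
        psi z * M (aS x) (bS V (sft x V z)) = ∑ z : Fin m → Bool, ∑ V : Fin m → Bool,
          psi z * M (aS x) (bS V (sft x V z)) := fun x => Finset.sum_comm
    simp only [s2]
    rw [Finset.sum_comm]
    refine Finset.sum_congr rfl fun z _ => ?_
    rw [hbe]
    simp only
    rw [← mul_assoc, mul_comm (8 ^ m : ℝ) (psi z), mul_assoc, mul_div_cancel₀ _ h8.ne',
      Finset.mul_sum]
    refine Finset.sum_congr rfl fun x _ => ?_
    rw [Finset.mul_sum]
  -- the upper bound
  set T : ι × (Fin m → Bool) × (Fin m → Bool) → ℂ := fun p =>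
    ∑ x : Fin m × Bool → Bool, (psi (pat x p.2.1 p.2.2) : ℂ) * u (aS x) p.1 with hT
  set W : ι × (Fin m → Bool) × (Fin m → Bool) → ℂ := fun p => v (bS p.2.1 p.2.2) p.1 with hW
  have hup : ((∑ V : Fin m → Bool, ∑ w : Fin m → Bool, ∑ x : Fin m × Bool → Bool,
      psi (pat x V w) * M (aS x) (bS V w) : ℝ) : ℂ) = ∑ p, T p * W p := by
    rw [Fintype.sum_prod_type]
    simp only [Fintype.sum_prod_type]
    push_cast
    simp only [e1]
    rw [Finset.sum_comm]
    have s1 : ∑ y : Fin m → Bool, ∑ x : Fin m → Bool, ∑ x_1 : Fin m × Bool → Bool,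
        (psi (pat x_1 x y) : ℂ) * ∑ i, u (aS x_1) i * v (bS x y) i =
        ∑ y : Fin m → Bool, ∑ x : Fin m → Bool, ∑ i, T (i, x, y) * W (i, x, y) := by
      refine Finset.sum_congr rfl fun y _ => Finset.sum_congr rfl fun V _ => ?_
      simp only [hT, hW, Finset.mul_sum, Finset.sum_mul]
      rw [Finset.sum_comm]
      refine Finset.sum_congr rfl fun i _ => Finset.sum_congr rfl fun x _ => ?_
      ring
    rw [s1]
    have s2 : ∀ y : Fin m → Bool, ∑ x : Fin m → Bool, ∑ i, T (i, x, y) * W (i, x, y) =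
        ∑ i, ∑ x : Fin m → Bool, T (i, x, y) * W (i, x, y) := fun y => Finset.sum_comm
    simp only [s2]
    rw [Finset.sum_comm]
    refine Finset.sum_congr rfl fun i _ => ?_
    rw [Finset.sum_comm]
  have hTsq : ∑ p, ‖T p‖ ^ 2 ≤ (4 : ℝ) ^ m / 2 ^ (D + 1) * (4 ^ m * g) := by
    rw [Fintype.sum_prod_type]
    simp only [Fintype.sum_prod_type]
    have s1 : ∀ i : ι, ∑ V : Fin m → Bool, ∑ w : Fin m → Bool, ‖T (i, V, w)‖ ^ 2 ≤
        (4 : ℝ) ^ m / 2 ^ (D + 1) * ∑ x : Fin m × Bool → Bool, ‖u (aS x) i‖ ^ 2 := fun i =>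
      pattern m D psi hp1 hp2 fun x => u (aS x) i
    refine (Finset.sum_le_sum fun i _ => s1 i).trans ?_
    rw [← Finset.mul_sum, Finset.sum_comm]
    refine mul_le_mul_of_nonneg_left ?_ (by positivity)
    have s2 : ∑ x : Fin m × Bool → Bool, ∑ i, ‖u (aS x) i‖ ^ 2 ≤
        ∑ _x : Fin m × Bool → Bool, g := Finset.sum_le_sum fun x _ => e2 (aS x)
    refine s2.trans (le_of_eq ?_)
    simp only [Finset.sum_const, Finset.card_univ, Fintype.card_pi, Fintype.card_bool,
      Finset.prod_const, Fintype.card_prod, Fintype.card_fin, nsmul_eq_mul]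
    push_cast
    rw [mul_comm m 2, pow_mul]
    norm_num
  have hWsq : ∑ p, ‖W p‖ ^ 2 ≤ 4 ^ m * g := by
    rw [Fintype.sum_prod_type_right]
    have s1 : ∑ y : (Fin m → Bool) × (Fin m → Bool), ∑ i, ‖W (i, y)‖ ^ 2 ≤
        ∑ _y : (Fin m → Bool) × (Fin m → Bool), g :=
      Finset.sum_le_sum fun y _ => e3 (bS y.1 y.2)
    refine s1.trans (le_of_eq ?_)
    simp only [Finset.sum_const, Finset.card_univ, Fintype.card_pi, Fintype.card_bool,
      Finset.prod_const, Fintype.card_prod, Fintype.card_fin, nsmul_eq_mul]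
    push_cast
    rw [← mul_pow]
    norm_num
  have hfin : 8 ^ m * (gam / 4) ≤ ∑ p, ‖T p‖ * ‖W p‖ := by
    have t1 : 8 ^ m * (gam / 4) ≤ ∑ V : Fin m → Bool, ∑ w : Fin m → Bool,
        ∑ x : Fin m × Bool → Bool, psi (pat x V w) * M (aS x) (bS V w) := by
      rw [hsum]
      exact mul_le_mul_of_nonneg_left hlow h8.le
    refine t1.trans ((le_abs_self _).trans ?_)
    rw [← Real.norm_eq_abs, ← Complex.norm_real, hup]
    refine (norm_sum_le _ _).trans (Finset.sum_le_sum fun p _ => ?_)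
    rw [norm_mul]
  have hcs : (∑ p, ‖T p‖ * ‖W p‖) ^ 2 ≤ (∑ p, ‖T p‖ ^ 2) * ∑ p, ‖W p‖ ^ 2 :=
    Finset.sum_mul_sq_le_sq_mul_sq _ _ _
  have hsq : (gam / 4) ^ 2 * 2 ^ (D + 1) ≤ g ^ 2 := by
    have t2 : (8 ^ m * (gam / 4)) ^ 2 ≤
        ((4 : ℝ) ^ m / 2 ^ (D + 1) * (4 ^ m * g)) * (4 ^ m * g) := by
      refine (pow_le_pow_left₀ (by positivity) hfin 2).trans (hcs.trans ?_)
      exact mul_le_mul hTsq hWsq (Finset.sum_nonneg fun p _ => by positivity) (by positivity)
    have h64 : ((8 : ℝ) ^ m) ^ 2 = 64 ^ m := by rw [← pow_mul, mul_comm, pow_mul]; norm_num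
    have h444 : (4 : ℝ) ^ m * 4 ^ m * 4 ^ m = 64 ^ m := by
      rw [← mul_pow, ← mul_pow]; norm_num
    have h2 : (0 : ℝ) < 2 ^ (D + 1) := by positivity
    have h64p : (0 : ℝ) < 64 ^ m := by positivity
    have t3 : 64 ^ m * ((gam / 4) ^ 2 * 2 ^ (D + 1)) ≤ 64 ^ m * g ^ 2 := by
      have t4 : ((4 : ℝ) ^ m / 2 ^ (D + 1) * (4 ^ m * g)) * (4 ^ m * g) =
          64 ^ m * g ^ 2 / 2 ^ (D + 1) := by
        rw [← h444]
        field_simp
      rw [t4, mul_pow, h64, le_div_iff₀ h2] at t2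
      linarith
    exact le_of_mul_le_mul_left t3 h64p
  have hpow : ((2 : ℝ) ^ (((D : ℝ) + 1) / 2)) ^ 2 = 2 ^ (D + 1) := by
    rw [← Real.rpow_natCast, ← Real.rpow_mul (by norm_num)]
    have : ((D : ℝ) + 1) / 2 * ((2 : ℕ) : ℝ) = ((D + 1 : ℕ) : ℝ) := by
      push_cast
      ring
    rw [this, Real.rpow_natCast]
  refine le_of_sq_le_sq ?_ hg0
  rw [mul_pow, hpow]
  exact hsq

end Pool.Agent.Helper17.AQ
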