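import Pool.Agent.Helper17.AQ.Defs

/-! AQ9. shatter_coeff: among the monomials S with S n T = P take one with S \ T of least size, w = S \ T;
ce g w P = sum_{R in w} ce g 0 (P u R) (Moebius inversion: g X = sum_{R in X} ce g 0 R), all terms with R <> w vanish.
mons_card: Finset.card_le_card_shatterer, and shattered sets have size <= d; number of sets of size <= d is <= (N+1)^d
(functions Fin d -> Option alpha, or sum of choose). -/

set_option autoImplicit false

namespace Pool.Agent.Helper17.AQ

open Finset Pool.Agent.Results.MP_799357_lc.DetVsQuantum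

private theorem ce_insert24 {α : Type} [DecidableEq α] (g : Finset α → Bool) (A P : Finset α) {a : α} (ha : a ∉ P) :
    ce g (insert a A) P = ce g A P + ce g A (insert a P) := by
  unfold ce
  rw [Finset.sum_powerset_insert ha, ← add_assoc, ← Finset.sum_add_distrib]
  have h1 : ∀ Q ∈ P.powerset, (-1 : ℤ) ^ (P \ Q).card * (if g (A ∪ Q) then 1 else 0) +
      (-1) ^ (insert a P \ Q).card * (if g (A ∪ Q) then 1 else 0) = 0 := by
    intro Q hQ
    have haQ : a ∉ Q := fun h => ha (mem_powerset.1 hQ h)
    have e1 : insert a P \ Q = insert a (P \ Q) := by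
      ext x
      simp only [mem_sdiff, mem_insert]
      constructor
      · rintro ⟨h | h, h2⟩
        · exact Or.inl h
        · exact Or.inr ⟨h, h2⟩
      · rintro (h | ⟨h, h2⟩)
        · subst h
          exact ⟨Or.inl rfl, haQ⟩
        · exact ⟨Or.inr h, h2⟩
    have e2 : a ∉ P \ Q := fun h => ha (mem_sdiff.1 h).1
    rw [e1, card_insert_of_notMem e2, pow_succ]
    ring
  rw [Finset.sum_eq_zero h1, zero_add]
  refine Finset.sum_congr rfl fun Q hQ => ?_
  have e1 : insert a P \ insert a Q = P \ Q := by
    ext x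
    simp only [mem_sdiff, mem_insert, not_or]
    constructor
    · rintro ⟨h | h, h2, h3⟩
      · exact absurd h h2
      · exact ⟨h, h3⟩
    · rintro ⟨h, h2⟩
      exact ⟨Or.inr h, fun h3 => ha (h3 ▸ h), h2⟩
  have e2 : insert a A ∪ Q = A ∪ insert a Q := by
    ext x
    simp only [mem_union, mem_insert]
    tauto
  rw [e1, e2]

private theorem ce_union24 {α : Type} [DecidableEq α] (g : Finset α → Bool) (A w : Finset α) :
    ∀ P : Finset α, Disjoint w P → ce g (w ∪ A) P = ∑ R ∈ w.powerset, ce g A (P ∪ R) := by
  induction w using Finset.induction_on with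
  | empty =>
    intro P _
    simp
  | insert a w haw ih =>
    intro P hP
    rw [Finset.disjoint_insert_left] at hP
    obtain ⟨haP, hwP⟩ := hP
    rw [Finset.insert_union, ce_insert24 g _ P haP, ih P hwP, ih (insert a P)
      (by rw [Finset.disjoint_insert_right]; exact ⟨haw, hwP⟩), Finset.sum_powerset_insert haw]
    congr 1
    refine Finset.sum_congr rfl fun R _ => ?_
    congr 1
    ext x
    simp only [mem_union, mem_insert]
    tauto

theorem shatter_coeff {α : Type} [DecidableEq α] [Fintype α] (g : Finset α → Bool)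
    (T : Finset α) (hT : (mons g).Shatters T) (P : Finset α) (hP : P ⊆ T) :
    ∃ w, Disjoint w T ∧ ce g w P ≠ 0 := by
  classical
  obtain ⟨S₁, hS₁, hS₁P⟩ := hT hP
  have hne : ((mons g).filter fun S => T ∩ S = P).Nonempty := ⟨S₁, mem_filter.2 ⟨hS₁, hS₁P⟩⟩
  obtain ⟨S, hS, hmin⟩ := Finset.exists_min_image _ (fun S => (S \ T).card) hne
  obtain ⟨hSm, hSP⟩ := mem_filter.1 hS
  have hwT : Disjoint (S \ T) T := Finset.sdiff_disjoint
  have hwP : Disjoint (S \ T) P := hwT.mono_right hP
  refine ⟨S \ T, hwT, ?_⟩
  have h1 := ce_union24 g ∅ (S \ T) P hwP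
  rw [Finset.union_empty] at h1
  rw [h1, Finset.sum_eq_single (S \ T)]
  · have e1 : P ∪ S \ T = S := by
      ext x
      rw [← hSP]
      simp only [mem_union, mem_inter, mem_sdiff]
      tauto
    rw [e1]
    exact (mem_filter.1 hSm).2
  · intro R hR hne2
    rw [mem_powerset] at hR
    by_contra hc
    have hm : P ∪ R ∈ mons g := mem_filter.2 ⟨mem_univ _, hc⟩
    have hRT : Disjoint R T := hwT.mono_left hR
    have e1 : T ∩ (P ∪ R) = P := by
      rw [Finset.inter_union_distrib_left, Finset.inter_eq_right.2 hP, (Finset.disjoint_iff_inter_eq_empty.1 hRT.symm),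
        Finset.union_empty]
    have h2 := hmin _ (mem_filter.2 ⟨hm, e1⟩)
    have e2 : (P ∪ R) \ T = R := by
      ext x
      simp only [mem_sdiff, mem_union]
      constructor
      · rintro ⟨h | h, h3⟩
        · exact absurd (hP h) h3
        · exact h
      · intro h
        exact ⟨Or.inr h, fun h3 => Finset.disjoint_left.1 hRT h h3⟩
    rw [e2] at h2
    exact hne2 (Finset.eq_of_subset_of_card_le hR h2)
  · intro h
    exact absurd (mem_powerset.2 le_rfl) h

theorem mons_card {α : Type} [DecidableEq α] [Fintype α] (g : Finset α → Bool) (d : ℕ)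
    (hd : ∀ T : Finset α, (mons g).Shatters T → T.card ≤ d) :
    (mons g).card ≤ (Fintype.card α + 1) ^ d := by
  classical
  refine (Finset.card_le_card_shatterer (mons g)).trans ?_
  have hsub : (mons g).shatterer ⊆ (univ : Finset (Fin d → Option α)).image
      (fun f => univ.filter fun a => ∃ i, f i = some a) := by
    intro S hS
    have hc := hd S (mem_shatterer.1 hS)
    refine mem_image.2 ⟨fun i => if h : (i : ℕ) < S.card then some (S.equivFin.symm ⟨i, h⟩ : α) else none, mem_univ _, ?_⟩
    ext a
    simp only [mem_filter, mem_univ, true_and]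
    constructor
    · rintro ⟨i, hi⟩
      split_ifs at hi with h
      · rw [← Option.some.inj hi]
        exact (S.equivFin.symm ⟨i, h⟩).2
    · intro ha
      refine ⟨⟨S.equivFin ⟨a, ha⟩, lt_of_lt_of_le (Fin.is_lt _) hc⟩, ?_⟩
      have h3 : ((S.equivFin ⟨a, ha⟩ : Fin S.card) : ℕ) < S.card := Fin.is_lt _
      simp [h3]
  refine (Finset.card_le_card hsub).trans (Finset.card_image_le.trans ?_)
  rw [Finset.card_univ, Fintype.card_fun, Fintype.card_option, Fintype.card_fin]

end Pool.Agent.Helper17.AQ
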