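import Pool.Agent.Helper17.AQ.Defs

/-! AQ12: Alice sends her n bits (turns 0, 2, ..., 2n-2), Bob stores them (turns 1, 3, ..., 2n-1) and writes F to the
channel in the last turn (2n+2 turns, turn 2n is the identity). Tools in DetVsQuantum.lean: permM, cl, stepA, stepB,
prob_cl (S = Unit). -/

set_option autoImplicit false

namespace Pool.Agent.Helper17.AQ

open Finset Pool.Agent.Results.MP_799357_lc.DetVsQuantum

/-- Alice's bit in turn `t` -/
private def abit93 {n : ℕ} (t : ℕ) (x : Fin n → Bool) : Bool := if h : t / 2 < n then x ⟨t / 2, h⟩ else false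

/-- exchange the channel with the `i`-th bit of Bob -/
private def swp93 {n : ℕ} (i : Fin n) : Equiv.Perm (Bool × (Fin n → Bool)) where
  toFun p := (p.2 i, Function.update p.2 i p.1)
  invFun p := (p.2 i, Function.update p.2 i p.1)
  left_inv p := by
    obtain ⟨q, b⟩ := p
    simp
  right_inv p := by
    obtain ⟨q, b⟩ := p
    simp

/-- write the output to the channel -/
private def wrt93 {n : ℕ} {Y : Type} (F : (Fin n → Bool) → Y → Bool) (y : Y) :
    Equiv.Perm (Bool × (Fin n → Bool)) where
  toFun p := (xor p.1 (F p.2 y), p.2)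
  invFun p := (xor p.1 (F p.2 y), p.2)
  left_inv p := by
    obtain ⟨q, b⟩ := p
    simp
  right_inv p := by
    obtain ⟨q, b⟩ := p
    simp

/-- Bob's permutation in turn `t` -/
private def bprm93 {n : ℕ} {Y : Type} (F : (Fin n → Bool) → Y → Bool) (t : ℕ) (y : Y) :
    Equiv.Perm (Bool × (Fin n → Bool)) :=
  if h : t / 2 < n then swp93 ⟨t / 2, h⟩ else wrt93 F y

private noncomputable def prot93 {n : ℕ} {Y : Type} (F : (Fin n → Bool) → Y → Bool) :
    QProtocol (Fin n → Bool) Y where
  A := Unit
  B := Fin n → Bool
  init := fun a b => cl 1 (fun _ : Unit => false) (fun _ => fun _ => false) a false b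
  init_norm := by
    have h := prob_cl (S := Unit) (B := Fin n → Bool) 1 (fun _ => false) (fun _ => fun _ => false) false
    rw [h]
    simp
  aliceFirst := true
  turns := 2 * n + 2
  UA t x := permM (xorPerm fun _ => abit93 t x)
  UA_unitary t x := permM_unitary _
  UB t y := permM (bprm93 F t y)
  UB_unitary t y := permM_unitary _

/-- the channel before turn `t ≤ 2 n + 1` -/
private def chn93 {n : ℕ} (t : ℕ) (x : Fin n → Bool) : Bool := if t % 2 = 0 then false else abit93 (t - 1) x

/-- Bob's register before turn `t` -/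
private def sto93 {n : ℕ} (t : ℕ) (x : Fin n → Bool) : Fin n → Bool := fun j => if (j : ℕ) < t / 2 then x j else false

private theorem state93 {n : ℕ} {Y : Type} (F : (Fin n → Bool) → Y → Bool) (x : Fin n → Bool) (y : Y) :
    ∀ t ≤ 2 * n + 1, (prot93 F).state x y t = cl 1 (fun _ : Unit => chn93 t x) (fun _ => sto93 t x) := by
  intro t
  induction t with
  | zero =>
    intro _
    funext a q b
    have h1 : chn93 0 x = false := rfl
    have h2 : sto93 0 x = fun _ => false := by
      funext j
      simp [sto93]
    simp only [QProtocol.state, prot93, h1, h2, cl]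
    cases q <;> simp
  | succ t ih =>
    intro ht
    have ih := ih (by omega)
    funext a q b
    rw [QProtocol.state, ih]
    by_cases h : t % 2 = 0
    · have h1 : (decide (t % 2 = 0)) = (prot93 F).aliceFirst := by simp [h, prot93]
      refine (if_pos h1).trans ?_
      have h2 : sto93 (t + 1) x = sto93 t x := by
        funext j
        have : (t + 1) / 2 = t / 2 := by omega
        simp only [sto93, this]
      rw [h2]
      refine stepA 1 (fun _ : Unit => chn93 t x) (fun _ => sto93 t x) (xorPerm fun _ => abit93 t x)
        (fun _ => chn93 (t + 1) x) (fun s => ?_) (fun p => rfl) a q b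
      have h3 : chn93 t x = false := by rw [chn93, if_pos h]
      have h4 : chn93 (t + 1) x = abit93 t x := by
        rw [chn93, if_neg (by omega), Nat.add_sub_cancel]
      simp [xorPerm, h3, h4]
    · have h1 : ¬ (decide (t % 2 = 0)) = (prot93 F).aliceFirst := by simp [h, prot93]
      refine (if_neg h1).trans ?_
      refine stepB 1 (fun _ : Unit => chn93 t x) (fun _ => sto93 t x) (bprm93 F t y)
        (fun _ => chn93 (t + 1) x) (fun _ => sto93 (t + 1) x) (fun s => ?_) a q b
      have h2 : t / 2 < n := by omega
      have h3 : chn93 (t + 1) x = false := by rw [chn93, if_pos (by omega)]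
      have h4 : chn93 t x = x ⟨t / 2, h2⟩ := by
        have h5 : (t - 1) / 2 = t / 2 := by omega
        simp only [chn93, if_neg h, abit93, h5, dif_pos h2]
      have h6 : (sto93 t x) ⟨t / 2, h2⟩ = false := by simp [sto93]
      have h7 : sto93 (t + 1) x = Function.update (sto93 t x) ⟨t / 2, h2⟩ (x ⟨t / 2, h2⟩) := by
        funext j
        by_cases hj : j = ⟨t / 2, h2⟩
        · subst hj
          rw [Function.update_self]
          have : t / 2 < (t + 1) / 2 := by omega
          simp [sto93, this]
        · rw [Function.update_of_ne hj]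
          have hj' : (j : ℕ) ≠ t / 2 := fun e => hj (Fin.ext e)
          have : ((j : ℕ) < (t + 1) / 2) ↔ (j : ℕ) < t / 2 := by omega
          simp only [sto93, this]
      rw [bprm93, dif_pos h2, h3, h4, h7]
      refine Prod.ext ?_ rfl
      exact h6

theorem exists_qprotocol {n : ℕ} {Y : Type} (F : (Fin n → Bool) → Y → Bool) :
    ∃ P : QProtocol (Fin n → Bool) Y, P.Computes F := by
  refine ⟨prot93 F, fun x y => ?_⟩
  have h1 : (prot93 F).state x y (2 * n + 2) = cl 1 (fun _ : Unit => F x y) (fun _ => x) := by
    funext a q b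
    rw [QProtocol.state, state93 F x y _ le_rfl]
    have h1 : ¬ (decide ((2 * n + 1) % 2 = 0)) = (prot93 F).aliceFirst := by
      have : ¬ (2 * n + 1) % 2 = 0 := by omega
      simp [this, prot93]
    refine (if_neg h1).trans ?_
    refine stepB 1 (fun _ : Unit => chn93 (2 * n + 1) x) (fun _ => sto93 (2 * n + 1) x) (bprm93 F (2 * n + 1) y)
      (fun _ => F x y) (fun _ => x) (fun s => ?_) a q b
    have h2 : ¬ (2 * n + 1) / 2 < n := by omega
    have h3 : chn93 (2 * n + 1) x = false := by
      rw [chn93, if_neg (by omega), abit93, dif_neg (by omega)]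
    have h4 : sto93 (2 * n + 1) x = x := by
      funext j
      have h5 : (j : ℕ) < (2 * n + 1) / 2 := by have := j.2; omega
      simp [sto93, h5]
    rw [bprm93, dif_neg h2, h3, h4]
    simp [wrt93]
  have h2 : (prot93 F).outputProb x y (F x y) =
      ∑ a : Unit, ∑ b : Fin n → Bool, ‖cl 1 (fun _ : Unit => F x y) (fun _ => x) a (F x y) b‖ ^ 2 := by
    rw [← h1]
    rfl
  rw [h2, prob_cl]
  simp
  norm_num

end Pool.Agent.Helper17.AQ
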