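import Pool.Agent.Helper17.AQ.Defs

/-! AQ2: the acceptance probability of a quantum protocol has a factorisation with constant 4 ^ turns.
Histories c : the channel bits c 1, ..., c t (index Fin t -> Bool or by recursion, 2 ^ t of them). state x y t a q b =
sum over histories ending in q of sum_{a1 b1} Mx c (a, a1) * Ny c (b, b1) * init a1 b1, where Mx c is a product of blocks
U((., q), (., p)) of the unitaries of Alice (N of Bob): all are contractions (Matrix l2 operator norm <= 1:
scoped Matrix.Norms.L2Operator, or directly). For two histories c, c' ending in true: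
sum_{a b} (M_c N_c init)(a,b) conj((M_c' N_c' init)(a,b)) = sum_{(a2, b1)} u(a2, b1) v(a2, b1) with
u = (M_c'^* M_c) init, v(a2, b1) = sum_{b2} (N_c'^* N_c)(b2, b1) conj(init a2 b2): squared norms <= 1.
So index set = pairs of histories times A times B, squared norms <= number of pairs <= 4 ^ turns. -/

set_option autoImplicit false

namespace Pool.Agent.Helper17.AQ

open Finset Pool.Agent.Results.MP_799357_lc.DetVsQuantum

open Matrix in
/-- Squared norm. -/
private noncomputable def nv34 {I : Type} [Fintype I] (v : I → ℂ) : ℝ := ∑ i, ‖v i‖ ^ 2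

open Matrix in
/-- `K` and its adjoint are contractions. -/
private def Cn34 {I : Type} [Fintype I] (K : Matrix I I ℂ) : Prop :=
  (∀ v, nv34 (K *ᵥ v) ≤ nv34 v) ∧ (∀ v, nv34 (Kᴴ *ᵥ v) ≤ nv34 v)

section

open Matrix

variable {I J : Type} [Fintype I] [DecidableEq I] [Fintype J] [DecidableEq J]

omit [DecidableEq I] in
private theorem cn_mul34 {K L : Matrix I I ℂ} (hK : Cn34 K) (hL : Cn34 L) : Cn34 (K * L) := by
  refine ⟨fun v => ?_, fun v => ?_⟩
  · rw [← mulVec_mulVec]
    exact (hK.1 _).trans (hL.1 v)
  · rw [conjTranspose_mul, ← mulVec_mulVec]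
    exact (hL.2 _).trans (hK.2 v)

omit [DecidableEq I] in
private theorem cn_adj34 {K : Matrix I I ℂ} (hK : Cn34 K) : Cn34 Kᴴ :=
  ⟨hK.2, fun v => by rw [conjTranspose_conjTranspose]; exact hK.1 v⟩

private theorem cn_one34 : Cn34 (1 : Matrix I I ℂ) := by
  refine ⟨fun v => ?_, fun v => ?_⟩
  · rw [one_mulVec]
  · rw [conjTranspose_one, one_mulVec]

omit [DecidableEq I] in
private theorem nv_nonneg34 (v : I → ℂ) : 0 ≤ nv34 v := Finset.sum_nonneg fun _ _ => by positivity

omit [DecidableEq I] in
private theorem nv_star34 (v : I → ℂ) : nv34 (star v) = nv34 v := by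
  unfold nv34
  refine Finset.sum_congr rfl fun i _ => ?_
  rw [Pi.star_apply, norm_star]

omit [DecidableEq I] in
private theorem cn_zero34 : Cn34 (0 : Matrix I I ℂ) := by
  have h : nv34 (0 : I → ℂ) = 0 := by simp [nv34]
  refine ⟨fun v => ?_, fun v => ?_⟩
  · rw [zero_mulVec, h]
    exact nv_nonneg34 v
  · rw [conjTranspose_zero, zero_mulVec, h]
    exact nv_nonneg34 v

omit [DecidableEq I] in
private theorem cn_tr34 {K : Matrix I I ℂ} (hK : Cn34 K) : Cn34 Kᵀ := by
  refine ⟨fun v => ?_, fun v => ?_⟩
  · have h : Kᵀ *ᵥ v = star (Kᴴ *ᵥ star v) := by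
      ext i
      simp only [mulVec, dotProduct, Pi.star_apply, star_sum, star_mul', conjTranspose_apply,
        transpose_apply, star_star]
    rw [h, nv_star34]
    exact (hK.2 _).trans (nv_star34 v).le
  · have h : (Kᵀ)ᴴ *ᵥ v = star (K *ᵥ star v) := by
      ext i
      simp only [mulVec, dotProduct, Pi.star_apply, star_sum, star_mul', conjTranspose_apply,
        transpose_apply, star_star]
    rw [h, nv_star34]
    exact (hK.1 _).trans (nv_star34 v).le

omit [DecidableEq I] in
private theorem sub_le34 {U : Matrix J J ℂ} (hU : U ∈ Matrix.unitaryGroup J ℂ) {e f : I → J}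
    (he : Function.Injective e) (hf : Function.Injective f) (v : I → ℂ) :
    nv34 (U.submatrix e f *ᵥ v) ≤ nv34 v := by
  classical
  set w : J → ℂ := Function.extend f v 0 with hw
  have hwf : ∀ i, w (f i) = v i := fun i => hf.extend_apply v 0 i
  have hw0 : ∀ j, j ∉ Set.range f → w j = 0 := by
    intro j hj
    rw [hw, Function.extend_apply' _ _ _ (fun ⟨a, ha⟩ => hj ⟨a, ha⟩)]
    rfl
  have h1 : ∀ i, (U.submatrix e f *ᵥ v) i = ∑ j, U (e i) j * w j := by
    intro i
    simp only [mulVec, dotProduct, submatrix_apply]
    exact Fintype.sum_of_injective f hf _ _ (fun j hj => by rw [hw0 j hj, mul_zero])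
      (fun i' => by rw [hwf])
  have h2 : nv34 w = nv34 v := by
    unfold nv34
    exact (Fintype.sum_of_injective f hf _ _ (fun j hj => by rw [hw0 j hj]; simp)
      (fun i' => by rw [hwf])).symm
  have h3 := unitary_norm U hU w
  have h4 : nv34 (U.submatrix e f *ᵥ v) ≤ ∑ i, ‖∑ j, U i j * w j‖ ^ 2 := by
    unfold nv34
    simp only [h1]
    rw [← Finset.sum_image (s := univ) (g := e) (f := fun i => ‖∑ j, U i j * w j‖ ^ 2)
      (fun a _ b _ h => he h)]
    exact Finset.sum_le_sum_of_subset_of_nonneg (Finset.subset_univ _) fun _ _ _ => by positivity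
  rw [h3] at h4
  exact h4.trans h2.le

omit [DecidableEq I] in
private theorem cn_sub34 {U : Matrix J J ℂ} (hU : U ∈ Matrix.unitaryGroup J ℂ) {e f : I → J}
    (he : Function.Injective e) (hf : Function.Injective f) : Cn34 (U.submatrix e f) := by
  refine ⟨fun v => sub_le34 hU he hf v, fun v => ?_⟩
  rw [conjTranspose_submatrix]
  exact sub_le34 (Unitary.star_mem hU) hf he v

/-- Hilbert-Schmidt norm, squared. -/
private noncomputable def hs34 (W : Matrix I J ℂ) : ℝ := ∑ a, ∑ b, ‖W a b‖ ^ 2

omit [DecidableEq I] [DecidableEq J] in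
private theorem hs_mul34 {K : Matrix I I ℂ} (hK : Cn34 K) (W : Matrix I J ℂ) :
    hs34 (K * W) ≤ hs34 W := by
  unfold hs34
  rw [Finset.sum_comm, Finset.sum_comm (f := fun a b => ‖W a b‖ ^ 2)]
  refine Finset.sum_le_sum fun b _ => ?_
  have h := hK.1 (fun a => W a b)
  unfold nv34 at h
  exact h

omit [DecidableEq I] [DecidableEq J] in
private theorem hs_adj34 (W : Matrix I J ℂ) : hs34 Wᴴ = hs34 W := by
  unfold hs34
  rw [Finset.sum_comm]
  refine Finset.sum_congr rfl fun a _ => Finset.sum_congr rfl fun b _ => ?_
  rw [conjTranspose_apply, norm_star]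

end

open Matrix in
private theorem decomp34 {X Y : Type} (P : QProtocol X Y) (t : ℕ) :
    ∃ (ι : Type) (_ : Fintype ι) (M : Bool → ι → X → Matrix P.A P.A ℂ)
      (N : Bool → ι → Y → Matrix P.B P.B ℂ), Fintype.card ι = 2 ^ t ∧
      (∀ q i x, Cn34 (M q i x)) ∧ (∀ q i y, Cn34 (N q i y)) ∧
      ∀ x y a q b, P.state x y t a q b =
        ∑ i, (M q i x * (Matrix.of P.init) * N q i y) a b := by
  induction t with
  | zero =>
    refine ⟨Unit, inferInstance, fun q _ _ => if q = false then 1 else 0, fun _ _ _ => 1, ?_, ?_,
      fun _ _ _ => cn_one34, ?_⟩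
    · simp
    · intro q i x
      dsimp only
      split_ifs
      · exact cn_one34
      · exact cn_zero34
    · intro x y a q b
      simp only [QProtocol.state, Finset.univ_unique, Finset.sum_singleton]
      split_ifs
      · rw [Matrix.one_mul, Matrix.mul_one]
        rfl
      · rw [Matrix.zero_mul, Matrix.zero_mul]
        rfl
  | succ t ih =>
    obtain ⟨ι, hι, M, N, hcard, hM, hN, hst⟩ := ih
    by_cases h : (decide (t % 2 = 0)) = P.aliceFirst
    · refine ⟨Bool × ι, inferInstance, fun q k x => (P.UA t x).submatrix (fun a => (a, q)) (fun a => (a, k.1)) * M k.1 k.2 x,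
        fun q k y => N k.1 k.2 y, ?_, ?_, ?_, ?_⟩
      · rw [Fintype.card_prod, hcard, Fintype.card_bool, pow_succ, mul_comm]
      · intro q k x
        exact cn_mul34 (cn_sub34 (P.UA_unitary t x) (fun _ _ h => (Prod.mk.inj h).1)
          (fun _ _ h => (Prod.mk.inj h).1)) (hM _ _ _)
      · intro q k y
        exact hN _ _ _
      · intro x y a q b
        simp only [QProtocol.state]
        rw [if_pos h, Fintype.sum_prod_type, Finset.sum_comm, Fintype.sum_prod_type]
        refine Finset.sum_congr rfl fun p _ => ?_
        simp only [hst, Finset.mul_sum]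
        rw [Finset.sum_comm]
        refine Finset.sum_congr rfl fun i _ => ?_
        have e : (P.UA t x).submatrix (fun a => (a, q)) (fun a => (a, p)) * M p i x * Matrix.of P.init * N p i y =
            (P.UA t x).submatrix (fun a => (a, q)) (fun a => (a, p)) * (M p i x * Matrix.of P.init * N p i y) := by
          simp only [Matrix.mul_assoc]
        rw [e, Matrix.mul_apply]
        rfl
    · refine ⟨Bool × ι, inferInstance, fun q k x => M k.1 k.2 x,
        fun q k y => N k.1 k.2 y * ((P.UB t y).submatrix (fun b => (q, b)) (fun b => (k.1, b)))ᵀ, ?_, ?_, ?_, ?_⟩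
      · rw [Fintype.card_prod, hcard, Fintype.card_bool, pow_succ, mul_comm]
      · intro q k x
        exact hM _ _ _
      · intro q k y
        exact cn_mul34 (hN _ _ _) (cn_tr34 (cn_sub34 (P.UB_unitary t y) (fun _ _ h => (Prod.mk.inj h).2)
          (fun _ _ h => (Prod.mk.inj h).2)))
      · intro x y a q b
        simp only [QProtocol.state]
        rw [if_neg h, Fintype.sum_prod_type, Fintype.sum_prod_type]
        refine Finset.sum_congr rfl fun p _ => ?_
        simp only [hst, Finset.mul_sum]
        rw [Finset.sum_comm]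
        refine Finset.sum_congr rfl fun i _ => ?_
        rw [← Matrix.mul_assoc, Matrix.mul_apply]
        refine Finset.sum_congr rfl fun b' _ => ?_
        rw [Matrix.transpose_apply, Matrix.submatrix_apply, mul_comm]

theorem outputProb_fac {X Y : Type} (P : QProtocol X Y) :
    Fac (fun x y => P.outputProb x y true) (4 ^ P.turns) := by
  classical
  obtain ⟨ι, hι, M, N, hcard, hM, hN, hst⟩ := decomp34 P P.turns
  set W : Matrix P.A P.B ℂ := Matrix.of P.init with hW
  have hsW : hs34 W = 1 := P.init_norm
  refine ⟨ι × ι × P.A × P.B, inferInstance,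
    fun x k => ((M true k.2.1 x).conjTranspose * M true k.1 x * W) k.2.2.1 k.2.2.2,
    fun y k => (N true k.1 y * (N true k.2.1 y).conjTranspose * W.conjTranspose) k.2.2.2 k.2.2.1,
    fun x y => ?_, fun x => ?_, fun y => ?_⟩
  · have h1 : (P.outputProb x y true : ℂ) = ∑ a, ∑ b, (∑ i, (M true i x * W * N true i y) a b) *
        star (∑ j, (M true j x * W * N true j y) a b) := by
      unfold QProtocol.outputProb
      push_cast
      refine Finset.sum_congr rfl fun a _ => Finset.sum_congr rfl fun b _ => ?_
      rw [← hst, Complex.star_def, Complex.mul_conj, Complex.normSq_eq_norm_sq]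
      push_cast
      rfl
    dsimp only
    rw [h1]
    have h2 : ∀ i j, ∑ a, ∑ b, (M true i x * W * N true i y) a b * star ((M true j x * W * N true j y) a b) =
        ∑ a, ∑ b, ((M true j x).conjTranspose * M true i x * W) a b *
          (N true i y * (N true j y).conjTranspose * W.conjTranspose) b a := by
      intro i j
      have e1 : ∑ a, ∑ b, (M true i x * W * N true i y) a b * star ((M true j x * W * N true j y) a b) =
          Matrix.trace ((M true i x * W * N true i y) * (M true j x * W * N true j y).conjTranspose) := by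
        simp only [Matrix.trace, Matrix.diag_apply, Matrix.mul_apply (M := M true i x * W * N true i y),
          Matrix.conjTranspose_apply]
      have e2 : ∑ a, ∑ b, ((M true j x).conjTranspose * M true i x * W) a b *
          (N true i y * (N true j y).conjTranspose * W.conjTranspose) b a =
          Matrix.trace (((M true j x).conjTranspose * M true i x * W) *
            (N true i y * (N true j y).conjTranspose * W.conjTranspose)) := by
        simp only [Matrix.trace, Matrix.diag_apply,
          Matrix.mul_apply (M := (M true j x).conjTranspose * M true i x * W)]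
      rw [e1, e2, Matrix.conjTranspose_mul, Matrix.conjTranspose_mul]
      rw [← Matrix.mul_assoc, ← Matrix.mul_assoc, Matrix.trace_mul_comm]
      simp only [Matrix.mul_assoc]
    simp only [star_sum, Finset.sum_mul_sum]
    calc ∑ a, ∑ b, ∑ i, ∑ j, (M true i x * W * N true i y) a b * star ((M true j x * W * N true j y) a b)
        = ∑ i, ∑ j, ∑ a, ∑ b, (M true i x * W * N true i y) a b * star ((M true j x * W * N true j y) a b) := by
          rw [Finset.sum_congr rfl fun a _ => Finset.sum_comm]
          rw [Finset.sum_comm]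
          refine Finset.sum_congr rfl fun i _ => ?_
          rw [Finset.sum_congr rfl fun a _ => Finset.sum_comm]
          rw [Finset.sum_comm]
      _ = _ := by
          rw [Fintype.sum_prod_type]
          refine Finset.sum_congr rfl fun i _ => ?_
          rw [Fintype.sum_prod_type]
          refine Finset.sum_congr rfl fun j _ => ?_
          rw [Fintype.sum_prod_type, h2]
  · have h3 : ∀ i j, hs34 ((M true j x).conjTranspose * M true i x * W) ≤ 1 := fun i j =>
      (hs_mul34 (cn_mul34 (cn_adj34 (hM _ _ _)) (hM _ _ _)) W).trans hsW.le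
    rw [Fintype.sum_prod_type]
    calc ∑ i, ∑ k : ι × P.A × P.B, ‖((M true k.1 x).conjTranspose * M true i x * W) k.2.1 k.2.2‖ ^ 2
        = ∑ i, ∑ j, hs34 ((M true j x).conjTranspose * M true i x * W) := by
          refine Finset.sum_congr rfl fun i _ => ?_
          rw [Fintype.sum_prod_type]
          refine Finset.sum_congr rfl fun j _ => ?_
          rw [Fintype.sum_prod_type]
          rfl
      _ ≤ ∑ i : ι, ∑ j : ι, (1 : ℝ) := Finset.sum_le_sum fun i _ => Finset.sum_le_sum fun j _ => h3 i j
      _ = 4 ^ P.turns := by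
          simp only [Finset.sum_const, Finset.card_univ, hcard, nsmul_eq_mul, mul_one]
          push_cast
          rw [← mul_pow]
          norm_num
  · have h3 : ∀ i j, hs34 (N true i y * (N true j y).conjTranspose * W.conjTranspose) ≤ 1 := fun i j =>
      (hs_mul34 (cn_mul34 (hN _ _ _) (cn_adj34 (hN _ _ _))) _).trans ((hs_adj34 W).trans hsW).le
    rw [Fintype.sum_prod_type]
    calc ∑ i, ∑ k : ι × P.A × P.B, ‖(N true i y * (N true k.1 y).conjTranspose * W.conjTranspose) k.2.2 k.2.1‖ ^ 2
        = ∑ i, ∑ j, hs34 (N true i y * (N true j y).conjTranspose * W.conjTranspose) := by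
          refine Finset.sum_congr rfl fun i _ => ?_
          rw [Fintype.sum_prod_type]
          refine Finset.sum_congr rfl fun j _ => ?_
          rw [Fintype.sum_prod_type, Finset.sum_comm]
          rfl
      _ ≤ ∑ i : ι, ∑ j : ι, (1 : ℝ) := Finset.sum_le_sum fun i _ => Finset.sum_le_sum fun j _ => h3 i j
      _ = 4 ^ P.turns := by
          simp only [Finset.sum_const, Finset.card_univ, hcard, nsmul_eq_mul, mul_one]
          push_cast
          rw [← mul_pow]
          norm_num

end Pool.Agent.Helper17.AQ
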