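import Pool.Agent.Helper17.AQ.Fac

/-! AQ7a: disjoint blocks. M a b = A (z u union of B j, j in a) (z u union of B j, j in b) or 1 minus it, according to
g z; X n Y = z u union over a n b. -/

set_option autoImplicit false

namespace Pool.Agent.Helper17.AQ

open Finset Pool.Agent.Results.MP_799357_lc.DetVsQuantum

theorem reduce_blocks {α : Type} [DecidableEq α] (g : Finset α → Bool) (m : ℕ)
    (hB : Blocks g (I4 m)) (A : Finset α → Finset α → ℝ) (h01 : ∀ X Y, 0 ≤ A X Y ∧ A X Y ≤ 1)
    (e G : ℝ) (hA : ∀ X Y, |A X Y - bv (g (X ∩ Y))| ≤ e) (hF : Fac A G) :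
    ∃ M : Finset (I4 m) → Finset (I4 m) → ℝ, (∀ a b, 0 ≤ M a b ∧ M a b ≤ 1) ∧
      (∀ a b, (a ∩ b).card = 0 → M a b ≤ e) ∧
      (∀ a b, (a ∩ b).card = 1 → 1 - e ≤ M a b) ∧ Fac M (1 + G) := by
  obtain ⟨z, B, hd, hz⟩ := hB
  set X : Finset (I4 m) → Finset α := fun a => z ∪ a.biUnion B with hX
  have hint : ∀ a b, X a ∩ X b = z ∪ (a ∩ b).biUnion B := by
    intro a b
    ext i
    simp only [hX, mem_inter, mem_union, mem_biUnion]
    constructor
    · rintro ⟨h1, h2⟩
      rcases h1 with h1 | ⟨j, hj, hij⟩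
      · exact Or.inl h1
      · rcases h2 with h2 | ⟨k, hk, hik⟩
        · exact Or.inl h2
        · by_cases hjk : j = k
          · subst hjk
            exact Or.inr ⟨j, ⟨hj, hk⟩, hij⟩
          · exact absurd hik (Finset.disjoint_left.1 (hd j k hjk) hij)
    · rintro (h1 | ⟨j, ⟨hj, hk⟩, hij⟩)
      · exact ⟨Or.inl h1, Or.inl h1⟩
      · exact ⟨Or.inr ⟨j, hj, hij⟩, Or.inr ⟨j, hk, hij⟩⟩
  refine ⟨fun a b => (if g z then (1 : ℝ) else 0) + (if g z then (-1 : ℝ) else 1) *
    A (X a) (X b), ?_, ?_, ?_, ?_⟩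
  · intro a b
    have := h01 (X a) (X b)
    cases hgz : g z <;> simp only [Bool.false_eq_true, if_false, if_true] <;>
      constructor <;> linarith [this.1, this.2]
  · intro a b hab
    have h1 := hA (X a) (X b)
    rw [hint, Finset.card_eq_zero.1 hab, Finset.biUnion_empty, Finset.union_empty] at h1
    rw [abs_le] at h1
    cases hgz : g z <;> simp only [hgz, bv, Bool.false_eq_true, if_false, if_true] at h1 ⊢ <;>
      linarith [h1.1, h1.2]
  · intro a b hab
    obtain ⟨j, hj⟩ := Finset.card_eq_one.1 hab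
    have h1 := hA (X a) (X b)
    rw [hint, hj, Finset.singleton_biUnion] at h1
    rw [abs_le] at h1
    have h2 := (hz j).2
    cases hgz : g z
    · have h3 : g (z ∪ B j) = true := by
        rw [hgz] at h2
        simpa using h2
      simp only [h3, bv, Bool.false_eq_true, if_false, if_true] at h1 ⊢
      linarith [h1.1, h1.2]
    · have h3 : g (z ∪ B j) = false := by
        rw [hgz] at h2
        simpa using h2
      simp only [h3, bv, Bool.false_eq_true, if_false, if_true] at h1 ⊢
      linarith [h1.1, h1.2]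
  · refine Fac.row (M := fun a b => A (X a) (X b)) (fun _ => if g z then (1 : ℝ) else 0)
      (fun _ => if g z then (-1 : ℝ) else 1) ?_ ?_ (Fac.comp X X hF)
    · intro x
      cases g z <;> simp
    · intro x
      cases g z <;> simp

end Pool.Agent.Helper17.AQ
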