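import Pool.Agent.Helper17.AQ.Fac

/-! AQ7b: critical sets. Average over all equivalences pi : I4 m ≃ T. For a with |a| = 2m: P = pi(a) in T, w, Q chosen by hc
(Classical.choose; default empty sets otherwise), X = w u Q, Y = univ \ pi(b), X n Y = w u (Q \ pi(b)) as w is disjoint from T.
M a b = average of A X Y, or 1 - A X Y if g (w u Q) = true (row change, depends on a and pi only: Fac.row, Fac.comp,
Fac.avg). a n b empty: every term <= e. a n b = {i0}: the term is >= 1 - e if pi i0 is critical (in Q and g (w u Q.erase) <> g (w u Q)),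
else >= 0. Number of pi with pi i0 critical = number with pi i1 critical for every i1 in a (compose pi with
Equiv.swap i0 i1, which preserves a), sum over i1 in a = sum over pi of the number of critical elements of pi(a)
>= lam 2m #pi. So the average is >= lam (1 - e) >= lam - e. -/

set_option autoImplicit false

namespace Pool.Agent.Helper17.AQ

open Finset Pool.Agent.Results.MP_799357_lc.DetVsQuantum

/-- the image of `a` in `T` -/
private def im38 {α β : Type} [DecidableEq α] (T : Finset α) (p : β ≃ T) (a : Finset β) :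
    Finset α := a.image (fun i => (p i : α))

private lemma im_inj38 {α β : Type} (T : Finset α) (p : β ≃ T) :
    Function.Injective (fun i => (p i : α)) :=
  Subtype.val_injective.comp p.injective

private lemma im_sub38 {α β : Type} [DecidableEq α] (T : Finset α) (p : β ≃ T) (a : Finset β) :
    im38 T p a ⊆ T := by
  intro x hx
  rw [im38, mem_image] at hx
  obtain ⟨i, -, rfl⟩ := hx
  exact (p i).2

private lemma im_card38 {α β : Type} [DecidableEq α] (T : Finset α) (p : β ≃ T) (a : Finset β) :
    (im38 T p a).card = a.card := by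
  rw [im38, card_image_of_injective _ (im_inj38 T p)]

private lemma mem_im38 {α β : Type} [DecidableEq α] (T : Finset α) (p : β ≃ T) (a : Finset β)
    (i : β) : ((p i : α) ∈ im38 T p a) ↔ i ∈ a := by
  rw [im38, mem_image]
  constructor
  · rintro ⟨j, hj, h⟩
    rw [← im_inj38 T p h]
    exact hj
  · intro h
    exact ⟨i, h, rfl⟩

private lemma im_swap38 {α β : Type} [DecidableEq α] [DecidableEq β] (T : Finset α)
    (p : β ≃ T) (a : Finset β) (i j : β) (hi : i ∈ a) (hj : j ∈ a) :
    im38 T ((Equiv.swap i j).trans p) a = im38 T p a := by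
  have hsub : ∀ q : β ≃ T, im38 T ((Equiv.swap i j).trans q) a ⊆ im38 T q a := by
    intro q x hx
    rw [im38, mem_image] at hx
    obtain ⟨k, hk, rfl⟩ := hx
    rw [Equiv.trans_apply, mem_im38]
    by_cases h1 : k = i
    · rw [h1, Equiv.swap_apply_left]
      exact hj
    · by_cases h2 : k = j
      · rw [h2, Equiv.swap_apply_right]
        exact hi
      · rw [Equiv.swap_apply_of_ne_of_ne h1 h2]
        exact hk
  apply Finset.eq_of_subset_of_card_le (hsub p)
  rw [im_card38, im_card38]

private lemma count38 {α β : Type} [Fintype β] [DecidableEq α] [DecidableEq β] (T : Finset α)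
    (C : Finset α → α → Prop) [∀ P x, Decidable (C P x)] (a : Finset β) (i j : β)
    (hi : i ∈ a) (hj : j ∈ a) :
    (univ.filter fun p : β ≃ T => C (im38 T p a) (p i)).card =
      (univ.filter fun p : β ≃ T => C (im38 T p a) (p j)).card := by
  apply Finset.card_nbij' (fun p => (Equiv.swap i j).trans p) (fun p => (Equiv.swap i j).trans p)
  · intro p hp
    rw [mem_coe, mem_filter] at hp ⊢
    refine ⟨mem_univ _, ?_⟩
    rw [im_swap38 T p a i j hi hj, Equiv.trans_apply, Equiv.swap_apply_right]
    exact hp.2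
  · intro p hp
    rw [mem_coe, mem_filter] at hp ⊢
    refine ⟨mem_univ _, ?_⟩
    rw [im_swap38 T p a i j hi hj, Equiv.trans_apply, Equiv.swap_apply_left]
    exact hp.2
  · intro p _
    ext x
    simp
  · intro p _
    ext x
    simp

private lemma count_sum38 {α β : Type} [Fintype β] [DecidableEq α] [DecidableEq β] (T : Finset α)
    (C : Finset α → α → Prop) [∀ P x, Decidable (C P x)] (a : Finset β) (i : β)
    (hi : i ∈ a) (L : ℝ)
    (hC : ∀ p : β ≃ T, L * a.card ≤ (((im38 T p a).filter fun x => C (im38 T p a) x).card : ℝ)) :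
    L * Fintype.card (β ≃ T) ≤ ((univ.filter fun p : β ≃ T => C (im38 T p a) (p i)).card : ℝ) := by
  have h1 : ∑ j ∈ a, ((univ.filter fun p : β ≃ T => C (im38 T p a) (p j)).card : ℝ) =
      a.card * ((univ.filter fun p : β ≃ T => C (im38 T p a) (p i)).card : ℝ) := by
    rw [Finset.sum_congr rfl (fun j hj => by
      rw [count38 T C a j i hj hi]), Finset.sum_const, nsmul_eq_mul]
  have h2 : ∑ j ∈ a, ((univ.filter fun p : β ≃ T => C (im38 T p a) (p j)).card : ℝ) =
      ∑ p : β ≃ T, (((im38 T p a).filter fun x => C (im38 T p a) x).card : ℝ) := by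
    have h3 : ∀ p : β ≃ T, (((im38 T p a).filter fun x => C (im38 T p a) x).card : ℝ) =
        ∑ j ∈ a, (if C (im38 T p a) (p j) then (1 : ℝ) else 0) := by
      intro p
      rw [Finset.card_filter]
      push_cast
      conv_lhs => rw [im38]
      rw [Finset.sum_image (fun x _ y _ h => im_inj38 T p h)]
      rfl
    rw [Finset.sum_congr rfl (fun p _ => h3 p), Finset.sum_comm]
    apply Finset.sum_congr rfl
    intro j _
    rw [Finset.card_filter]
    push_cast
    rfl
  have h4 : ∑ p : β ≃ T, L * (a.card : ℝ) ≤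
      ∑ p : β ≃ T, (((im38 T p a).filter fun x => C (im38 T p a) x).card : ℝ) :=
    Finset.sum_le_sum (fun p _ => hC p)
  rw [← h2, h1, Finset.sum_const, nsmul_eq_mul, Finset.card_univ] at h4
  have h5 : (0 : ℝ) < a.card := by
    exact_mod_cast Finset.card_pos.mpr ⟨i, hi⟩
  have h6 : (a.card : ℝ) * (L * Fintype.card (β ≃ T)) ≤
      a.card * ((univ.filter fun p : β ≃ T => C (im38 T p a) (p i)).card : ℝ) := by
    calc (a.card : ℝ) * (L * Fintype.card (β ≃ T))
        = (Fintype.card (β ≃ T) : ℝ) * (L * a.card) := by ring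
      _ ≤ _ := h4
  exact le_of_mul_le_mul_left h6 h5

theorem reduce_crit {α : Type} [Fintype α] [DecidableEq α] (g : Finset α → Bool) (m : ℕ)
    (hm : 1 ≤ m) (T : Finset α) (hT : T.card = 4 * m) (lam : ℝ) (hlam0 : 0 ≤ lam)
    (hlam1 : lam ≤ 1)
    (hc : ∀ P ⊆ T, P.card = 2 * m → ∃ w Q : Finset α, Disjoint w T ∧ Q ⊆ P ∧
      lam * (2 * m) ≤ ((Q.filter fun i => g (w ∪ Q.erase i) ≠ g (w ∪ Q)).card : ℝ))
    (A : Finset α → Finset α → ℝ) (h01 : ∀ X Y, 0 ≤ A X Y ∧ A X Y ≤ 1)
    (e G : ℝ) (he : 0 ≤ e) (hA : ∀ X Y, |A X Y - bv (g (X ∩ Y))| ≤ e) (hF : Fac A G) :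
    ∃ M : Finset (I4 m) → Finset (I4 m) → ℝ, (∀ a b, 0 ≤ M a b ∧ M a b ≤ 1) ∧
      (∀ a b, a.card = 2 * m → b.card = m → (a ∩ b).card = 0 → M a b ≤ e) ∧
      (∀ a b, a.card = 2 * m → b.card = m → (a ∩ b).card = 1 → lam - e ≤ M a b) ∧
      Fac M (1 + G) := by
  classical
  -- the choice functions
  have hex : ∀ P : Finset α, ∃ w Q : Finset α, P ⊆ T → P.card = 2 * m → Disjoint w T ∧ Q ⊆ P ∧
      lam * (2 * m) ≤ ((Q.filter fun i => g (w ∪ Q.erase i) ≠ g (w ∪ Q)).card : ℝ) := by
    intro P
    by_cases h : P ⊆ T ∧ P.card = 2 * m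
    · obtain ⟨w, Q, h1⟩ := hc P h.1 h.2
      exact ⟨w, Q, fun _ _ => h1⟩
    · exact ⟨∅, ∅, fun h1 h2 => absurd ⟨h1, h2⟩ h⟩
  choose w Q hwQ using hex
  -- the equivalences
  have hcard : Fintype.card (I4 m) = Fintype.card T := by
    rw [Fintype.card_coe, hT]
    simp only [I4, Fintype.card_prod, Fintype.card_fin, Fintype.card_bool]
    ring
  have hne : Nonempty (I4 m ≃ T) := ⟨Fintype.equivOfCardEq hcard⟩
  -- the value at the base point
  set r : Finset α → ℝ := fun P => if g (w P ∪ Q P) = true then 1 else 0 with hr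
  set s : Finset α → ℝ := fun P => if g (w P ∪ Q P) = true then -1 else 1 with hs
  set t : (I4 m ≃ T) → Finset (I4 m) → Finset (I4 m) → ℝ := fun p a b =>
    r (im38 T p a) + s (im38 T p a) *
      A (w (im38 T p a) ∪ Q (im38 T p a)) (im38 T p b)ᶜ with ht
  have ht01 : ∀ p a b, 0 ≤ t p a b ∧ t p a b ≤ 1 := by
    intro p a b
    have h1 := h01 (w (im38 T p a) ∪ Q (im38 T p a)) (im38 T p b)ᶜ
    simp only [ht, hr, hs]
    split_ifs
    · constructor <;> linarith [h1.1, h1.2]
    · constructor <;> linarith [h1.1, h1.2]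
  -- the term as a distance from the value at the base point
  have hterm : ∀ p a b, t p a b =
      |A (w (im38 T p a) ∪ Q (im38 T p a)) (im38 T p b)ᶜ -
        bv (g (w (im38 T p a) ∪ Q (im38 T p a)))| := by
    intro p a b
    have h1 := h01 (w (im38 T p a) ∪ Q (im38 T p a)) (im38 T p b)ᶜ
    simp only [ht, hr, hs, bv]
    split_ifs
    · rw [abs_of_nonpos (by linarith [h1.2])]
      ring
    · rw [abs_of_nonneg (by linarith [h1.1])]
      ring
  -- the intersection
  have hint : ∀ (p : I4 m ≃ T) (a b : Finset (I4 m)), a.card = 2 * m →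
      (w (im38 T p a) ∪ Q (im38 T p a)) ∩ (im38 T p b)ᶜ =
        w (im38 T p a) ∪ (Q (im38 T p a) \ im38 T p b) := by
    intro p a b ha
    obtain ⟨h1, h2, -⟩ := hwQ (im38 T p a) (im_sub38 T p a) (by rw [im_card38, ha])
    ext x
    simp only [mem_inter, mem_union, mem_compl, mem_sdiff]
    constructor
    · rintro ⟨h3 | h3, h4⟩
      · exact Or.inl h3
      · exact Or.inr ⟨h3, h4⟩
    · rintro (h3 | ⟨h3, h4⟩)
      · exact ⟨Or.inl h3, fun h4 => Finset.disjoint_left.mp h1 h3 (im_sub38 T p b h4)⟩
      · exact ⟨Or.inr h3, h4⟩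
  have hJ : (0 : ℝ) < Fintype.card (I4 m ≃ T) := by
    exact_mod_cast Fintype.card_pos
  refine ⟨fun a b => (∑ p, t p a b) / Fintype.card (I4 m ≃ T), ?_, ?_, ?_, ?_⟩
  · intro a b
    constructor
    · exact div_nonneg (Finset.sum_nonneg (fun p _ => (ht01 p a b).1)) hJ.le
    · rw [div_le_one hJ]
      calc ∑ p, t p a b ≤ ∑ p : I4 m ≃ T, (1 : ℝ) :=
            Finset.sum_le_sum (fun p _ => (ht01 p a b).2)
        _ = Fintype.card (I4 m ≃ T) := by
            rw [Finset.sum_const, nsmul_eq_mul, mul_one, Finset.card_univ]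
  · intro a b ha _ hab
    rw [div_le_iff₀ hJ]
    calc ∑ p, t p a b ≤ ∑ p : I4 m ≃ T, e := by
          apply Finset.sum_le_sum
          intro p _
          rw [hterm p a b]
          have h1 := hA (w (im38 T p a) ∪ Q (im38 T p a)) (im38 T p b)ᶜ
          rw [hint p a b ha] at h1
          have h2 : Q (im38 T p a) \ im38 T p b = Q (im38 T p a) := by
            obtain ⟨-, h2, -⟩ := hwQ (im38 T p a) (im_sub38 T p a) (by rw [im_card38, ha])
            rw [Finset.sdiff_eq_self_iff_disjoint, Finset.disjoint_left]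
            intro x hx hxb
            have hxa := h2 hx
            rw [im38, mem_image] at hxa
            obtain ⟨i, hi, rfl⟩ := hxa
            rw [mem_im38] at hxb
            have : i ∈ a ∩ b := mem_inter.mpr ⟨hi, hxb⟩
            rw [Finset.card_eq_zero.mp hab] at this
            exact absurd this (Finset.notMem_empty i)
          rw [h2] at h1
          exact h1
      _ = e * Fintype.card (I4 m ≃ T) := by
          rw [Finset.sum_const, nsmul_eq_mul, Finset.card_univ, mul_comm]
  · intro a b ha _ hab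
    obtain ⟨i, hi⟩ := Finset.card_eq_one.mp hab
    have hia : i ∈ a := by
      have : i ∈ a ∩ b := by rw [hi]; exact mem_singleton_self i
      exact (mem_inter.mp this).1
    have hib : i ∈ b := by
      have : i ∈ a ∩ b := by rw [hi]; exact mem_singleton_self i
      exact (mem_inter.mp this).2
    rw [le_div_iff₀ hJ]
    by_cases he1 : 1 < e
    · have h1 : 0 ≤ ∑ p, t p a b := Finset.sum_nonneg (fun p _ => (ht01 p a b).1)
      have h2 : (lam - e) * Fintype.card (I4 m ≃ T) ≤ 0 :=
        mul_nonpos_of_nonpos_of_nonneg (by linarith) hJ.le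
      linarith
    push Not at he1
    have hcount := count_sum38 T
      (fun P x => x ∈ Q P ∧ g (w P ∪ (Q P).erase x) ≠ g (w P ∪ Q P)) a i hia lam (by
        intro p
        obtain ⟨-, h2, h3⟩ := hwQ (im38 T p a) (im_sub38 T p a) (by rw [im_card38, ha])
        have h4 : ((im38 T p a).filter fun x => x ∈ Q (im38 T p a) ∧
            g (w (im38 T p a) ∪ (Q (im38 T p a)).erase x) ≠
              g (w (im38 T p a) ∪ Q (im38 T p a))) =
            (Q (im38 T p a)).filter fun x =>
              g (w (im38 T p a) ∪ (Q (im38 T p a)).erase x) ≠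
                g (w (im38 T p a) ∪ Q (im38 T p a)) := by
          ext x
          simp only [mem_filter]
          constructor
          · rintro ⟨-, h5, h6⟩
            exact ⟨h5, h6⟩
          · rintro ⟨h5, h6⟩
            exact ⟨h2 h5, h5, h6⟩
        rw [h4, ha]
        push_cast
        exact h3)
    have hlow : (1 - e) * ((univ.filter fun p : I4 m ≃ T => (p i : α) ∈ Q (im38 T p a) ∧
          g (w (im38 T p a) ∪ (Q (im38 T p a)).erase (p i : α)) ≠
            g (w (im38 T p a) ∪ Q (im38 T p a))).card : ℝ) ≤ ∑ p, t p a b := by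
      rw [Finset.card_filter]
      push_cast
      rw [Finset.mul_sum]
      apply Finset.sum_le_sum
      intro p _
      split_ifs with hcr
      · rw [mul_one, hterm p a b]
        have h1 := hA (w (im38 T p a) ∪ Q (im38 T p a)) (im38 T p b)ᶜ
        rw [hint p a b ha] at h1
        have h2 : Q (im38 T p a) \ im38 T p b = (Q (im38 T p a)).erase (p i : α) := by
          obtain ⟨-, h2, -⟩ := hwQ (im38 T p a) (im_sub38 T p a) (by rw [im_card38, ha])
          ext x
          rw [mem_sdiff, mem_erase]
          constructor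
          · rintro ⟨h3, h4⟩
            refine ⟨?_, h3⟩
            rintro rfl
            exact h4 ((mem_im38 T p b i).mpr hib)
          · rintro ⟨h3, h4⟩
            refine ⟨h4, fun hxb => ?_⟩
            have hxa := h2 h4
            rw [im38, mem_image] at hxa
            obtain ⟨j, hj, rfl⟩ := hxa
            rw [mem_im38] at hxb
            have hjab : j ∈ a ∩ b := mem_inter.mpr ⟨hj, hxb⟩
            rw [hi, mem_singleton] at hjab
            rw [hjab] at h3
            exact h3 rfl
        rw [h2] at h1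
        have h3 : |bv (g (w (im38 T p a) ∪ (Q (im38 T p a)).erase (p i : α))) -
            bv (g (w (im38 T p a) ∪ Q (im38 T p a)))| = 1 := by
          have h4 := hcr.2
          generalize g (w (im38 T p a) ∪ (Q (im38 T p a)).erase (p i : α)) = x at h4 ⊢
          generalize g (w (im38 T p a) ∪ Q (im38 T p a)) = y at h4 ⊢
          cases x <;> cases y <;> simp [bv] at h4 ⊢
        have h5 := abs_sub_le (bv (g (w (im38 T p a) ∪ (Q (im38 T p a)).erase (p i : α))))
          (A (w (im38 T p a) ∪ Q (im38 T p a)) (im38 T p b)ᶜ)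
          (bv (g (w (im38 T p a) ∪ Q (im38 T p a))))
        rw [abs_sub_comm (bv (g (w (im38 T p a) ∪ (Q (im38 T p a)).erase (p i : α))))
          (A (w (im38 T p a) ∪ Q (im38 T p a)) (im38 T p b)ᶜ), h3] at h5
        linarith
      · rw [mul_zero]
        exact (ht01 p a b).1
    have h7 := mul_le_mul_of_nonneg_left hcount (show (0 : ℝ) ≤ 1 - e by linarith)
    have h8 : (lam - e) * Fintype.card (I4 m ≃ T) ≤
        (1 - e) * (lam * Fintype.card (I4 m ≃ T)) := by
      have h9 : lam - e ≤ (1 - e) * lam := by nlinarith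
      calc (lam - e) * Fintype.card (I4 m ≃ T)
          ≤ ((1 - e) * lam) * Fintype.card (I4 m ≃ T) := mul_le_mul_of_nonneg_right h9 hJ.le
        _ = _ := by ring
    exact h8.trans (h7.trans hlow)
  · apply Fac.avg
    intro p
    simp only [ht]
    apply Fac.row (fun a => r (im38 T p a)) (fun a => s (im38 T p a))
    · intro a
      simp only [hr]
      split_ifs <;> simp
    · intro a
      simp only [hs]
      split_ifs <;> simp
    · exact Fac.comp (fun a => w (im38 T p a) ∪ Q (im38 T p a)) (fun b => (im38 T p b)ᶜ) hF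

end Pool.Agent.Helper17.AQ
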