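import Pool.Agent.Helper17.AQ.Defs

/-! AQ10 (Knop-Lovett-McGuire-Yuan). Spread g A K implies Spread g A k for k <= K, and K < |alpha|. Take the largest power of
two k = 2^j such that Spread g A k for some A; k >= t^3 and no Spread g A' (2k). Let Om, S be the family, N = |Om|. For o in Om^t
let R = elements in at least two of the S (o i). (E0) g(A u R) <> g A: this set of o, if not empty, with R \ A would be a
family; not Spread g A (2k) gives an element i with 2k #{o in E0 : i in R} >= #E0, but #{o : i in R} <= choose t 2 (N/k)^2 N^(t-2):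
#E0 <= t (t-1) N^t / k. (Ei) g(A u R u S(o i)) <> g(A u S (o i)): R u S(o i) = S(o i) u R_i, R_i = elements in at least two of the S(o j), j <> i;
for fixed o i the same argument at A u S(o i): <= (t-1)(t-2) N^t / k. Sum <= t (t-1)^2 N^t / k < N^t. So some o has none:
z = A u R, B i = S(o i) \ R \ A ... are disjoint and sensitive: contradiction to hno. -/

set_option autoImplicit false

namespace Pool.Agent.Helper17.AQ

open Finset Pool.Agent.Results.MP_799357_lc.DetVsQuantum

private theorem mono_12 {α : Type} [DecidableEq α] [Fintype α] {g : Finset α → Bool}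
    {A : Finset α} {K k : ℕ} (h : Spread g A K) (hk : k ≤ K) : Spread g A k := by
  obtain ⟨Ω, i1, i2, S, h1, h2⟩ := h
  exact ⟨Ω, i1, i2, S, h1, fun i => lt_of_le_of_lt (Nat.mul_le_mul_right _ hk) (h2 i)⟩

private theorem bound_12 {α : Type} [DecidableEq α] [Fintype α] {g : Finset α → Bool}
    {A : Finset α} {k : ℕ} (h : Spread g A k) : k ≤ Fintype.card α := by
  obtain ⟨Ω, i1, i2, S, h1, h2⟩ := h
  have hN : 0 < Fintype.card Ω := Fintype.card_pos
  have h3 : Fintype.card Ω ≤ ∑ o, (S o).card := by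
    calc Fintype.card Ω = ∑ o : Ω, 1 := by simp
      _ ≤ ∑ o, (S o).card := sum_le_sum fun o _ => by
          rw [Nat.succ_le_iff, card_pos]
          by_contra hne
          rw [not_nonempty_iff_eq_empty] at hne
          exact (h1 o).2 (by rw [hne, union_empty])
  have h4 : ∑ o, (S o).card = ∑ i, (univ.filter fun o => i ∈ S o).card := by
    have h5 : ∀ o, (S o).card = ∑ i, if i ∈ S o then 1 else 0 := by
      intro o
      simp
    simp_rw [h5, card_filter]
    exact sum_comm
  have h6 : k * Fintype.card Ω ≤ Fintype.card α * Fintype.card Ω := by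
    calc k * Fintype.card Ω ≤ k * ∑ i, (univ.filter fun o => i ∈ S o).card := by
          rw [← h4]
          exact Nat.mul_le_mul_left _ h3
      _ = ∑ i, k * (univ.filter fun o => i ∈ S o).card := by rw [mul_sum]
      _ ≤ ∑ _i : α, Fintype.card Ω := sum_le_sum fun i _ => (h2 i).le
      _ = Fintype.card α * Fintype.card Ω := by simp
  exact Nat.le_of_mul_le_mul_right h6 hN

/-- the elements in at least two of the sets -/
private def RR_12 {α : Type} [DecidableEq α] [Fintype α] {Ω J : Type} [Fintype J] [DecidableEq J]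
    (S : Ω → Finset α) (o : J → Ω) : Finset α :=
  univ.filter fun i => ∃ j j' : J, j ≠ j' ∧ i ∈ S (o j) ∧ i ∈ S (o j')

private theorem mem_RR_12 {α : Type} [DecidableEq α] [Fintype α] {Ω J : Type} [Fintype J]
    [DecidableEq J] (S : Ω → Finset α) (o : J → Ω) (i : α) :
    i ∈ RR_12 S o ↔ ∃ j j' : J, j ≠ j' ∧ i ∈ S (o j) ∧ i ∈ S (o j') := by
  unfold RR_12
  simp

private theorem cnt_12 {α : Type} [DecidableEq α] [Fintype α] {Ω J : Type} [Fintype Ω] [Fintype J]
    [DecidableEq J] (S : Ω → Finset α) (k : ℕ)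
    (hS : ∀ i, k * (univ.filter fun o => i ∈ S o).card ≤ Fintype.card Ω) (i : α) :
    k * k * (univ.filter fun o : J → Ω => i ∈ RR_12 S o).card ≤
      (univ : Finset J).offDiag.card * Fintype.card Ω ^ Fintype.card J := by
  classical
  have h1 : (univ.filter fun o : J → Ω => i ∈ RR_12 S o) ⊆ (univ : Finset J).offDiag.biUnion
      fun p => univ.filter fun o : J → Ω => i ∈ S (o p.1) ∧ i ∈ S (o p.2) := by
    intro o ho
    rw [mem_filter, mem_RR_12] at ho
    obtain ⟨-, j, j', hne, ha, hb⟩ := ho
    rw [mem_biUnion]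
    exact ⟨(j, j'), by simp [mem_offDiag, hne], by simp [ha, hb]⟩
  have h2 : ∀ p ∈ (univ : Finset J).offDiag,
      k * k * (univ.filter fun o : J → Ω => i ∈ S (o p.1) ∧ i ∈ S (o p.2)).card ≤
        Fintype.card Ω ^ Fintype.card J := by
    intro p hp
    have hne : p.1 ≠ p.2 := by
      rw [mem_offDiag] at hp
      exact hp.2.2
    have h3 : (univ.filter fun o : J → Ω => i ∈ S (o p.1) ∧ i ∈ S (o p.2)) =
        Fintype.piFinset fun j => if j = p.1 ∨ j = p.2 then univ.filter (fun o => i ∈ S o)
          else univ := by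
      ext o
      rw [mem_filter, Fintype.mem_piFinset]
      constructor
      · rintro ⟨-, ha, hb⟩ j
        by_cases hj : j = p.1 ∨ j = p.2
        · rw [if_pos hj, mem_filter]
          rcases hj with rfl | rfl
          · exact ⟨mem_univ _, ha⟩
          · exact ⟨mem_univ _, hb⟩
        · rw [if_neg hj]
          exact mem_univ _
      · intro h
        have ha := h p.1
        have hb := h p.2
        rw [if_pos (Or.inl rfl), mem_filter] at ha
        rw [if_pos (Or.inr rfl), mem_filter] at hb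
        exact ⟨mem_univ _, ha.2, hb.2⟩
    have h4 : k * k = ∏ j : J, (if j = p.1 ∨ j = p.2 then k else 1) := by
      rw [prod_ite, prod_const, prod_const_one, mul_one]
      have h5 : (univ.filter fun j : J => j = p.1 ∨ j = p.2) = {p.1, p.2} := by
        ext j
        simp
      rw [h5, card_pair hne, sq]
    rw [h3, Fintype.card_piFinset, h4, ← prod_mul_distrib]
    calc ∏ j : J, ((if j = p.1 ∨ j = p.2 then k else 1) *
          (if j = p.1 ∨ j = p.2 then univ.filter (fun o => i ∈ S o) else univ).card)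
        ≤ ∏ _j : J, Fintype.card Ω := by
          refine prod_le_prod' fun j _ => ?_
          by_cases hj : j = p.1 ∨ j = p.2
          · rw [if_pos hj, if_pos hj]
            exact hS i
          · rw [if_neg hj, if_neg hj, one_mul]
            exact le_rfl
      _ = Fintype.card Ω ^ Fintype.card J := by
          rw [prod_const]
          rfl
  calc k * k * (univ.filter fun o : J → Ω => i ∈ RR_12 S o).card
      ≤ k * k * ∑ p ∈ (univ : Finset J).offDiag,
        (univ.filter fun o : J → Ω => i ∈ S (o p.1) ∧ i ∈ S (o p.2)).card :=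
        Nat.mul_le_mul_left _ ((card_le_card h1).trans card_biUnion_le)
    _ = ∑ p ∈ (univ : Finset J).offDiag,
        k * k * (univ.filter fun o : J → Ω => i ∈ S (o p.1) ∧ i ∈ S (o p.2)).card := by
        rw [mul_sum]
    _ ≤ ∑ _p ∈ (univ : Finset J).offDiag, Fintype.card Ω ^ Fintype.card J := sum_le_sum h2
    _ = _ := by rw [sum_const, smul_eq_mul]

private theorem bad_12 {α : Type} [DecidableEq α] [Fintype α] {Ω J : Type} [Fintype Ω] [Fintype J]
    [DecidableEq J] (g : Finset α → Bool) (S : Ω → Finset α) (k : ℕ)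
    (hS : ∀ i, k * (univ.filter fun o => i ∈ S o).card ≤ Fintype.card Ω) (A' : Finset α)
    (hn : ¬ Spread g A' (2 * k)) :
    k * (univ.filter fun o : J → Ω => g (A' ∪ RR_12 S o) ≠ g A').card ≤
      2 * ((univ : Finset J).offDiag.card * Fintype.card Ω ^ Fintype.card J) := by
  classical
  set E := univ.filter fun o : J → Ω => g (A' ∪ RR_12 S o) ≠ g A' with hEd
  by_cases hE : E.Nonempty
  · by_contra hcon
    rw [not_le] at hcon
    apply hn
    refine ⟨{o // o ∈ E}, inferInstance, hE.to_subtype, fun o => RR_12 S o.1 \ A',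
      fun o => ⟨sdiff_disjoint, ?_⟩, fun i => ?_⟩
    · rw [union_sdiff_self_eq_union]
      exact (mem_filter.1 o.2).2
    · rw [Fintype.card_coe]
      have h1 : (univ.filter fun o : {o // o ∈ E} => i ∈ RR_12 S o.1 \ A').card ≤
          (univ.filter fun o : J → Ω => i ∈ RR_12 S o).card := by
        refine card_le_card_of_injOn (fun o => o.1) (fun o ho => ?_) (fun o _ o' _ h => Subtype.ext h)
        rw [coe_filter] at ho ⊢
        exact ⟨mem_univ _, (mem_sdiff.1 ho.2).1⟩
      have h2 := cnt_12 (J := J) S k hS i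
      by_contra hc
      rw [not_lt] at hc
      set c' := (univ.filter fun o : {o // o ∈ E} => i ∈ RR_12 S o.1 \ A').card
      set c := (univ.filter fun o : J → Ω => i ∈ RR_12 S o).card
      have h3 : k * E.card ≤ k * (2 * k * c') := Nat.mul_le_mul_left _ hc
      have h4 : k * k * c' ≤ k * k * c := Nat.mul_le_mul_left _ h1
      have h5 : k * (2 * k * c') = 2 * (k * k * c') := by ring
      omega
  · rw [not_nonempty_iff_eq_empty] at hE
    rw [hE, card_empty, mul_zero]
    exact Nat.zero_le _

private theorem step_12 {α : Type} [DecidableEq α] [Fintype α] (g : Finset α → Bool) (t : ℕ)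
    (ht : 1 ≤ t) (hno : ¬ Blocks g (Fin t)) (k : ℕ) (hk : 2 * t ^ 3 ≤ k) (A : Finset α)
    (hA : Spread g A k) : ∃ A', Spread g A' (2 * k) := by
  classical
  by_contra hcon
  rw [not_exists] at hcon
  obtain ⟨Ω, i1, i2, S, h1, h2⟩ := hA
  apply hno
  have hN : 0 < Fintype.card Ω := Fintype.card_pos
  have hS : ∀ i, k * (univ.filter fun o => i ∈ S o).card ≤ Fintype.card Ω := fun i => (h2 i).le
  have e0 := bad_12 (J := Fin t) g S k hS A (hcon A)
  set E0 := univ.filter fun o : Fin t → Ω => g (A ∪ RR_12 S o) ≠ g A with hE0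
  let E : Fin t → Finset (Fin t → Ω) := fun j => univ.filter fun o : Fin t → Ω =>
    g ((A ∪ S (o j)) ∪ RR_12 S (fun j' : {j' // j' ≠ j} => o j'.1)) ≠ g (A ∪ S (o j))
  obtain ⟨s, rfl⟩ : ∃ s, t = s + 1 := ⟨t - 1, by omega⟩
  have hcs : ∀ j : Fin (s + 1), Fintype.card {j' : Fin (s + 1) // j' ≠ j} = s := by
    intro j
    have h3 := Fintype.card_subtype_compl (fun j' : Fin (s + 1) => j' = j)
    rw [Fintype.card_fin, Fintype.card_subtype_eq] at h3
    simp at h3 ⊢
  have ej : ∀ j, k * (E j).card ≤ 2 * (s * s) * Fintype.card Ω ^ (s + 1) := by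
    intro j
    have h3 : (E j).card = ∑ ω : Ω, ((E j).filter fun o => o j = ω).card :=
      card_eq_sum_card_fiberwise fun o _ => mem_univ _
    have h4 : ∀ ω : Ω, k * ((E j).filter fun o => o j = ω).card ≤
        2 * (s * s) * Fintype.card Ω ^ s := by
      intro ω
      have h5 := bad_12 (J := {j' : Fin (s + 1) // j' ≠ j}) g S k hS (A ∪ S ω) (hcon _)
      have h6 : ((E j).filter fun o => o j = ω).card ≤
          (univ.filter fun o : {j' : Fin (s + 1) // j' ≠ j} → Ω =>
            g ((A ∪ S ω) ∪ RR_12 S o) ≠ g (A ∪ S ω)).card := by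
        refine card_le_card_of_injOn (fun o j' => o j'.1) (fun o ho => ?_) ?_
        · rw [coe_filter] at ho ⊢
          obtain ⟨ho1, rfl⟩ := ho
          exact ⟨mem_univ _, (mem_filter.1 ho1).2⟩
        · intro o ho o' ho' h
          rw [coe_filter] at ho ho'
          funext j'
          by_cases hj : j' = j
          · rw [hj, ho.2, ho'.2]
          · exact congrFun h ⟨j', hj⟩
      rw [offDiag_card, card_univ, hcs j] at h5
      calc k * ((E j).filter fun o => o j = ω).card ≤ _ := Nat.mul_le_mul_left _ h6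
        _ ≤ 2 * ((s * s - s) * Fintype.card Ω ^ s) := h5
        _ ≤ 2 * ((s * s) * Fintype.card Ω ^ s) := by
            gcongr
            omega
        _ = _ := by ring
    rw [h3, mul_sum]
    calc ∑ ω : Ω, k * ((E j).filter fun o => o j = ω).card
        ≤ ∑ _ω : Ω, 2 * (s * s) * Fintype.card Ω ^ s := sum_le_sum fun ω _ => h4 ω
      _ = _ := by
          rw [sum_const, card_univ, smul_eq_mul]
          ring
  obtain ⟨o, ho⟩ : ∃ o : Fin (s + 1) → Ω, o ∉ E0 ∧ ∀ j, o ∉ E j := by
    by_contra hc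
    have h3 : (univ : Finset (Fin (s + 1) → Ω)) ⊆ E0 ∪ univ.biUnion E := by
      intro o _
      by_contra ho
      apply hc
      rw [mem_union, mem_biUnion, not_or, not_exists] at ho
      exact ⟨o, ho.1, fun j hj => ho.2 j ⟨mem_univ _, hj⟩⟩
    have h4 := (card_le_card h3).trans ((card_union_le _ _).trans
      (Nat.add_le_add_left card_biUnion_le _))
    rw [card_univ, Fintype.card_fun, Fintype.card_fin] at h4
    have h5 : k * Fintype.card Ω ^ (s + 1) ≤ k * E0.card + ∑ j, k * (E j).card := by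
      rw [← mul_sum, ← mul_add]
      exact Nat.mul_le_mul_left _ h4
    have h6 : ∑ j, k * (E j).card ≤ (s + 1) * (2 * (s * s) * Fintype.card Ω ^ (s + 1)) := by
      calc ∑ j, k * (E j).card ≤ ∑ _j : Fin (s + 1), 2 * (s * s) * Fintype.card Ω ^ (s + 1) :=
            sum_le_sum fun j _ => ej j
        _ = _ := by rw [sum_const, card_univ, Fintype.card_fin, smul_eq_mul]
    rw [offDiag_card, card_univ, Fintype.card_fin] at e0
    have h7 : (s + 1) * (s + 1) - (s + 1) = (s + 1) * s := by
      rw [Nat.sub_eq_iff_eq_add (by nlinarith)]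
      ring
    rw [h7] at e0
    have hP : 0 < Fintype.card Ω ^ (s + 1) := Nat.pow_pos hN
    set P := Fintype.card Ω ^ (s + 1)
    have h8 : 2 * (s + 1) ^ 3 * P ≤ k * P := Nat.mul_le_mul_right _ hk
    have h9 : 2 * (s + 1) ^ 3 * P =
        2 * ((s + 1) * s * P) + (s + 1) * (2 * (s * s) * P) + (2 * (s + 1) * (s + 1)) * P := by
      ring
    have h10 : 0 < (2 * (s + 1) * (s + 1)) * P := by positivity
    omega
  obtain ⟨ho0, hoj⟩ := ho
  have g0 : g (A ∪ RR_12 S o) = g A := by
    by_contra h
    exact ho0 (mem_filter.2 ⟨mem_univ _, h⟩)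
  have gj : ∀ j, g ((A ∪ S (o j)) ∪ RR_12 S (fun j' : {j' // j' ≠ j} => o j'.1)) =
      g (A ∪ S (o j)) := by
    intro j
    by_contra h
    exact hoj j (mem_filter.2 ⟨mem_univ _, h⟩)
  refine ⟨A ∪ RR_12 S o, fun j => S (o j) \ RR_12 S o, fun i j hij => ?_, fun j => ⟨?_, ?_⟩⟩
  · rw [disjoint_left]
    intro x hx hx'
    rw [mem_sdiff] at hx hx'
    exact hx.2 ((mem_RR_12 S o x).2 ⟨i, j, hij, hx.1, hx'.1⟩)
  · rw [disjoint_union_right]
    exact ⟨disjoint_of_subset_left sdiff_subset (h1 (o j)).1, sdiff_disjoint⟩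
  · have h3 : (A ∪ RR_12 S o) ∪ (S (o j) \ RR_12 S o) =
        (A ∪ S (o j)) ∪ RR_12 S (fun j' : {j' // j' ≠ j} => o j'.1) := by
      ext x
      simp only [mem_union, mem_sdiff, mem_RR_12]
      constructor
      · rintro ((hx | ⟨a, b, hab, hxa, hxb⟩) | ⟨hx, -⟩)
        · exact Or.inl (Or.inl hx)
        · by_cases ha : a = j
          · exact Or.inl (Or.inr (ha ▸ hxa))
          · by_cases hb : b = j
            · exact Or.inl (Or.inr (hb ▸ hxb))
            · exact Or.inr ⟨⟨a, ha⟩, ⟨b, hb⟩, fun h => hab (congrArg Subtype.val h), hxa, hxb⟩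
        · exact Or.inl (Or.inr hx)
      · rintro ((hx | hx) | ⟨a, b, hab, hxa, hxb⟩)
        · exact Or.inl (Or.inl hx)
        · by_cases hR : ∃ j_1 j' : Fin (s + 1), j_1 ≠ j' ∧ x ∈ S (o j_1) ∧ x ∈ S (o j')
          · exact Or.inl (Or.inr hR)
          · exact Or.inr ⟨hx, hR⟩
        · exact Or.inl (Or.inr ⟨a.1, b.1, fun h => hab (Subtype.ext h), hxa, hxb⟩)
    rw [h3, gj j, g0]
    exact (h1 (o j)).2

theorem not_spread {α : Type} [DecidableEq α] [Fintype α] (g : Finset α → Bool) (t : ℕ)
    (ht : 1 ≤ t) (hno : ¬ Blocks g (Fin t)) (K : ℕ) (hK : 2 * t ^ 3 ≤ K) (A : Finset α) :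
    ¬ Spread g A K := by
  intro hA
  have hKp : 1 ≤ K := le_trans (by have := Nat.pow_pos (n := 3) ht; omega) hK
  have h : ∀ m, ∃ A', Spread g A' (K + m) := by
    intro m
    induction m with
    | zero => exact ⟨A, hA⟩
    | succ m ih =>
      obtain ⟨A', h1⟩ := ih
      obtain ⟨A'', h2⟩ := step_12 g t ht hno (K + m) (by omega) A' h1
      exact ⟨A'', mono_12 h2 (by omega)⟩
  obtain ⟨A', h1⟩ := h (Fintype.card α)
  have h2 := bound_12 h1
  omega

end Pool.Agent.Helper17.AQ
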